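import Pool.Agent.TSP.P3Stmts

/-!
# CSD: subdividing an arc does not change the injectivity of the cone complex
-/

set_option autoImplicit false

open scoped RealInnerProductSpace

namespace Pool.Agent.TSP

open Pool.Agent.TSM

namespace CSD_

variable {V : Type} [Fintype V] [DecidableEq V]

/-- the relation between the directions of `x, y, m` -/
def S (x y m : V) (α β μ : ℝ) (u : V) : ℝ :=
  (if u = x then μ * α else 0) + (if u = y then μ * β else 0) - (if u = m then μ else 0)

section
variable {x y m : V} {α β : ℝ}

omit [Fintype V] in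
theorem S_x (hxy : x ≠ y) (hxm : x ≠ m) (μ : ℝ) : S x y m α β μ x = μ * α := by
  unfold S
  rw [if_pos rfl, if_neg hxy, if_neg hxm]
  ring

omit [Fintype V] in
theorem S_y (hxy : x ≠ y) (hym : y ≠ m) (μ : ℝ) : S x y m α β μ y = μ * β := by
  unfold S
  rw [if_pos rfl, if_neg hxy.symm, if_neg hym]
  ring

omit [Fintype V] in
theorem S_m (hxm : x ≠ m) (hym : y ≠ m) (μ : ℝ) : S x y m α β μ m = -μ := by
  unfold S
  rw [if_pos rfl, if_neg hxm.symm, if_neg hym.symm]
  ring

omit [Fintype V] in
theorem S_o {u : V} (hx : u ≠ x) (hy : u ≠ y) (hm : u ≠ m) (μ : ℝ) : S x y m α β μ u = 0 := by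
  unfold S
  rw [if_neg hx, if_neg hy, if_neg hm]
  ring

theorem S_sum (d : V → E3) (hd : d m = α • d x + β • d y) (μ : ℝ) :
    ∑ u, S x y m α β μ u • d u = 0 := by
  unfold S
  simp only [sub_smul, add_smul, ite_smul, zero_smul, Finset.sum_sub_distrib,
    Finset.sum_add_distrib, Finset.sum_ite_eq', Finset.mem_univ, if_true]
  rw [hd, smul_add, smul_smul, smul_smul, sub_self]

omit [Fintype V] in
theorem mem_A' {A : Finset (Finset V)} {s : Finset V} :
    s ∈ (A.erase {x, y}) ∪ {{x, m}, {m, y}} ↔ (s ≠ {x, y} ∧ s ∈ A) ∨ s = {x, m} ∨ s = {m, y} := by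
  simp only [Finset.mem_union, Finset.mem_erase, Finset.mem_insert, Finset.mem_singleton]

omit [Fintype V] in
/-- an arc that contains both `x` and `y` is the arc `{x, y}` -/
theorem eq_pair (hxy : x ≠ y) {s : Finset V} (hs : s.card = 2) (hx : x ∈ s) (hy : y ∈ s) :
    s = {x, y} := by
  have h1 : ({x, y} : Finset V) ⊆ s := by
    intro u hu
    simp only [Finset.mem_insert, Finset.mem_singleton] at hu
    rcases hu with rfl | rfl
    · exact hx
    · exact hy
  exact (Finset.eq_of_subset_of_card_le h1 (by rw [hs, Finset.card_pair hxy])).symm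

/-- first direction, when the coefficient of the new vertex is nonnegative -/
theorem fwd {A : Finset (Finset V)} {d : V → E3} (hxy : x ≠ y) (hA : ∀ s ∈ A, s.card = 2)
    (hA1 : {x, y} ∈ A) (hm : ∀ s ∈ A, m ∉ s) (hα : 0 < α) (hβ : 0 < β)
    (hd : d m = α • d x + β • d y) (h : ConeInj A d) (σ : Finset V)
    (hσ : σ ∈ (A.erase {x, y}) ∪ {{x, m}, {m, y}}) (τ : Finset V)
    (hτ : τ ∈ (A.erase {x, y}) ∪ {{x, m}, {m, y}}) (ζ : V → ℝ) (h1 : ∀ u, u ∉ σ → ζ u ≤ 0)
    (h2 : ∀ u, u ∉ τ → 0 ≤ ζ u) (h3 : ∑ u, ζ u • d u = 0) (h4 : 0 ≤ ζ m) : ζ = 0 := by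
  have hxm : x ≠ m := by
    rintro rfl
    exact hm _ hA1 (by simp)
  have hym : y ≠ m := by
    rintro rfl
    exact hm _ hA1 (by simp)
  rw [mem_A'] at hσ hτ
  -- the arcs of `A`
  have key : ∀ s : Finset V, ((s ≠ {x, y} ∧ s ∈ A) ∨ s = {x, m} ∨ s = {m, y}) →
      (if m ∈ s then ({x, y} : Finset V) else s) ∈ A := by
    intro s hs
    split_ifs with hms
    · exact hA1
    · rcases hs with ⟨_, hs⟩ | rfl | rfl
      · exact hs
      · exact (hms (by simp)).elim
      · exact (hms (by simp)).elim
  have sub : ∀ s : Finset V, ((s ≠ {x, y} ∧ s ∈ A) ∨ s = {x, m} ∨ s = {m, y}) →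
      m ∈ s → ∀ u, u ≠ x → u ≠ y → u ≠ m → u ∉ s := by
    intro s hs hms u hux huy hum hu
    rcases hs with ⟨_, hs⟩ | rfl | rfl
    · exact hm _ hs hms
    · simp only [Finset.mem_insert, Finset.mem_singleton] at hu
      rcases hu with hu | hu
      · exact hux hu
      · exact hum hu
    · simp only [Finset.mem_insert, Finset.mem_singleton] at hu
      rcases hu with hu | hu
      · exact hum hu
      · exact huy hu
  have hz := h _ (key σ hσ) _ (key τ hτ) (fun u => ζ u + S x y m α β (ζ m) u) ?_ ?_ ?_
  · -- conclusion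
    have zx : ζ x + ζ m * α = 0 := by
      have := congrFun hz x
      rw [← S_x (m := m) (α := α) (β := β) hxy hxm]
      exact this
    have zy : ζ y + ζ m * β = 0 := by
      have := congrFun hz y
      rw [← S_y (m := m) (α := α) (β := β) hxy hym]
      exact this
    have zo : ∀ u, u ≠ x → u ≠ y → u ≠ m → ζ u = 0 := by
      intro u hux huy hum
      have := congrFun hz u
      simp only [S_o hux huy hum, add_zero] at this
      exact this
    rcases h4.eq_or_lt with h0 | h0
    · funext u
      rw [← h0] at zx zy
      by_cases hux : u = x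
      · rw [hux]
        simpa using zx
      · by_cases huy : u = y
        · rw [huy]
          simpa using zy
        · by_cases hum : u = m
          · rw [hum]
            exact h0.symm
          · exact zo u hux huy hum
    · exfalso
      have hx : x ∈ τ := by
        by_contra hx
        have := h2 x hx
        nlinarith
      have hy : y ∈ τ := by
        by_contra hy
        have := h2 y hy
        nlinarith
      rcases hτ with ⟨hne, hτ⟩ | rfl | rfl
      · exact hne (eq_pair hxy (hA _ hτ) hx hy)
      · simp only [Finset.mem_insert, Finset.mem_singleton] at hy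
        rcases hy with hy | hy
        · exact hxy hy.symm
        · exact hym hy
      · simp only [Finset.mem_insert, Finset.mem_singleton] at hx
        rcases hx with hx | hx
        · exact hxm hx
        · exact hxy hx
  · intro u hu
    change ζ u + S x y m α β (ζ m) u ≤ 0
    by_cases hum : u = m
    · rw [hum, S_m hxm hym]
      linarith
    by_cases hms : m ∈ σ
    · rw [if_pos hms] at hu
      simp only [Finset.mem_insert, Finset.mem_singleton, not_or] at hu
      rw [S_o hu.1 hu.2 hum, add_zero]
      exact h1 u (sub σ hσ hms u hu.1 hu.2 hum)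
    · rw [if_neg hms] at hu
      have h0 : ζ m = 0 := le_antisymm (h1 m hms) h4
      have hS : S x y m α β (ζ m) u = 0 := by
        unfold S
        rw [h0]
        simp
      rw [hS, add_zero]
      exact h1 u hu
  · intro u hu
    change 0 ≤ ζ u + S x y m α β (ζ m) u
    by_cases hum : u = m
    · rw [hum, S_m hxm hym]
      linarith
    by_cases hms : m ∈ τ
    · rw [if_pos hms] at hu
      simp only [Finset.mem_insert, Finset.mem_singleton, not_or] at hu
      rw [S_o hu.1 hu.2 hum, add_zero]
      exact h2 u (sub τ hτ hms u hu.1 hu.2 hum)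
    · rw [if_neg hms] at hu
      have h5 := h2 u hu
      have h6 : 0 ≤ S x y m α β (ζ m) u := by
        by_cases hux : u = x
        · rw [hux, S_x hxy hxm]
          positivity
        · by_cases huy : u = y
          · rw [huy, S_y hxy hym]
            positivity
          · rw [S_o hux huy hum]
      linarith
  · simp only [add_smul, Finset.sum_add_distrib]
    rw [h3, S_sum d hd, add_zero]

/-- the other direction: move a nonnegative vector of `A` to one of the subdivided family -/
theorem decomp {A : Finset (Finset V)} (hxy : x ≠ y) (hA : ∀ s ∈ A, s.card = 2)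
    (hA1 : {x, y} ∈ A) (hm : ∀ s ∈ A, m ∉ s) (hα : 0 < α) (hβ : 0 < β) (σ : Finset V)
    (hσ : σ ∈ A) (a : V → ℝ) (ha : ∀ u, 0 ≤ a u) (ha' : ∀ u, u ∉ σ → a u = 0) :
    ∃ (μ : ℝ) (σ' : Finset V), σ' ∈ (A.erase {x, y}) ∪ {{x, m}, {m, y}} ∧
      (∀ u, 0 ≤ a u - S x y m α β μ u) ∧ (∀ u, u ∉ σ' → a u - S x y m α β μ u = 0) := by
  have hxm : x ≠ m := by
    rintro rfl
    exact hm _ hA1 (by simp)
  have hym : y ≠ m := by
    rintro rfl
    exact hm _ hA1 (by simp)
  by_cases hs : σ = {x, y}
  · have ham : a m = 0 := ha' m (hm _ hσ)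
    have hao : ∀ u, u ≠ x → u ≠ y → u ≠ m → a u = 0 := by
      intro u hux huy _
      apply ha'
      rw [hs]
      simp only [Finset.mem_insert, Finset.mem_singleton, not_or]
      exact ⟨hux, huy⟩
    rcases le_total (a x / α) (a y / β) with hle | hle
    · have h1 : a x / α * α = a x := by field_simp
      have h2 : a x / α * β ≤ a y := by
        rw [le_div_iff₀ hβ] at hle
        exact hle
      have h3 : 0 ≤ a x / α := div_nonneg (ha x) hα.le
      refine ⟨a x / α, {m, y}, mem_A'.2 (Or.inr (Or.inr rfl)), fun u => ?_, fun u hu => ?_⟩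
      · by_cases hux : u = x
        · rw [hux, S_x hxy hxm, h1, sub_self]
        · by_cases huy : u = y
          · rw [huy, S_y hxy hym]
            linarith
          · by_cases hum : u = m
            · rw [hum, S_m hxm hym, ham]
              linarith
            · rw [S_o hux huy hum, hao u hux huy hum, sub_zero]
      · simp only [Finset.mem_insert, Finset.mem_singleton, not_or] at hu
        by_cases hux : u = x
        · rw [hux, S_x hxy hxm, h1, sub_self]
        · rw [S_o hux hu.2 hu.1, hao u hux hu.2 hu.1, sub_zero]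
    · have h1 : a y / β * β = a y := by field_simp
      have h2 : a y / β * α ≤ a x := by
        rw [le_div_iff₀ hα] at hle
        exact hle
      have h3 : 0 ≤ a y / β := div_nonneg (ha y) hβ.le
      refine ⟨a y / β, {x, m}, mem_A'.2 (Or.inr (Or.inl rfl)), fun u => ?_, fun u hu => ?_⟩
      · by_cases huy : u = y
        · rw [huy, S_y hxy hym, h1, sub_self]
        · by_cases hux : u = x
          · rw [hux, S_x hxy hxm]
            linarith
          · by_cases hum : u = m
            · rw [hum, S_m hxm hym, ham]
              linarith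
            · rw [S_o hux huy hum, hao u hux huy hum, sub_zero]
      · simp only [Finset.mem_insert, Finset.mem_singleton, not_or] at hu
        by_cases huy : u = y
        · rw [huy, S_y hxy hym, h1, sub_self]
        · rw [S_o hu.1 huy hu.2, hao u hu.1 huy hu.2, sub_zero]
  · have hS : ∀ u, S x y m α β 0 u = 0 := by
      intro u
      unfold S
      simp
    refine ⟨0, σ, mem_A'.2 (Or.inl ⟨hs, hσ⟩), fun u => ?_, fun u hu => ?_⟩
    · rw [hS, sub_zero]
      exact ha u
    · rw [hS, sub_zero]
      exact ha' u hu

end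

end CSD_

theorem csd_proof : Stmt_Csd := by
  intro V _ _ A d x y m α β hxy hA hA1 hm hα hβ hd
  have hxm : x ≠ m := by
    rintro rfl
    exact hm _ hA1 (by simp)
  have hym : y ≠ m := by
    rintro rfl
    exact hm _ hA1 (by simp)
  constructor
  · intro h σ hσ τ hτ ζ h1 h2 h3
    rcases le_total 0 (ζ m) with h4 | h4
    · exact CSD_.fwd hxy hA hA1 hm hα hβ hd h σ hσ τ hτ ζ h1 h2 h3 h4
    · have h5 := CSD_.fwd hxy hA hA1 hm hα hβ hd h τ hτ σ hσ (fun u => -ζ u)
        (fun u hu => by
          have := h2 u hu
          change -ζ u ≤ 0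
          linarith)
        (fun u hu => by
          have := h1 u hu
          change 0 ≤ -ζ u
          linarith)
        (by
          simp only [neg_smul, Finset.sum_neg_distrib]
          rw [h3, neg_zero])
        (by
          change 0 ≤ -ζ m
          linarith)
      funext u
      have := congrFun h5 u
      change -ζ u = 0 at this
      change ζ u = 0
      linarith
  · intro h σ hσ τ hτ ζ h1 h2 h3
    obtain ⟨μ, σ', hσ', p1, p2⟩ := CSD_.decomp (m := m) (α := α) (β := β) hxy hA hA1 hm hα hβ σ hσ
      (fun u => max (ζ u) 0) (fun u => le_max_right _ _) (fun u hu => max_eq_right (h1 u hu))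
    obtain ⟨ν, τ', hτ', q1, q2⟩ := CSD_.decomp (m := m) (α := α) (β := β) hxy hA hA1 hm hα hβ τ hτ
      (fun u => max (-ζ u) 0) (fun u => le_max_right _ _)
      (fun u hu => max_eq_right (by
        have := h2 u hu
        linarith))
    have hab : ∀ u, max (ζ u) 0 - max (-ζ u) 0 = ζ u := by
      intro u
      rcases le_total 0 (ζ u) with h0 | h0
      · rw [max_eq_left h0, max_eq_right (by linarith)]
        ring
      · rw [max_eq_right h0, max_eq_left (by linarith)]
        ring
    have h4 := h σ' hσ' τ' hτ' (fun u => (max (ζ u) 0 - CSD_.S x y m α β μ u) -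
      (max (-ζ u) 0 - CSD_.S x y m α β ν u)) ?_ ?_ ?_
    · have hm1 : ζ m = 0 := by
        have a1 := h1 m (hm _ hσ)
        have a2 := h2 m (hm _ hτ)
        linarith
      have hμν : μ = ν := by
        have := congrFun h4 m
        change (max (ζ m) 0 - CSD_.S x y m α β μ m) -
          (max (-ζ m) 0 - CSD_.S x y m α β ν m) = 0 at this
        rw [CSD_.S_m hxm hym, CSD_.S_m hxm hym, hm1] at this
        simp only [neg_zero, max_self] at this
        linarith
      funext u
      have := congrFun h4 u
      change (max (ζ u) 0 - CSD_.S x y m α β μ u) -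
        (max (-ζ u) 0 - CSD_.S x y m α β ν u) = 0 at this
      rw [hμν] at this
      change ζ u = 0
      rw [← hab u]
      linarith
    · intro u hu
      have a1 := p2 u hu
      have a2 := q1 u
      change (max (ζ u) 0 - CSD_.S x y m α β μ u) -
        (max (-ζ u) 0 - CSD_.S x y m α β ν u) ≤ 0
      change max (ζ u) 0 - CSD_.S x y m α β μ u = 0 at a1
      change 0 ≤ max (-ζ u) 0 - CSD_.S x y m α β ν u at a2
      linarith
    · intro u hu
      have a1 := q2 u hu
      have a2 := p1 u
      change 0 ≤ (max (ζ u) 0 - CSD_.S x y m α β μ u) -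
        (max (-ζ u) 0 - CSD_.S x y m α β ν u)
      change max (-ζ u) 0 - CSD_.S x y m α β ν u = 0 at a1
      change 0 ≤ max (ζ u) 0 - CSD_.S x y m α β μ u at a2
      linarith
    · have e : ∀ u, ((max (ζ u) 0 - CSD_.S x y m α β μ u) -
          (max (-ζ u) 0 - CSD_.S x y m α β ν u)) • d u =
          ζ u • d u - CSD_.S x y m α β μ u • d u + CSD_.S x y m α β ν u • d u := by
        intro u
        rw [← sub_smul, ← add_smul]
        congr 1
        have := hab u
        linarith
      rw [Finset.sum_congr rfl fun u _ => e u, Finset.sum_add_distrib, Finset.sum_sub_distrib,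
        h3, CSD_.S_sum d hd, CSD_.S_sum d hd]
      simp

end Pool.Agent.TSP
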