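import Pool.Agent.TSP.P3Stmts

/-!
# TSP.CYC: link cycles (functions on `ZMod n`) and link lists are the same thing
-/

set_option autoImplicit false

namespace Pool.Agent.TSP

open Pool.Agent.TSM

namespace CYC_

variable {V : Type}

/-- Membership in `conseq` by indices. -/
lemma mem_conseq (l : List V) (x y : V) : (x, y) ∈ conseq l ↔
    ∃ (k : ℕ) (h : k + 1 < l.length), x = l[k] ∧ y = l[k + 1] := by
  induction l with
  | nil => simp [conseq]
  | cons a l ih =>
    cases l with
    | nil => simp [conseq]
    | cons b l =>
      rw [conseq, List.mem_cons, ih]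
      constructor
      · rintro (h | ⟨k, hk, h1, h2⟩)
        · refine ⟨0, by simp, ?_, ?_⟩
          · simpa using (Prod.mk.inj h).1
          · simpa using (Prod.mk.inj h).2
        · exact ⟨k + 1, by simpa using hk, by simpa using h1, by simpa using h2⟩
      · rintro ⟨k, hk, h1, h2⟩
        cases k with
        | zero => left; rw [h1, h2]; simp
        | succ k =>
          right
          exact ⟨k, by simpa using hk, by simpa using h1, by simpa using h2⟩

/-- Membership in `cyc` by indices. -/
lemma mem_cyc (l : List V) (x y : V) : (x, y) ∈ cyc l ↔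
    ∃ (k : ℕ) (h : k < l.length), x = l[k] ∧
      y = l[(k + 1) % l.length]'(Nat.mod_lt _ (by omega)) := by
  cases l with
  | nil => simp [cyc]
  | cons a l =>
    rw [cyc, mem_conseq]
    constructor
    · rintro ⟨k, hk, h1, h2⟩
      have hk' : k < (a :: l).length := by
        simp only [List.length_append, List.length_cons, List.length_nil] at hk ⊢
        omega
      refine ⟨k, hk', ?_, ?_⟩
      · rw [h1, List.getElem_append_left hk']
      · rw [h2]
        rcases Nat.lt_or_ge (k + 1) (a :: l).length with h | h
        · rw [List.getElem_append_left h]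
          simp only [Nat.mod_eq_of_lt h]
        · have he : k + 1 = (a :: l).length := by omega
          rw [List.getElem_append_right h]
          simp [he]
    · rintro ⟨k, hk, h1, h2⟩
      have hk2 : k + 1 < (a :: l ++ [a]).length := by
        simp only [List.length_append, List.length_cons, List.length_nil] at hk ⊢
        omega
      refine ⟨k, hk2, ?_, ?_⟩
      · rw [h1, List.getElem_append_left hk]
      · rw [h2]
        rcases Nat.lt_or_ge (k + 1) (a :: l).length with h | h
        · rw [List.getElem_append_left h]
          simp only [Nat.mod_eq_of_lt h]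
        · have he : k + 1 = (a :: l).length := by omega
          rw [List.getElem_append_right h]
          simp [he]

lemma cast_inj {n a b : ℕ} (ha : a < n) (hb : b < n) (h : (a : ZMod n) = (b : ZMod n)) :
    a = b := by
  rw [ZMod.natCast_eq_natCast_iff'] at h
  rwa [Nat.mod_eq_of_lt ha, Nat.mod_eq_of_lt hb] at h

end CYC_

open CYC_

theorem cyc_proof : Stmt_Cyc := by
  intro V _ T v
  constructor
  · rintro ⟨n, c, hn, hinj, hv, hT⟩
    haveI : NeZero n := ⟨by omega⟩
    refine ⟨List.ofFn (fun i : Fin n => c ((i : ℕ) : ZMod n)), ?_, ?_, ?_, ?_⟩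
    · simpa using hn
    · rw [List.nodup_ofFn]
      intro i j hij
      have := hinj hij
      exact Fin.ext (cast_inj i.2 j.2 this)
    · intro h
      rw [List.mem_ofFn] at h
      obtain ⟨i, hi⟩ := h
      exact hv _ hi
    · intro t
      rw [hT]
      have hlen : (List.ofFn (fun i : Fin n => c ((i : ℕ) : ZMod n))).length = n := by simp
      constructor
      · rintro ⟨i, rfl⟩
        refine ⟨c i, c (i + 1), ?_, rfl⟩
        rw [mem_cyc]
        refine ⟨i.val, by rw [hlen]; exact ZMod.val_lt i, ?_, ?_⟩
        · simp
        · rw [List.getElem_ofFn]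
          simp only [List.length_ofFn]
          rw [ZMod.natCast_mod, Nat.cast_add, ZMod.natCast_zmod_val, Nat.cast_one]
      · rintro ⟨x, y, hxy, rfl⟩
        rw [mem_cyc] at hxy
        obtain ⟨k, hk, rfl, rfl⟩ := hxy
        refine ⟨(k : ZMod n), ?_⟩
        simp only [List.getElem_ofFn, List.length_ofFn]
        rw [ZMod.natCast_mod, Nat.cast_add, Nat.cast_one]
  · rintro ⟨l, hn, hnd, hv, hT⟩
    have hpos : 0 < l.length := by omega
    haveI : NeZero l.length := ⟨by omega⟩
    refine ⟨l.length, fun i => l[i.val]'(ZMod.val_lt i), hn, ?_, ?_, ?_⟩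
    · intro i j hij
      have := (List.Nodup.getElem_inj_iff hnd).1 hij
      exact ZMod.val_injective _ this
    · intro i h
      apply hv
      rw [← h]
      exact List.getElem_mem _
    · intro t
      rw [hT]
      have hval : ∀ i : ZMod l.length, (i + 1).val = (i.val + 1) % l.length := by
        intro i
        have h1 : ((i.val + 1 : ℕ) : ZMod l.length) = i + 1 := by
          rw [Nat.cast_add, ZMod.natCast_zmod_val, Nat.cast_one]
        rw [← h1, ZMod.val_natCast]
      constructor
      · rintro ⟨x, y, hxy, rfl⟩
        rw [mem_cyc] at hxy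
        obtain ⟨k, hk, rfl, rfl⟩ := hxy
        refine ⟨(k : ZMod l.length), ?_⟩
        have hk1 : ((k : ZMod l.length)).val = k := by
          rw [ZMod.val_natCast, Nat.mod_eq_of_lt hk]
        simp only [hval, hk1]
      · rintro ⟨i, rfl⟩
        refine ⟨_, _, ?_, rfl⟩
        rw [mem_cyc]
        refine ⟨i.val, ZMod.val_lt i, rfl, ?_⟩
        simp only [hval]

end Pool.Agent.TSP
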