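import Pool.Agent.TSP.P3Stmts

/-!
# EXH: the exchange homeomorphism
-/

set_option autoImplicit false

namespace Pool.Agent.TSP

open Pool.Agent.TSM

namespace EXH_

variable {V : Type} [Fintype V] [DecidableEq V]

/-- the amount which is exchanged -/
noncomputable def tau (P : Finset V) (hP : P.Nonempty) (c : V → ℝ) (x : V → ℝ) : ℝ :=
  P.inf' hP (fun i => x i / c i)

/-- the exchange map -/
noncomputable def F (P N : Finset V) (hP : P.Nonempty) (c : V → ℝ) (x : V → ℝ) (u : V) : ℝ :=
  x u - tau P hP c x * ((if u ∈ P then c u else 0) - (if u ∈ N then c u else 0))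

theorem continuous_F (P N : Finset V) (hP : P.Nonempty) (c : V → ℝ) :
    Continuous (F P N hP c) := by
  have h1 : Continuous (tau P hP c) := by
    unfold tau
    refine Continuous.finset_inf'_apply hP fun i _ => ?_
    exact (continuous_apply i).div_const _
  refine continuous_pi fun u => ?_
  unfold F
  exact (continuous_apply u).sub (h1.mul continuous_const)

theorem tau_le {P : Finset V} (hP : P.Nonempty) {c : V → ℝ} (hc : ∀ i ∈ P, 0 < c i)
    (x : V → ℝ) {i : V} (hi : i ∈ P) : tau P hP c x * c i ≤ x i := by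
  have h1 : tau P hP c x ≤ x i / c i := Finset.inf'_le _ hi
  rw [le_div_iff₀ (hc i hi)] at h1
  exact h1

theorem tau_nonneg {P : Finset V} (hP : P.Nonempty) {c : V → ℝ} (hc : ∀ i ∈ P, 0 < c i)
    {x : V → ℝ} (hx : ∀ v, 0 ≤ x v) : 0 ≤ tau P hP c x :=
  Finset.le_inf' _ _ fun i hi => div_nonneg (hx i) (hc i hi).le

theorem F_mem {T T' : Finset (Finset V)} {P N : Finset V} {c : V → ℝ} (hP : P.Nonempty)
    (hd : Disjoint P N) (hcP : ∀ i ∈ P, 0 < c i) (hcN : ∀ j ∈ N, 0 < c j)
    (hs : ∑ i ∈ P, c i = ∑ j ∈ N, c j)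
    (h1 : ∀ t ∈ T, P ⊆ t → ∀ i ∈ P, ∃ t' ∈ T', (t ∪ N).erase i ⊆ t')
    (h2 : ∀ t ∈ T, ¬ P ⊆ t → ∃ t' ∈ T', t ⊆ t') {x : V → ℝ} (hx : x ∈ bodyOf T) :
    F P N hP c x ∈ bodyOf T' := by
  obtain ⟨x0, x1, t, ht, hxt⟩ := hx
  have ht0 := tau_nonneg hP hcP x0
  refine ⟨?_, ?_, ?_⟩
  · intro u
    unfold F
    by_cases hu : u ∈ P
    · have hu' : u ∉ N := Finset.disjoint_left.1 hd hu
      rw [if_pos hu, if_neg hu', sub_zero]
      linarith [tau_le hP hcP x hu]
    · rw [if_neg hu]
      by_cases hu' : u ∈ N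
      · rw [if_pos hu']
        have := mul_nonneg ht0 (hcN u hu').le
        have := x0 u
        linarith
      · rw [if_neg hu', sub_zero, mul_zero, sub_zero]
        exact x0 u
  · unfold F
    rw [Finset.sum_sub_distrib, x1, ← Finset.mul_sum, Finset.sum_sub_distrib,
      Finset.sum_ite_mem, Finset.sum_ite_mem, Finset.univ_inter, Finset.univ_inter, hs, sub_self,
      mul_zero, sub_zero]
  · by_cases hPt : P ⊆ t
    · obtain ⟨i, hi, hi'⟩ := Finset.exists_mem_eq_inf' hP (fun i => x i / c i)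
      obtain ⟨t', ht', hsub⟩ := h1 t ht hPt i hi
      refine ⟨t', ht', fun v hv => ?_⟩
      have hv' : v ∉ (t ∪ N).erase i := fun h => hv (hsub h)
      by_cases hvi : v = i
      · subst hvi
        have hu' : v ∉ N := Finset.disjoint_left.1 hd hi
        unfold F tau
        rw [if_pos hi, if_neg hu', sub_zero, hi', div_mul_cancel₀ _ (hcP v hi).ne', sub_self]
      · have hv'' : v ∉ t ∪ N := fun h => hv' (Finset.mem_erase.2 ⟨hvi, h⟩)
        rw [Finset.mem_union] at hv''
        push Not at hv''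
        have hvP : v ∉ P := fun h => hv''.1 (hPt h)
        unfold F
        rw [if_neg hvP, if_neg hv''.2, sub_zero, mul_zero, sub_zero]
        exact hxt v hv''.1
    · obtain ⟨t', ht', hsub⟩ := h2 t ht hPt
      refine ⟨t', ht', fun v hv => ?_⟩
      obtain ⟨i, hi, hit⟩ := Finset.not_subset.1 hPt
      have e1 : tau P hP c x = 0 := by
        apply le_antisymm _ ht0
        have : tau P hP c x ≤ x i / c i := Finset.inf'_le _ hi
        rw [hxt i hit, zero_div] at this
        exact this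
      unfold F
      rw [e1, zero_mul, sub_zero]
      exact hxt v (fun h => hv (hsub h))

theorem G_F {T : Finset (Finset V)} {P N : Finset V} {c : V → ℝ} (hP : P.Nonempty)
    (hN : N.Nonempty) (hd : Disjoint P N) (hcN : ∀ j ∈ N, 0 < c j)
    (hNt : ∀ t ∈ T, ¬ N ⊆ t) {x : V → ℝ} (hx : x ∈ bodyOf T) :
    F N P hN c (F P N hP c x) = x := by
  obtain ⟨x0, x1, t, ht, hxt⟩ := hx
  have e1 : tau N hN c (F P N hP c x) = tau P hP c x := by
    have e2 : ∀ j ∈ N, F P N hP c x j / c j = x j / c j + tau P hP c x := by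
      intro j hj
      have hj' : j ∉ P := fun h => Finset.disjoint_left.1 hd h hj
      unfold F
      rw [if_neg hj', if_pos hj]
      have := (hcN j hj).ne'
      field_simp
      ring
    apply le_antisymm
    · obtain ⟨j, hj, hjt⟩ := Finset.not_subset.1 (hNt t ht)
      have h3 : tau N hN c (F P N hP c x) ≤ F P N hP c x j / c j := Finset.inf'_le _ hj
      rw [e2 j hj, hxt j hjt, zero_div, zero_add] at h3
      exact h3
    · refine Finset.le_inf' _ _ fun j hj => ?_
      rw [e2 j hj]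
      have := div_nonneg (x0 j) (hcN j hj).le
      linarith
  funext u
  show F P N hP c x u - tau N hN c (F P N hP c x) *
    ((if u ∈ N then c u else 0) - (if u ∈ P then c u else 0)) = x u
  rw [e1]
  unfold F
  ring

end EXH_

theorem exh_proof : Stmt_Exh := by
  intro V _ _ T T' P N c hP hN hd hcP hcN hs hNt hPt h1 h2 h3 h4
  refine ⟨
    { toFun := fun x => ⟨EXH_.F P N hP c x.1, EXH_.F_mem hP hd hcP hcN hs h1 h2 x.2⟩
      invFun := fun y => ⟨EXH_.F N P hN c y.1, EXH_.F_mem hN hd.symm hcN hcP hs.symm h3 h4 y.2⟩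
      left_inv := fun x => Subtype.ext (EXH_.G_F hP hN hd hcN hNt x.2)
      right_inv := fun y => Subtype.ext (EXH_.G_F hN hP hd.symm hcP hPt y.2)
      continuous_toFun := ((EXH_.continuous_F P N hP c).comp continuous_subtype_val).subtype_mk _
      continuous_invFun :=
        ((EXH_.continuous_F N P hN c).comp continuous_subtype_val).subtype_mk _ }, ?_⟩
  intro x
  refine ⟨EXH_.tau P hP c x.1, EXH_.tau_nonneg hP hcP x.2.1,
    fun i hi => EXH_.tau_le hP hcP x.1 hi, fun u => rfl⟩

end Pool.Agent.TSP
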