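import Pool.Agent.TSP.P3Stmts

/-!
# TSP, FLP: the flip of an edge (MP_89ee87_gt)
-/

set_option autoImplicit false

open scoped RealInnerProductSpace

namespace Pool.Agent.TSP

open Pool.Agent.TSM

namespace FLP_

variable {V : Type} [DecidableEq V]

theorem mem_flip {T : Finset (Finset V)} {A B C D : V} {t : Finset V} :
    t ∈ flipT T A B C D ↔
      (t ∈ T ∧ t ≠ {A, B, C} ∧ t ≠ {A, C, D}) ∨ t = {A, B, D} ∨ t = {B, C, D} := by
  unfold flipT
  simp only [Finset.mem_union, Finset.mem_sdiff, Finset.mem_insert, Finset.mem_singleton, not_or,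
    ne_eq]

theorem mem_arcs {T : Finset (Finset V)} {v : V} {s : Finset V} :
    s ∈ arcs T v ↔ ∃ t ∈ T, v ∈ t ∧ t.erase v = s := by
  unfold arcs
  simp only [Finset.mem_image, Finset.mem_filter, and_assoc]

theorem arc_mem {T : Finset (Finset V)} {v x y : V} (hx : v ≠ x) (hy : v ≠ y)
    (h : {v, x, y} ∈ T) : {x, y} ∈ arcs T v := by
  refine mem_arcs.2 ⟨_, h, by simp, ?_⟩
  ext w
  simp only [Finset.mem_erase, Finset.mem_insert, Finset.mem_singleton]
  constructor
  · rintro ⟨h1, h2 | h2 | h2⟩
    · exact absurd h2 h1
    · exact Or.inl h2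
    · exact Or.inr h2
  · rintro (h2 | h2)
    · exact ⟨fun h3 => hx (h3.symm.trans h2), Or.inr (Or.inl h2)⟩
    · exact ⟨fun h3 => hy (h3.symm.trans h2), Or.inr (Or.inr h2)⟩

end FLP_

open FLP_ in
theorem flp_proof (h1 : Stmt_Lsa) (h2 : Stmt_Lsb) (h3 : Stmt_Csd) (h4 : Stmt_Crn)
    (h5 : Stmt_Exh) : Stmt_Flp := by
  intro V _ _ T p A B C D r la lb lc ld hF hE hl ha hb hc hd hac hbd heq
  -- distinctness
  obtain ⟨_, hnd, hAn, _⟩ := id hl
  have hAB : A ≠ B := fun h => hAn (by rw [h]; simp)
  have hAC : A ≠ C := fun h => hAn (by rw [h]; simp)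
  have hAD : A ≠ D := fun h => hAn (by rw [h]; simp)
  have hBC : B ≠ C := by
    rw [List.nodup_cons] at hnd
    exact fun h => hnd.1 (by rw [h]; simp)
  have hBD : B ≠ D := by
    rw [List.nodup_cons] at hnd
    exact fun h => hnd.1 (by rw [h]; simp)
  have hCD : C ≠ D := by
    rw [List.nodup_cons, List.nodup_cons] at hnd
    exact fun h => hnd.2.1 (by rw [h]; simp)
  obtain ⟨hA1, hA2, hA3, hA4, hA5, hA6, hA7, hA8⟩ := h1 V T A _ hl
  obtain ⟨ht1, ht2, htt⟩ := hA6 _ _ _ _ hl
  -- sets
  have sBAC : ({B, A, C} : Finset V) = {A, B, C} := by ext w; simp; tauto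
  have sCBA : ({C, B, A} : Finset V) = {A, B, C} := by ext w; simp; tauto
  have sCAD : ({C, A, D} : Finset V) = {A, C, D} := by ext w; simp; tauto
  have sDAC : ({D, A, C} : Finset V) = {A, C, D} := by ext w; simp; tauto
  have sBAD : ({B, A, D} : Finset V) = {A, B, D} := by ext w; simp; tauto
  have sBDC : ({B, D, C} : Finset V) = {B, C, D} := by ext w; simp; tauto
  have sCBD : ({C, B, D} : Finset V) = {B, C, D} := by ext w; simp; tauto
  have sDAB : ({D, A, B} : Finset V) = {A, B, D} := by ext w; simp; tauto
  have sDBC : ({D, B, C} : Finset V) = {B, C, D} := by ext w; simp; tauto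
  -- vector identities
  have hBd : p D - p B = (la / ld) • (p A - p B) + (lc / ld) • (p C - p B) := by
    have e : ld • (p D - p B) = la • (p A - p B) + lc • (p C - p B) := by
      have e1 : ld • p D = la • p A + lc • p C - lb • p B := by rw [heq]; abel
      rw [smul_sub, smul_sub, smul_sub, e1]
      have e2 : la • p B + lc • p B = lb • p B + ld • p B := by
        rw [← add_smul, ← add_smul, hac, hbd]
      have e3 : la • p B = lb • p B + ld • p B - lc • p B := by rw [← e2]; abel
      rw [e3]
      abel
    have e4 : (la / ld) • (p A - p B) + (lc / ld) • (p C - p B) =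
        ld⁻¹ • (la • (p A - p B) + lc • (p C - p B)) := by
      rw [smul_add, smul_smul, smul_smul, div_eq_inv_mul, div_eq_inv_mul]
    rw [e4, ← e, smul_smul, inv_mul_cancel₀ hd.ne', one_smul]
  have hDb : p B - p D = (la / lb) • (p A - p D) + (lc / lb) • (p C - p D) := by
    have e : lb • (p B - p D) = la • (p A - p D) + lc • (p C - p D) := by
      have e1 : lb • p B = la • p A + lc • p C - ld • p D := by rw [heq]; abel
      rw [smul_sub, smul_sub, smul_sub, e1]
      have e2 : la • p D + lc • p D = lb • p D + ld • p D := by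
        rw [← add_smul, ← add_smul, hac, hbd]
      have e3 : la • p D = lb • p D + ld • p D - lc • p D := by rw [← e2]; abel
      rw [e3]
      abel
    have e4 : (la / lb) • (p A - p D) + (lc / lb) • (p C - p D) =
        lb⁻¹ • (la • (p A - p D) + lc • (p C - p D)) := by
      rw [smul_add, smul_smul, smul_smul, div_eq_inv_mul, div_eq_inv_mul]
    rw [e4, ← e, smul_smul, inv_mul_cancel₀ hb.ne', one_smul]
  have hAc : p C - p A = (lb / lc) • (p B - p A) + (ld / lc) • (p D - p A) := by
    have e : lc • (p C - p A) = lb • (p B - p A) + ld • (p D - p A) := by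
      have e1 : lc • p C = lb • p B + ld • p D - la • p A := by rw [← heq]; abel
      rw [smul_sub, smul_sub, smul_sub, e1]
      have e2 : la • p A + lc • p A = lb • p A + ld • p A := by
        rw [← add_smul, ← add_smul, hac, hbd]
      have e3 : la • p A = lb • p A + ld • p A - lc • p A := by rw [← e2]; abel
      rw [e3]
      abel
    have e4 : (lb / lc) • (p B - p A) + (ld / lc) • (p D - p A) =
        lc⁻¹ • (lb • (p B - p A) + ld • (p D - p A)) := by
      rw [smul_add, smul_smul, smul_smul, div_eq_inv_mul, div_eq_inv_mul]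
    rw [e4, ← e, smul_smul, inv_mul_cancel₀ hc.ne', one_smul]
  have hCa : p A - p C = (lb / la) • (p B - p C) + (ld / la) • (p D - p C) := by
    have e : la • (p A - p C) = lb • (p B - p C) + ld • (p D - p C) := by
      have e1 : la • p A = lb • p B + ld • p D - lc • p C := by rw [← heq]; abel
      rw [smul_sub, smul_sub, smul_sub, e1]
      have e2 : la • p C + lc • p C = lb • p C + ld • p C := by
        rw [← add_smul, ← add_smul, hac, hbd]
      have e3 : la • p C = lb • p C + ld • p C - lc • p C := by rw [← e2]; abel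
      rw [e3]
      abel
    have e4 : (lb / la) • (p B - p C) + (ld / la) • (p D - p C) =
        la⁻¹ • (lb • (p B - p C) + ld • (p D - p C)) := by
      rw [smul_add, smul_smul, smul_smul, div_eq_inv_mul, div_eq_inv_mul]
    rw [e4, ← e, smul_smul, inv_mul_cancel₀ ha.ne', one_smul]
  -- (i) no triangle contains `B` and `D`
  have harcB : {A, C} ∈ arcs T B := arc_mem hAB.symm hBC (by rw [sBAC]; exact ht1)
  have hno : ∀ t ∈ T, B ∈ t → D ∉ t := by
    intro t ht hBt hDt
    have := (h4 V (arcs T B) (fun u => p u - p B) (hE B)).2.1 A C D (la / ld) (lc / ld) harcB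
      (by positivity) (by positivity) hBd hAD.symm hCD.symm (t.erase B)
      (mem_arcs.2 ⟨t, ht, hBt, rfl⟩)
    exact this (Finset.mem_erase.2 ⟨hBD.symm, hDt⟩)
  -- (ii) the rests of the links are not empty
  have hrest : ∀ (u x m y : V) (r' : List V), IsLink T u (x :: m :: y :: r') →
      ({x, y} : Finset V) = {B, D} → r' ≠ [] := by
    intro u x m y r' hu hxy hr
    subst hr
    have h6 : {u, y, x} ∈ T := by
      have := (hu.2.2.2 {u, y, x}).2 ⟨y, x, by simp [cyc, conseq], rfl⟩
      exact this.1
    have hx : x ∈ ({B, D} : Finset V) := by rw [← hxy]; simp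
    have hy : y ∈ ({B, D} : Finset V) := by rw [← hxy]; simp
    have hB : B ∈ ({x, y} : Finset V) := by rw [hxy]; simp
    have hD : D ∈ ({x, y} : Finset V) := by rw [hxy]; simp
    refine hno _ h6 ?_ ?_
    · simp only [Finset.mem_insert, Finset.mem_singleton] at hB ⊢
      tauto
    · simp only [Finset.mem_insert, Finset.mem_singleton] at hD ⊢
      tauto
  -- membership
  have nA : ∀ t : Finset V, A ∈ t → t ≠ {B, C, D} := by
    rintro t ht rfl
    simp only [Finset.mem_insert, Finset.mem_singleton] at ht
    tauto
  have nC : ∀ t : Finset V, C ∈ t → t ≠ {A, B, D} := by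
    rintro t ht rfl
    simp only [Finset.mem_insert, Finset.mem_singleton] at ht
    rcases ht with h | h | h
    · exact hAC h.symm
    · exact hBC h.symm
    · exact hCD h
  have nB : ∀ t : Finset V, B ∈ t → t ≠ {A, C, D} := by
    rintro t ht rfl
    simp only [Finset.mem_insert, Finset.mem_singleton] at ht
    rcases ht with h | h | h
    · exact hAB h.symm
    · exact hBC h
    · exact hBD h
  have nD : ∀ t : Finset V, D ∈ t → t ≠ {A, B, C} := by
    rintro t ht rfl
    simp only [Finset.mem_insert, Finset.mem_singleton] at ht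
    rcases ht with h | h | h
    · exact hAD h.symm
    · exact hBD h.symm
    · exact hCD h.symm
  -- local changes
  have locA : Local T (flipT T A B C D) {{A, B, C}, {A, C, D}} {{A, B, D}} A := by
    intro t ht
    have h := nA t ht
    rw [mem_flip]
    simp only [Finset.mem_insert, Finset.mem_singleton]
    tauto
  have locC : Local T (flipT T A B C D) {{C, B, A}, {C, A, D}} {{C, B, D}} C := by
    intro t ht
    have h := nC t ht
    rw [mem_flip]
    simp only [Finset.mem_insert, Finset.mem_singleton, sCBA, sCAD, sCBD]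
    tauto
  have locB : Local T (flipT T A B C D) {{B, A, C}} {{B, A, D}, {B, D, C}} B := by
    intro t ht
    have h := nB t ht
    rw [mem_flip]
    simp only [Finset.mem_insert, Finset.mem_singleton, sBAC, sBAD, sBDC]
    tauto
  have locD : Local T (flipT T A B C D) {{D, A, C}} {{D, A, B}, {D, B, C}} D := by
    intro t ht
    have h := nD t ht
    rw [mem_flip]
    simp only [Finset.mem_insert, Finset.mem_singleton, sDAC, sDAB, sDBC]
    tauto
  have locO : ∀ v, v ≠ A → v ≠ B → v ≠ C → v ≠ D → Local T (flipT T A B C D) ∅ ∅ v := by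
    intro v v1 v2 v3 v4 t ht
    rw [mem_flip]
    have k1 : t ≠ {A, B, C} := by
      rintro rfl
      simp only [Finset.mem_insert, Finset.mem_singleton] at ht
      tauto
    have k2 : t ≠ {A, C, D} := by
      rintro rfl
      simp only [Finset.mem_insert, Finset.mem_singleton] at ht
      tauto
    have k3 : t ≠ {A, B, D} := by
      rintro rfl
      simp only [Finset.mem_insert, Finset.mem_singleton] at ht
      tauto
    have k4 : t ≠ {B, C, D} := by
      rintro rfl
      simp only [Finset.mem_insert, Finset.mem_singleton] at ht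
      tauto
    simp only [Finset.notMem_empty, or_false, not_false_eq_true, and_true]
    tauto
  -- the links
  obtain ⟨lC, hlC0⟩ := hF.link C ⟨_, ht1, by simp⟩
  obtain ⟨rC, hlC, _⟩ := (h1 V T C lC hlC0).2.2.2.2.1 B A D hBD hAB.symm hAD hBC.symm hAC.symm hCD
    (by rw [sCBA]; exact ht1) (by rw [sCAD]; exact ht2)
  obtain ⟨lB, hlB0⟩ := hF.link B ⟨_, ht1, by simp⟩
  obtain ⟨rB, hlB, _⟩ := (h1 V T B lB hlB0).2.2.2.1 A C hAC hAB.symm hBC (by rw [sBAC]; exact ht1)
  obtain ⟨lD, hlD0⟩ := hF.link D ⟨_, ht2, by simp⟩
  obtain ⟨rD, hlD, _⟩ := (h1 V T D lD hlD0).2.2.2.1 A C hAC hAD.symm hCD.symm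
    (by rw [sDAC]; exact ht2)
  have hDB : D ∉ A :: C :: rB := by
    intro h
    obtain ⟨_, t, ht, hBt, hDt⟩ := ((h1 V T B _ hlB).2.2.1 D).1 h
    exact hno t ht hBt hDt
  have hBDn : B ∉ A :: C :: rD := by
    intro h
    obtain ⟨_, t, ht, hDt, hBt⟩ := ((h1 V T D _ hlD).2.2.1 B).1 h
    exact hno t ht hBt hDt
  obtain ⟨LA, AA, AA1, AA2⟩ := (h2 V T (flipT T A B C D) A).2.1 B C D r hl
    (hrest _ _ _ _ _ hl rfl) locA
  obtain ⟨LC, AC, AC1, AC2⟩ := (h2 V T (flipT T A B C D) C).2.1 B A D rC hlC
    (hrest _ _ _ _ _ hlC rfl) locC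
  obtain ⟨LB, AB, AB1, AB2⟩ := (h2 V T (flipT T A B C D) B).2.2.1 A D C rB hlB hDB hBD.symm locB
  obtain ⟨LD, AD, AD1, AD2⟩ := (h2 V T (flipT T A B C D) D).2.2.1 A B C rD hlD hBDn hBD locD
  -- the used vertices
  have hused : ∀ v, Used (flipT T A B C D) v ↔ Used T v := by
    intro v
    constructor
    · rintro ⟨t, ht, hv⟩
      rw [mem_flip] at ht
      rcases ht with ⟨ht, _⟩ | rfl | rfl
      · exact ⟨t, ht, hv⟩
      · simp only [Finset.mem_insert, Finset.mem_singleton] at hv
        rcases hv with rfl | rfl | rfl
        · exact ⟨_, ht1, by simp⟩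
        · exact ⟨_, ht1, by simp⟩
        · exact ⟨_, ht2, by simp⟩
      · simp only [Finset.mem_insert, Finset.mem_singleton] at hv
        rcases hv with rfl | rfl | rfl
        · exact ⟨_, ht1, by simp⟩
        · exact ⟨_, ht1, by simp⟩
        · exact ⟨_, ht2, by simp⟩
    · rintro ⟨t, ht, hv⟩
      by_cases k1 : t = {A, B, C}
      · subst k1
        simp only [Finset.mem_insert, Finset.mem_singleton] at hv
        rcases hv with rfl | rfl | rfl
        · exact ⟨{v, B, D}, mem_flip.2 (Or.inr (Or.inl rfl)), by simp⟩
        · exact ⟨{A, v, D}, mem_flip.2 (Or.inr (Or.inl rfl)), by simp⟩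
        · exact ⟨{B, v, D}, mem_flip.2 (Or.inr (Or.inr rfl)), by simp⟩
      · by_cases k2 : t = {A, C, D}
        · subst k2
          simp only [Finset.mem_insert, Finset.mem_singleton] at hv
          rcases hv with rfl | rfl | rfl
          · exact ⟨{v, B, D}, mem_flip.2 (Or.inr (Or.inl rfl)), by simp⟩
          · exact ⟨{B, v, D}, mem_flip.2 (Or.inr (Or.inr rfl)), by simp⟩
          · exact ⟨{A, B, v}, mem_flip.2 (Or.inr (Or.inl rfl)), by simp⟩
        · exact ⟨t, mem_flip.2 (Or.inl ⟨ht, k1, k2⟩), hv⟩
  -- arcs at the other vertices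
  have harcO : ∀ v, v ≠ A → v ≠ B → v ≠ C → v ≠ D →
      arcs (flipT T A B C D) v = arcs T v := by
    intro v v1 v2 v3 v4
    have hloc := locO v v1 v2 v3 v4
    ext s
    rw [mem_arcs, mem_arcs]
    constructor
    · rintro ⟨t, ht, hv, hs⟩
      have := (hloc t hv).1 ht
      simp only [Finset.notMem_empty, or_false, not_false_eq_true, and_true] at this
      exact ⟨t, this, hv, hs⟩
    · rintro ⟨t, ht, hv, hs⟩
      refine ⟨t, (hloc t hv).2 ?_, hv, hs⟩
      simp only [Finset.notMem_empty, or_false, not_false_eq_true, and_true]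
      exact ht
  refine ⟨⟨?_, ?_⟩, ?_, hused, LA, ?_⟩
  · -- card
    intro t ht
    rw [mem_flip] at ht
    rcases ht with ⟨ht, _⟩ | rfl | rfl
    · exact hF.card3 t ht
    · exact Finset.card_eq_three.2 ⟨A, B, D, hAB, hAD, hBD, rfl⟩
    · exact Finset.card_eq_three.2 ⟨B, C, D, hBC, hBD, hCD, rfl⟩
  · -- links
    intro v hv
    by_cases v1 : v = A
    · exact ⟨_, by rw [v1]; exact LA⟩
    by_cases v2 : v = B
    · exact ⟨_, by rw [v2]; exact LB⟩
    by_cases v3 : v = C
    · exact ⟨_, by rw [v3]; exact LC⟩
    by_cases v4 : v = D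
    · exact ⟨_, by rw [v4]; exact LD⟩
    obtain ⟨l, hlv⟩ := hF.link v ((hused v).1 hv)
    exact ⟨l, ((h2 V T (flipT T A B C D) v).1 l hlv (locO v v1 v2 v3 v4)).1⟩
  · -- embeddedness
    intro v
    by_cases v1 : v = A
    · subst v1
      rw [h3 V (arcs (flipT T v B C D) v) (fun u => p u - p v) B D C (lb / lc) (ld / lc) hBD
        (fun s hs => ((h1 V _ v _ LA).2.2.2.2.2.2.2 s hs).1) AA1 AA2 (by positivity) (by positivity)
        hAc, ← AA]
      exact hE v
    by_cases v2 : v = B
    · subst v2
      rw [AB, ← h3 V (arcs T v) (fun u => p u - p v) A C D (la / ld) (lc / ld) hAC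
        (fun s hs => ((h1 V _ v _ hlB).2.2.2.2.2.2.2 s hs).1) AB1 AB2 (by positivity)
        (by positivity) hBd]
      exact hE v
    by_cases v3 : v = C
    · subst v3
      rw [h3 V (arcs (flipT T A B v D) v) (fun u => p u - p v) B D A (lb / la) (ld / la) hBD
        (fun s hs => ((h1 V _ v _ LC).2.2.2.2.2.2.2 s hs).1) AC1 AC2 (by positivity) (by positivity)
        hCa, ← AC]
      exact hE v
    by_cases v4 : v = D
    · subst v4
      rw [AD, ← h3 V (arcs T v) (fun u => p u - p v) A C B (la / lb) (lc / lb) hAC
        (fun s hs => ((h1 V _ v _ hlD).2.2.2.2.2.2.2 s hs).1) AD1 AD2 (by positivity)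
        (by positivity) hDb]
      exact hE v
    rw [harcO v v1 v2 v3 v4]
    exact hE v
  · -- homeomorphism
    obtain ⟨c, cA, cC, cB, cD⟩ : ∃ c : V → ℝ, c A = la ∧ c C = lc ∧ c B = lb ∧ c D = ld := by
      refine ⟨fun u => if u = A then la else if u = C then lc else if u = B then lb else ld,
        ?_, ?_, ?_, ?_⟩
      · simp
      · simp [hAC.symm]
      · simp [hAB.symm, hBC]
      · simp [hAD.symm, hBD.symm, hCD.symm]
    have sP : ∀ f : V → E3, ∑ u ∈ ({A, C} : Finset V), f u = f A + f C := fun f =>
      Finset.sum_pair hAC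
    have sN : ∀ f : V → E3, ∑ u ∈ ({B, D} : Finset V), f u = f B + f D := fun f =>
      Finset.sum_pair hBD
    obtain ⟨h, hh⟩ := h5 V T (flipT T A B C D) {A, C} {B, D} c ⟨A, by simp⟩ ⟨B, by simp⟩
      (by
        rw [Finset.disjoint_left]
        intro u hu hu'
        simp only [Finset.mem_insert, Finset.mem_singleton] at hu hu'
        rcases hu with rfl | rfl
        · rcases hu' with h | h
          · exact hAB h
          · exact hAD h
        · rcases hu' with h | h
          · exact hBC h.symm
          · exact hCD h)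
      (by
        intro i hi
        simp only [Finset.mem_insert, Finset.mem_singleton] at hi
        rcases hi with rfl | rfl
        · rw [cA]; exact ha
        · rw [cC]; exact hc)
      (by
        intro i hi
        simp only [Finset.mem_insert, Finset.mem_singleton] at hi
        rcases hi with rfl | rfl
        · rw [cB]; exact hb
        · rw [cD]; exact hd)
      (by rw [Finset.sum_pair hAC, Finset.sum_pair hBD, cA, cB, cC, cD, hac, hbd])
      (by
        intro t ht hN
        exact hno t ht (hN (by simp)) (hN (by simp)))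
      (by
        intro t ht hP
        have hAt : A ∈ t := hP (by simp)
        have hCt : C ∈ t := hP (by simp)
        rw [mem_flip] at ht
        rcases ht with ⟨ht, k1, k2⟩ | ht | ht
        · rcases htt t ht hAt hCt with h | h
          · exact k1 h
          · exact k2 h
        · exact nC t hCt ht
        · exact nA t hAt ht)
      (by
        intro t ht hP i hi
        have hAt : A ∈ t := hP (by simp)
        have hCt : C ∈ t := hP (by simp)
        have hsub : t ∪ {B, D} ⊆ {A, B, C, D} := by
          rcases htt t ht hAt hCt with rfl | rfl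
          · intro w
            simp only [Finset.mem_union, Finset.mem_insert, Finset.mem_singleton]
            tauto
          · intro w
            simp only [Finset.mem_union, Finset.mem_insert, Finset.mem_singleton]
            tauto
        simp only [Finset.mem_insert, Finset.mem_singleton] at hi
        rcases hi with rfl | rfl
        · refine ⟨{B, C, D}, mem_flip.2 (Or.inr (Or.inr rfl)), ?_⟩
          intro w hw
          rw [Finset.mem_erase] at hw
          have := hsub hw.2
          simp only [Finset.mem_insert, Finset.mem_singleton] at this ⊢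
          tauto
        · refine ⟨{A, B, D}, mem_flip.2 (Or.inr (Or.inl rfl)), ?_⟩
          intro w hw
          rw [Finset.mem_erase] at hw
          have := hsub hw.2
          simp only [Finset.mem_insert, Finset.mem_singleton] at this ⊢
          tauto)
      (by
        intro t ht hP
        refine ⟨t, mem_flip.2 (Or.inl ⟨ht, ?_, ?_⟩), Finset.Subset.refl _⟩
        · rintro rfl
          apply hP
          intro w
          simp only [Finset.mem_insert, Finset.mem_singleton]
          tauto
        · rintro rfl
          apply hP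
          intro w
          simp only [Finset.mem_insert, Finset.mem_singleton]
          tauto)
      (by
        intro t ht hN j hj
        have hBt : B ∈ t := hN (by simp)
        have hDt : D ∈ t := hN (by simp)
        have hsub : t ∪ {A, C} ⊆ {A, B, C, D} := by
          rw [mem_flip] at ht
          rcases ht with ⟨ht, _⟩ | rfl | rfl
          · exact absurd hDt (hno t ht hBt)
          · intro w
            simp only [Finset.mem_union, Finset.mem_insert, Finset.mem_singleton]
            tauto
          · intro w
            simp only [Finset.mem_union, Finset.mem_insert, Finset.mem_singleton]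
            tauto
        simp only [Finset.mem_insert, Finset.mem_singleton] at hj
        rcases hj with rfl | rfl
        · refine ⟨{A, C, D}, ht2, ?_⟩
          intro w hw
          rw [Finset.mem_erase] at hw
          have := hsub hw.2
          simp only [Finset.mem_insert, Finset.mem_singleton] at this ⊢
          tauto
        · refine ⟨{A, B, C}, ht1, ?_⟩
          intro w hw
          rw [Finset.mem_erase] at hw
          have := hsub hw.2
          simp only [Finset.mem_insert, Finset.mem_singleton] at this ⊢
          tauto)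
      (by
        intro t ht hN
        rw [mem_flip] at ht
        rcases ht with ⟨ht, _⟩ | rfl | rfl
        · exact ⟨t, ht, Finset.Subset.refl _⟩
        · exfalso
          apply hN
          intro w
          simp only [Finset.mem_insert, Finset.mem_singleton]
          tauto
        · exfalso
          apply hN
          intro w
          simp only [Finset.mem_insert, Finset.mem_singleton]
          tauto)
    refine ⟨h, fun x => ?_⟩
    obtain ⟨τ, _, _, hτ⟩ := hh x
    unfold lin
    have e : ∑ v, (h x).1 v • p v = ∑ v, (x.1 v • p v - (τ • ((if v ∈ ({A, C} : Finset V) then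
        c v • p v else 0) - (if v ∈ ({B, D} : Finset V) then c v • p v else 0)))) := by
      refine Finset.sum_congr rfl fun v _ => ?_
      rw [hτ v, sub_smul, mul_smul]
      congr 2
      rw [sub_smul]
      congr 1
      · split_ifs <;> simp
      · split_ifs <;> simp
    rw [e, Finset.sum_sub_distrib, ← Finset.smul_sum, Finset.sum_sub_distrib,
      ← Finset.sum_filter, ← Finset.sum_filter, Finset.filter_mem_eq_inter, Finset.univ_inter,
      Finset.filter_mem_eq_inter, Finset.univ_inter, sP, sN, cA, cB, cC, cD, heq, sub_self,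
      smul_zero, sub_zero]

end Pool.Agent.TSP
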