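import Pool.Agent.TSP.Defs

/-!
# TSP: linear algebra in E3 (determinants, cross product, coordinates)
-/

set_option autoImplicit false

open scoped RealInnerProductSpace

namespace Pool.Agent.TSP

open Pool.Agent.TSM

/-- The cross product on `E3`. -/
noncomputable def cr (a b : E3) : E3 :=
  !₂[a 1 * b 2 - a 2 * b 1, a 2 * b 0 - a 0 * b 2, a 0 * b 1 - a 1 * b 0]

theorem cr_zero (a b : E3) : cr a b 0 = a 1 * b 2 - a 2 * b 1 := rfl
theorem cr_one (a b : E3) : cr a b 1 = a 2 * b 0 - a 0 * b 2 := rfl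
theorem cr_two (a b : E3) : cr a b 2 = a 0 * b 1 - a 1 * b 0 := rfl

theorem inner3 (a b : E3) : ⟪a, b⟫ = a 0 * b 0 + a 1 * b 1 + a 2 * b 2 := by
  simp [PiLp.inner_apply, Fin.sum_univ_three, mul_comm]

theorem ext3 {a b : E3} (h0 : a 0 = b 0) (h1 : a 1 = b 1) (h2 : a 2 = b 2) : a = b := by
  ext i
  fin_cases i
  · exact h0
  · exact h1
  · exact h2

theorem det3_eq (a b c : E3) : det3 a b c = ⟪a, cr b c⟫ := by
  rw [inner3, cr_zero, cr_one, cr_two, det3]
  ring

/-- Cramer's rule. -/
theorem cramer (o x y v : E3) (h : det3 o x y ≠ 0) :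
    v = (det3 o v y / det3 o x y) • x + (det3 o x v / det3 o x y) • y +
      (det3 v x y / det3 o x y) • o := by
  have h' : (det3 o x y) • v = (det3 o v y) • x + (det3 o x v) • y + (det3 v x y) • o := by
    apply ext3 <;> simp only [PiLp.add_apply, PiLp.smul_apply, smul_eq_mul, det3] <;> ring
  have h2 : v = (det3 o x y)⁻¹ • ((det3 o x y) • v) := by
    rw [smul_smul, inv_mul_cancel₀ h, one_smul]
  calc v = (det3 o x y)⁻¹ • ((det3 o x y) • v) := h2
    _ = (det3 o x y)⁻¹ • ((det3 o v y) • x + (det3 o x v) • y + (det3 v x y) • o) := by rw [h']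
    _ = _ := by
      rw [smul_add, smul_add, smul_smul, smul_smul, smul_smul, div_eq_inv_mul, div_eq_inv_mul,
        div_eq_inv_mul]

theorem exists_coords (o x y : E3) (h : det3 o x y ≠ 0) (v : E3) :
    ∃ l m k : ℝ, v = l • x + m • y + k • o := ⟨_, _, _, cramer o x y v h⟩

theorem det3_coord1 (o x y : E3) (l m k : ℝ) :
    det3 o (l • x + m • y + k • o) y = l * det3 o x y := by
  simp only [PiLp.add_apply, PiLp.smul_apply, smul_eq_mul, det3]; ring

theorem det3_coord2 (o x y : E3) (l m k : ℝ) :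
    det3 o x (l • x + m • y + k • o) = m * det3 o x y := by
  simp only [PiLp.add_apply, PiLp.smul_apply, smul_eq_mul, det3]; ring

theorem det3_coord3 (o x y : E3) (l m k : ℝ) :
    det3 (l • x + m • y + k • o) x y = k * det3 o x y := by
  simp only [PiLp.add_apply, PiLp.smul_apply, smul_eq_mul, det3]; ring

/-- Coordinates are unique. -/
theorem coords_unique (o x y : E3) (h : det3 o x y ≠ 0) {l m k l' m' k' : ℝ}
    (he : l • x + m • y + k • o = l' • x + m' • y + k' • o) : l = l' ∧ m = m' ∧ k = k' := by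
  refine ⟨?_, ?_, ?_⟩
  · have := det3_coord1 o x y l m k
    rw [he, det3_coord1] at this
    exact (mul_right_cancel₀ h this).symm
  · have := det3_coord2 o x y l m k
    rw [he, det3_coord2] at this
    exact (mul_right_cancel₀ h this).symm
  · have := det3_coord3 o x y l m k
    rw [he, det3_coord3] at this
    exact (mul_right_cancel₀ h this).symm

theorem coords_zero (o x y : E3) (h : det3 o x y ≠ 0) {l m k : ℝ}
    (he : l • x + m • y + k • o = 0) : l = 0 ∧ m = 0 ∧ k = 0 := by
  have := coords_unique o x y h (l := l) (m := m) (k := k) (l' := 0) (m' := 0) (k' := 0)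
    (by rw [he]; simp)
  exact this

theorem indep2_of_det3 (o x y : E3) (h : det3 o x y ≠ 0) : Indep2 x y := by
  intro a b hab
  have := coords_zero o x y h (l := a) (m := b) (k := 0) (by rw [zero_smul, add_zero]; exact hab)
  exact ⟨this.1, this.2.1⟩

theorem Indep2.symm {x y : E3} (h : Indep2 x y) : Indep2 y x := by
  intro a b hab
  obtain ⟨h1, h2⟩ := h b a (by rw [add_comm]; exact hab)
  exact ⟨h2, h1⟩

theorem Indep2.ne_zero_left {x y : E3} (h : Indep2 x y) : x ≠ 0 := by
  rintro rfl
  have := h 1 0 (by simp)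
  exact one_ne_zero this.1

theorem Indep2.ne_zero_right {x y : E3} (h : Indep2 x y) : y ≠ 0 := h.symm.ne_zero_left

theorem cr_ne_zero {x y : E3} (h : Indep2 x y) : cr x y ≠ 0 := by
  intro hc
  have h0 : x 1 * y 2 - x 2 * y 1 = 0 := by rw [← cr_zero, hc]; rfl
  have h1 : x 2 * y 0 - x 0 * y 2 = 0 := by rw [← cr_one, hc]; rfl
  have h2 : x 0 * y 1 - x 1 * y 0 = 0 := by rw [← cr_two, hc]; rfl
  have hx := h.ne_zero_left
  by_cases hx0 : x 0 = 0
  · by_cases hx1 : x 1 = 0
    · by_cases hx2 : x 2 = 0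
      · exact hx (ext3 hx0 hx1 hx2)
      · have := h (y 2) (-(x 2)) (by
          apply ext3 <;> simp only [PiLp.add_apply, PiLp.smul_apply, smul_eq_mul, PiLp.zero_apply]
            <;> linarith)
        exact hx2 (neg_eq_zero.1 this.2)
    · have := h (y 1) (-(x 1)) (by
        apply ext3 <;> simp only [PiLp.add_apply, PiLp.smul_apply, smul_eq_mul, PiLp.zero_apply]
          <;> linarith)
      exact hx1 (neg_eq_zero.1 this.2)
  · have := h (y 0) (-(x 0)) (by
      apply ext3 <;> simp only [PiLp.add_apply, PiLp.smul_apply, smul_eq_mul, PiLp.zero_apply]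
        <;> linarith)
    exact hx0 (neg_eq_zero.1 this.2)

theorem inner_self_pos {a : E3} (h : a ≠ 0) : 0 < ⟪a, a⟫ := by
  rw [real_inner_self_eq_norm_sq]
  positivity

theorem det3_cr (x y : E3) : det3 (cr x y) x y = ⟪cr x y, cr x y⟫ := det3_eq _ _ _

theorem exists_det3 {x y : E3} (h : Indep2 x y) : ∃ o, det3 o x y ≠ 0 :=
  ⟨cr x y, by rw [det3_cr]; exact (inner_self_pos (cr_ne_zero h)).ne'⟩

theorem inner_cr_left (x y : E3) : ⟪x, cr x y⟫ = 0 := by
  rw [inner3, cr_zero, cr_one, cr_two]; ring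

theorem inner_cr_right (x y : E3) : ⟪y, cr x y⟫ = 0 := by
  rw [inner3, cr_zero, cr_one, cr_two]; ring

/-- A vector orthogonal to `n ≠ 0`, where `n ⟂ x, y` and `x, y` are independent, is a
combination of `x` and `y`. -/
theorem plane_coords {n x y : E3} (hn : n ≠ 0) (hx : ⟪n, x⟫ = 0) (hy : ⟪n, y⟫ = 0)
    (h : Indep2 x y) {v : E3} (hv : ⟪n, v⟫ = 0) : ∃ l m : ℝ, v = l • x + m • y := by
  obtain ⟨o, ho⟩ := exists_det3 h
  obtain ⟨l, m, k, hk⟩ := exists_coords o x y ho v
  have hno : ⟪n, o⟫ ≠ 0 := by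
    intro hno
    obtain ⟨l', m', k', hk'⟩ := exists_coords o x y ho n
    have : ⟪n, n⟫ = 0 := by
      nth_rw 2 [hk']
      rw [inner_add_right, inner_add_right, inner_smul_right, inner_smul_right, inner_smul_right,
        hx, hy, hno]
      ring
    exact (inner_self_pos hn).ne' this
  have : k * ⟪n, o⟫ = 0 := by
    have h1 : ⟪n, v⟫ = k * ⟪n, o⟫ := by
      rw [hk, inner_add_right, inner_add_right, inner_smul_right, inner_smul_right,
        inner_smul_right, hx, hy]
      ring
    rw [← h1, hv]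
  have hk0 : k = 0 := (mul_eq_zero.1 this).resolve_right hno
  refine ⟨l, m, ?_⟩
  rw [hk, hk0, zero_smul, add_zero]

/-- If `u` is orthogonal to the independent vectors `x, y`, then it is a multiple of the normal
`n`. -/
theorem normal_multiple {n x y u : E3} (hn : n ≠ 0) (hx : ⟪n, x⟫ = 0) (hy : ⟪n, y⟫ = 0)
    (h : Indep2 x y) (hux : ⟪u, x⟫ = 0) (huy : ⟪u, y⟫ = 0) : ∃ t : ℝ, u = t • n := by
  refine ⟨⟪n, u⟫ / ⟪n, n⟫, ?_⟩
  set w : E3 := u - (⟪n, u⟫ / ⟪n, n⟫) • n with hw
  have hnn := (inner_self_pos hn).ne'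
  have h1 : ⟪n, w⟫ = 0 := by
    rw [hw, inner_sub_right, inner_smul_right]
    field_simp
    ring
  obtain ⟨l, m, hlm⟩ := plane_coords hn hx hy h h1
  have h2 : ⟪w, w⟫ = 0 := by
    nth_rw 2 [hlm]
    rw [inner_add_right, inner_smul_right, inner_smul_right, hw, inner_sub_left, inner_sub_left,
      inner_smul_left, inner_smul_left, hux, huy, hx, hy]
    simp
  have h3 : w = 0 := inner_self_eq_zero.1 h2
  rw [hw, sub_eq_zero] at h3
  exact h3

theorem indep2_iff_affine (a b c : E3) :
    AffineIndependent ℝ ![a, b, c] ↔ Indep2 (b - a) (c - a) := by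
  rw [affineIndependent_iff_linearIndependent_vsub ℝ _ (0 : Fin 3)]
  have hfam : LinearIndependent ℝ (fun i : {x : Fin 3 // x ≠ 0} => ![a, b, c] i -ᵥ ![a, b, c] 0)
      ↔ LinearIndependent ℝ ![b - a, c - a] := by
    let e : Fin 2 ≃ {x : Fin 3 // x ≠ 0} :=
      { toFun := fun i => ⟨i.succ, Fin.succ_ne_zero i⟩
        invFun := fun j => j.1.pred j.2
        left_inv := fun i => by simp
        right_inv := fun j => by simp }
    rw [← linearIndependent_equiv e]
    have : (fun i : {x : Fin 3 // x ≠ 0} => ![a, b, c] i -ᵥ ![a, b, c] 0) ∘ e =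
        ![b - a, c - a] := by
      funext i
      fin_cases i <;> simp [e]
    rw [this]
  rw [hfam, LinearIndependent.pair_iff]
  rfl

theorem det3_iff_affine (a b c d : E3) :
    AffineIndependent ℝ ![a, b, c, d] ↔ det3 (b - a) (c - a) (d - a) ≠ 0 := by
  rw [affineIndependent_iff_linearIndependent_vsub ℝ _ (0 : Fin 4)]
  have hfam : LinearIndependent ℝ
      (fun i : {x : Fin 4 // x ≠ 0} => ![a, b, c, d] i -ᵥ ![a, b, c, d] 0)
      ↔ LinearIndependent ℝ ![b - a, c - a, d - a] := by
    let e : Fin 3 ≃ {x : Fin 4 // x ≠ 0} :=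
      { toFun := fun i => ⟨i.succ, Fin.succ_ne_zero i⟩
        invFun := fun j => j.1.pred j.2
        left_inv := fun i => by simp
        right_inv := fun j => by simp }
    rw [← linearIndependent_equiv e]
    have : (fun i : {x : Fin 4 // x ≠ 0} => ![a, b, c, d] i -ᵥ ![a, b, c, d] 0) ∘ e =
        ![b - a, c - a, d - a] := by
      funext i
      fin_cases i <;> simp [e]
    rw [this]
  rw [hfam]
  have key : ∀ x y z : E3, LinearIndependent ℝ ![x, y, z] ↔ det3 x y z ≠ 0 := by
    intro x y z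
    rw [Fintype.linearIndependent_iff]
    constructor
    · intro h hdet
      have hI : Indep2 y z := by
        intro s t hst
        have := h ![0, s, t] (by simp [Fin.sum_univ_three, hst])
        exact ⟨this 1, this 2⟩
      have hcr := cr_ne_zero hI
      have hx0 : ⟪cr y z, x⟫ = 0 := by rw [real_inner_comm, ← det3_eq, hdet]
      obtain ⟨l, m, hlm⟩ := plane_coords hcr (by rw [real_inner_comm, inner_cr_left])
        (by rw [real_inner_comm, inner_cr_right]) hI hx0
      have := h ![1, -l, -m] (by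
        simp only [Fin.sum_univ_three, Matrix.cons_val_zero, Matrix.cons_val_one, one_smul,
          Matrix.cons_val]
        rw [hlm]; module) 0
      simp at this
    · intro h g hg
      rw [Fin.sum_univ_three] at hg
      simp only [Matrix.cons_val_zero, Matrix.cons_val_one, Matrix.cons_val] at hg
      obtain ⟨h1, h2, h3⟩ := coords_zero x y z h (l := g 1) (m := g 2) (k := g 0) (by
        rw [← hg]; abel)
      intro i
      fin_cases i
      · exact h3
      · exact h1
      · exact h2
  exact key _ _ _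

end Pool.Agent.TSP
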