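import Pool.Agent.TSP.P3Stmts
import Pool.Agent.TSP.Lin

/-!
# TSP, module GE3: planar vertex of degree 3
-/

set_option autoImplicit false

open scoped RealInnerProductSpace

namespace Pool.Agent.TSP

open Pool.Agent.TSM

theorem ge3_proof (h1 : Stmt_Lsa) (h2 : Stmt_Crn) : Stmt_Ge3 := by
  intro V _ _ T p v a b c hl hci hflat
  obtain ⟨-, -, hadj, -, -, -, harc, -⟩ := h1 V T v [a, b, c] hl
  obtain ⟨-, -, hindep, hover⟩ := h2 V (arcs T v) (fun u => p u - p v) hci
  obtain ⟨ν, hν, hperp⟩ := hflat
  obtain ⟨-, hnd, -, -⟩ := hl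
  have hab : a ≠ b := by
    intro h
    simp [h] at hnd
  have hac : a ≠ c := by
    intro h
    simp [h] at hnd
  have hbc : b ≠ c := by
    intro h
    simp [h] at hnd
  have eab : ({a, b} : Finset V) ∈ arcs T v := (harc _).2 ⟨a, b, by simp [cyc, conseq], rfl⟩
  have ebc : ({b, c} : Finset V) ∈ arcs T v := (harc _).2 ⟨b, c, by simp [cyc, conseq], rfl⟩
  have eca : ({c, a} : Finset V) ∈ arcs T v := (harc _).2 ⟨c, a, by simp [cyc, conseq], rfl⟩
  have eba : ({b, a} : Finset V) ∈ arcs T v := by
    rw [Finset.pair_comm]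
    exact eab
  have eac : ({a, c} : Finset V) ∈ arcs T v := by
    rw [Finset.pair_comm]
    exact eca
  have pa := hperp a ((hadj a).1 (by simp))
  have pb := hperp b ((hadj b).1 (by simp))
  have pc := hperp c ((hadj c).1 (by simp))
  have hi : Indep2 (p a - p v) (p b - p v) := hindep a b hab eab
  obtain ⟨α, β, hαβ⟩ := plane_coords hν pa pb hi pc
  have hα : α < 0 := hover a b c hac hab hbc eab ebc β α (by
    show p c - p v = β • (p b - p v) + α • (p a - p v)
    rw [hαβ, add_comm])
  have hβ : β < 0 := hover b a c hbc hab.symm hac eba eac α β hαβ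
  have hS : 0 < 1 - α - β := by linarith
  refine ⟨-α / (1 - α - β), -β / (1 - α - β), 1 / (1 - α - β), div_pos (by linarith) hS,
    div_pos (by linarith) hS, div_pos one_pos hS, ?_, ?_⟩
  · field_simp
    ring
  · have key : (1 - α - β) • p v = (-α) • p a + (-β) • p b + (1 : ℝ) • p c := by
      have h : p c - p v - (α • (p a - p v) + β • (p b - p v)) = 0 := sub_eq_zero.2 hαβ
      rw [← sub_eq_zero, ← neg_eq_zero, ← h]
      module
    have e : p v = (1 - α - β)⁻¹ • ((1 - α - β) • p v) := by
      rw [smul_smul, inv_mul_cancel₀ hS.ne', one_smul]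
    rw [e, key, smul_add, smul_add, smul_smul, smul_smul, smul_smul, div_eq_inv_mul,
      div_eq_inv_mul, div_eq_inv_mul]

end Pool.Agent.TSP
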