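import Pool.Agent.TSP.P3Stmts

/-!
# TSP, module GEO: at a planar vertex of degree at least four an edge can be flipped, or the
degree is four and the vertex lies on a diagonal
-/

set_option autoImplicit false

open scoped RealInnerProductSpace

namespace Pool.Agent.TSP

open Pool.Agent.TSM

namespace GEO_

/-- first maximum of a function on an interval -/
lemma first_max (f : ℕ → ℝ) (a b : ℕ) (hab : a ≤ b) :
    ∃ k, a ≤ k ∧ k ≤ b ∧ (∀ j, a ≤ j → j ≤ b → f j ≤ f k) ∧ ∀ j, a ≤ j → j < k → f j < f k := by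
  classical
  obtain ⟨k0, hk0, hmax⟩ := Finset.exists_max_image (Finset.Icc a b) f
    ⟨a, Finset.mem_Icc.2 ⟨le_rfl, hab⟩⟩
  have hex : ∃ k, a ≤ k ∧ k ≤ b ∧ f k0 ≤ f k := by
    obtain ⟨h1, h2⟩ := Finset.mem_Icc.1 hk0
    exact ⟨k0, h1, h2, le_rfl⟩
  obtain ⟨h1, h2, h3⟩ := Nat.find_spec hex
  refine ⟨Nat.find hex, h1, h2, fun j hj1 hj2 => ?_, fun j hj1 hj2 => ?_⟩
  · exact (hmax j (Finset.mem_Icc.2 ⟨hj1, hj2⟩)).trans h3
  · have h4 := Nat.find_min hex hj2
    push Not at h4
    have h5 := h4 hj1 (by omega)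
    exact lt_of_lt_of_le h5 h3

lemma good {E : ℕ → ℕ → ℝ} {ψ : ℕ → ℝ} {m : ℕ}
    (h : ψ (m + 1) * E m (m + 2) = ψ (m + 2) * E m (m + 1) + ψ m * E (m + 1) (m + 2))
    (p1 : 0 < E m (m + 1)) (p2 : 0 < E (m + 1) (m + 2)) (h0 : 0 < ψ (m + 1))
    (h1 : ψ m ≤ ψ (m + 1)) (h2 : ψ (m + 2) ≤ ψ (m + 1))
    (h3 : ψ m < ψ (m + 1) ∨ ψ (m + 2) < ψ (m + 1)) :
    E m (m + 2) < E m (m + 1) + E (m + 1) (m + 2) := by
  have h4 : ψ (m + 1) * E m (m + 2) < ψ (m + 1) * (E m (m + 1) + E (m + 1) (m + 2)) := by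
    rw [h, mul_add]
    have e1 : ψ (m + 2) * E m (m + 1) ≤ ψ (m + 1) * E m (m + 1) :=
      mul_le_mul_of_nonneg_right h2 p1.le
    have e2 : ψ m * E (m + 1) (m + 2) ≤ ψ (m + 1) * E (m + 1) (m + 2) :=
      mul_le_mul_of_nonneg_right h1 p2.le
    rcases h3 with h3 | h3
    · have e3 : ψ m * E (m + 1) (m + 2) < ψ (m + 1) * E (m + 1) (m + 2) :=
        mul_lt_mul_of_pos_right h3 p2
      linarith
    · have e3 : ψ (m + 2) * E m (m + 1) < ψ (m + 1) * E m (m + 1) :=
        mul_lt_mul_of_pos_right h3 p1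
      linarith
  exact lt_of_mul_lt_mul_left h4 h0.le

/-- the second case, with the index of the wide angle moved to `0` -/
lemma core2 (n : ℕ) (hn : 4 ≤ n) (E : ℕ → ℕ → ℝ) (anti : ∀ i j, E i j = -E j i)
    (pl : ∀ a b c e, E a b * E c e - E a c * E b e + E a e * E b c = 0)
    (per : ∀ i j, E i (j + n) = E i j)
    (pos : ∀ k, 0 < E k (k + 1))
    (F3 : ∀ i j, j % n ≠ i % n → j % n ≠ (i + 1) % n → ¬ (0 ≤ E i j ∧ 0 ≤ E j (i + 1)))
    (hw : E (n - 1) 1 ≤ 0) :
    (∃ m, 0 < E m (m + 2) ∧ E m (m + 2) < E m (m + 1) + E (m + 1) (m + 2)) ∨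
      (n = 4 ∧ ∃ m, E m (m + 2) = 0) := by
  have hn1 : n - 1 + 1 = n := by omega
  have per0 : ∀ i, E i n = E i 0 := fun i => by have := per i 0; rwa [zero_add] at this
  have per0' : ∀ i, E n i = E 0 i := fun i => by
    rw [anti n i, per0, ← anti]
  have q1 : 0 < E 0 1 := pos 0
  have q2 : 0 < E (n - 1) 0 := by
    have := pos (n - 1)
    rwa [hn1, per0] at this
  have W0 : 0 ≤ E 1 (n - 1) := by rw [anti]; linarith
  have f0 : ∀ j, 2 ≤ j → j ≤ n - 2 → ¬ (0 ≤ E 0 j ∧ 0 ≤ E j 1) := by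
    intro j h2 hj
    refine F3 0 j ?_ ?_
    · rw [Nat.mod_eq_of_lt (by omega : j < n), Nat.zero_mod]; omega
    · rw [Nat.mod_eq_of_lt (by omega : j < n), Nat.mod_eq_of_lt (by omega : 0 + 1 < n)]; omega
  have fb : ∀ j, 2 ≤ j → j ≤ n - 2 → ¬ (0 ≤ E (n - 1) j ∧ 0 ≤ E j 0) := by
    intro j h2 hj
    have := F3 (n - 1) j ?_ ?_
    · rwa [hn1, per0] at this
    · rw [Nat.mod_eq_of_lt (by omega : j < n), Nat.mod_eq_of_lt (by omega : n - 1 < n)]; omega
    · rw [Nat.mod_eq_of_lt (by omega : j < n), hn1, Nat.mod_self]; omega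
  -- the middle directions lie strictly between
  have claimA : ∀ j, 2 ≤ j → j ≤ n - 2 → 0 ≤ E 1 j := by
    intro j h2 hj
    by_contra hc
    push Not at hc
    have a1 : 0 < E j 1 := by rw [anti]; linarith
    have a2 : E 0 j < 0 := by
      by_contra h; push Not at h
      exact f0 j h2 hj ⟨h, a1.le⟩
    have a3 : 0 < E j 0 := by rw [anti]; linarith
    have a4 : E (n - 1) j < 0 := by
      by_contra h; push Not at h
      exact fb j h2 hj ⟨h, a3.le⟩
    have a5 : 0 < E j (n - 1) := by rw [anti]; linarith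
    have h := pl j (n - 1) 0 1
    have b1 : 0 < E j (n - 1) * E 0 1 := mul_pos a5 q1
    have b2 : 0 < E j 1 * E (n - 1) 0 := mul_pos a1 q2
    have b3 : E j 0 * E (n - 1) 1 ≤ 0 := mul_nonpos_of_nonneg_of_nonpos a3.le hw
    linarith
  have claimB : ∀ j, 2 ≤ j → j ≤ n - 2 → 0 ≤ E j (n - 1) := by
    intro j h2 hj
    by_contra hc
    push Not at hc
    have a1 : 0 < E (n - 1) j := by rw [anti]; linarith
    have a2 : E j 0 < 0 := by
      by_contra h; push Not at h
      exact fb j h2 hj ⟨a1.le, h⟩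
    have a3 : 0 < E 0 j := by rw [anti]; linarith
    have a4 : E j 1 < 0 := by
      by_contra h; push Not at h
      exact f0 j h2 hj ⟨a3.le, h⟩
    have h := pl j (n - 1) 0 1
    have b1 : E j (n - 1) * E 0 1 < 0 := mul_neg_of_neg_of_pos hc q1
    have b2 : E j 1 * E (n - 1) 0 < 0 := mul_neg_of_neg_of_pos a4 q2
    have b3 : 0 ≤ E j 0 * E (n - 1) 1 := mul_nonneg_of_nonpos_of_nonpos a2.le hw
    linarith
  have claimA' : ∀ j, 2 ≤ j → j ≤ n - 2 → 0 < E 1 j := by
    intro j h2 hj
    refine lt_of_le_of_ne (claimA j h2 hj) fun h0 => ?_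
    have a0 : E j 1 = 0 := by rw [anti, ← h0, neg_zero]
    have a2 : E 0 j < 0 := by
      by_contra h; push Not at h
      exact f0 j h2 hj ⟨h, a0.ge⟩
    have a3 : 0 < E j 0 := by rw [anti]; linarith
    have h := pl 0 1 j (n - 1)
    rw [← h0, mul_zero, add_zero] at h
    have b1 : 0 ≤ E 0 1 * E j (n - 1) := mul_nonneg q1.le (claimB j h2 hj)
    have b2 : E 0 j * E 1 (n - 1) ≤ 0 := mul_nonpos_of_nonpos_of_nonneg a2.le W0
    have b3 : E 0 1 * E j (n - 1) = 0 := by linarith
    have b4 : E j (n - 1) = 0 := (mul_eq_zero.1 b3).resolve_left q1.ne'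
    refine fb j h2 hj ⟨?_, a3.le⟩
    rw [anti, b4, neg_zero]
  have claimB' : ∀ j, 2 ≤ j → j ≤ n - 2 → 0 < E j (n - 1) := by
    intro j h2 hj
    refine lt_of_le_of_ne (claimB j h2 hj) fun h0 => ?_
    have a0 : E (n - 1) j = 0 := by rw [anti, ← h0, neg_zero]
    have a2 : E j 0 < 0 := by
      by_contra h; push Not at h
      exact fb j h2 hj ⟨a0.ge, h⟩
    have a3 : 0 < E 0 j := by rw [anti]; linarith
    have h := pl 0 1 j (n - 1)
    rw [← h0, mul_zero, zero_sub] at h
    have b1 : 0 ≤ E 0 j * E 1 (n - 1) := mul_nonneg a3.le W0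
    have b2 : E 0 (n - 1) < 0 := by rw [anti]; linarith
    have b3 : E 0 (n - 1) * E 1 j < 0 := mul_neg_of_neg_of_pos b2 (claimA' j h2 hj)
    linarith
  rcases eq_or_lt_of_le W0 with hW | hW
  · -- straight angle
    by_cases h4 : n = 4
    · right
      refine ⟨h4, 1, ?_⟩
      subst h4
      exact hW.symm
    · left
      obtain ⟨k, hk1, hk2, hk3, hk4⟩ := first_max (fun k => E 1 k) 2 (n - 2) (by omega)
      obtain ⟨m, rfl⟩ : ∃ m, k = m + 1 := ⟨k - 1, by omega⟩
      have hψ : ∀ j, 1 ≤ j → j ≤ n - 1 → 0 ≤ E 1 j := by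
        intro j h1 h2
        rcases Nat.lt_or_ge j 2 with h3 | h3
        · have : j = 1 := by omega
          subst this
          have := anti 1 1
          linarith
        rcases Nat.lt_or_ge (n - 2) j with h5 | h5
        · have : j = n - 1 := by omega
          rw [this, ← hW]
        · exact claimA j h3 h5
      have hpos : 0 < E 1 (m + 1) := claimA' _ hk1 hk2
      have hrule : E 1 (m + 1) * E m (m + 2) =
          E 1 (m + 2) * E m (m + 1) + E 1 m * E (m + 1) (m + 2) := by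
        have := pl 1 m (m + 1) (m + 2)
        linarith
      have hlt : E 1 m < E 1 (m + 1) := by
        rcases Nat.lt_or_ge m 2 with h5 | h5
        · have : m = 1 := by omega
          subst this
          have := anti 1 1
          linarith
        · exact hk4 m h5 (Nat.lt_succ_self m)
      have hle : E 1 (m + 2) ≤ E 1 (m + 1) := by
        rcases Nat.lt_or_ge (n - 2) (m + 2) with h5 | h5
        · have : m + 2 = n - 1 := by omega
          rw [this, ← hW]; exact hpos.le
        · exact hk3 (m + 2) (by omega) h5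
      refine ⟨m, ?_, good (ψ := fun k => E 1 k) hrule (pos m) (pos (m + 1)) hpos hlt.le hle
        (Or.inl hlt)⟩
      have e1 : 0 ≤ E 1 (m + 2) * E m (m + 1) :=
        mul_nonneg (hψ _ (by omega) (by omega)) (pos m).le
      have e2 : 0 ≤ E 1 m * E (m + 1) (m + 2) :=
        mul_nonneg (hψ _ (by omega) (by omega)) (pos (m + 1)).le
      have e3 : 0 < E 1 (m + 1) * E m (m + 2) := by
        rw [hrule]
        rcases Nat.lt_or_ge m 2 with h5 | h5
        · have e4 : 0 < E 1 (m + 2) := claimA' _ (by omega) (by omega)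
          have := mul_pos e4 (pos m)
          linarith
        · have e4 : 0 < E 1 m := claimA' _ h5 (by omega)
          have := mul_pos e4 (pos (m + 1))
          linarith
      exact pos_of_mul_pos_right e3 hpos.le
  · -- angle < π
    set ψ : ℕ → ℝ := fun k => E 1 k + E k (n - 1) with hψdef
    have z11 : E 1 1 = 0 := by have := anti 1 1; linarith
    have znn : E (n - 1) (n - 1) = 0 := by have := anti (n - 1) (n - 1); linarith
    have ψ1 : ψ 1 = E 1 (n - 1) := by simp [hψdef, z11]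
    have ψn : ψ (n - 1) = E 1 (n - 1) := by simp [hψdef, znn]
    have ψ0 : ψ 0 < 0 := by
      have e1 : E 1 0 < 0 := by rw [anti]; linarith
      have e2 : E 0 (n - 1) < 0 := by rw [anti]; linarith
      simp only [hψdef]; linarith
    have ψn' : ψ n < 0 := by
      have : ψ n = ψ 0 := by simp only [hψdef]; rw [per0, per0']
      rw [this]; exact ψ0
    have rule : ∀ a b c, ψ b * E a c = ψ c * E a b + ψ a * E b c := by
      intro a b c
      simp only [hψdef]
      have h1 := pl 1 a b c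
      have h2 := pl (n - 1) a b c
      rw [anti (n - 1) a, anti (n - 1) b, anti (n - 1) c] at h2
      linarith
    have ψpos : ∀ j, 1 ≤ j → j ≤ n - 1 → 0 < ψ j := by
      intro j h1 h2
      rcases Nat.lt_or_ge j 2 with h3 | h3
      · have : j = 1 := by omega
        rw [this, ψ1]; exact hW
      rcases Nat.lt_or_ge (n - 2) j with h5 | h5
      · have : j = n - 1 := by omega
        rw [this, ψn]; exact hW
      · have := claimA' j h3 h5
        have := claimB' j h3 h5
        simp only [hψdef]; linarith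
    have chain : ∀ i, 1 ≤ i → ∀ t, i + (t + 1) ≤ n - 1 → 0 < E i (i + (t + 1)) := by
      intro i hi t
      induction t with
      | zero => intro _; exact pos i
      | succ t ih =>
        intro ht
        have h1 := ih (by omega)
        have h2 := rule i (i + (t + 1)) (i + (t + 1 + 1))
        have h3 := ψpos (i + (t + 1)) (by omega) (by omega)
        have h4 := ψpos (i + (t + 1 + 1)) (by omega) (by omega)
        have h5 := ψpos i hi (by omega)
        have h6 := pos (i + (t + 1))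
        have h7 : 0 < ψ (i + (t + 1)) * E i (i + (t + 1 + 1)) := by
          rw [h2]
          have h8 := mul_pos h4 h1
          have h9 := mul_pos h5 h6
          have e : i + (t + 1) + 1 = i + (t + 1 + 1) := by omega
          rw [e] at h9
          linarith
        exact pos_of_mul_pos_right h7 h3.le
    by_cases hbig : ∃ j, 2 ≤ j ∧ j ≤ n - 2 ∧ E 1 (n - 1) < ψ j
    · left
      obtain ⟨j0, hj1, hj2, hj3⟩ := hbig
      obtain ⟨k, hk1, hk2, hk3, hk4⟩ := first_max ψ 1 (n - 1) (by omega)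
      have hM : E 1 (n - 1) < ψ k := lt_of_lt_of_le hj3 (hk3 j0 (by omega) (by omega))
      have k1 : k ≠ 1 := by rintro rfl; rw [ψ1] at hM; exact lt_irrefl _ hM
      have k2 : k ≠ n - 1 := by rintro rfl; rw [ψn] at hM; exact lt_irrefl _ hM
      obtain ⟨m, rfl⟩ : ∃ m, k = m + 1 := ⟨k - 1, by omega⟩
      have h0 := ψpos (m + 1) (by omega) (by omega)
      have hrule := rule m (m + 1) (m + 2)
      have hlt := hk4 m (by omega) (Nat.lt_succ_self m)
      refine ⟨m, ?_, good (ψ := ψ) hrule (pos m) (pos (m + 1)) h0 hlt.le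
        (hk3 (m + 2) (by omega) (by omega)) (Or.inl hlt)⟩
      have := chain m (by omega) 1 (by omega)
      exact this
    · push Not at hbig
      by_cases c1 : 0 < E 0 2
      · left
        refine ⟨0, c1, good (ψ := ψ) (rule 0 1 2) (pos 0) (pos 1) (ψpos 1 le_rfl (by omega))
          ?_ ?_ ?_⟩
        · have := ψpos 1 le_rfl (by omega)
          simp only [zero_add]; linarith
        · simp only [zero_add]; rw [ψ1]; exact hbig 2 le_rfl (by omega)
        · left
          have := ψpos 1 le_rfl (by omega)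
          simp only [zero_add]; linarith
      by_cases c2 : 0 < E (n - 2) n
      · left
        have e1 : n - 2 + 1 = n - 1 := by omega
        have e2 : n - 2 + 2 = n := by omega
        refine ⟨n - 2, ?_, good (ψ := ψ) (rule (n - 2) (n - 2 + 1) (n - 2 + 2)) (pos _) (pos _)
          ?_ ?_ ?_ ?_⟩
        · rw [e2]; exact c2
        · rw [e1]; exact ψpos _ (by omega) le_rfl
        · rw [e1, ψn]
          rcases Nat.lt_or_ge (n - 2) 2 with h5 | h5
          · omega
          · exact hbig _ h5 le_rfl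
        · rw [e2, e1]
          have := ψpos (n - 1) (by omega) le_rfl
          linarith
        · right
          rw [e2, e1]
          have := ψpos (n - 1) (by omega) le_rfl
          linarith
      push Not at c1 c2
      rw [per0] at c2
      by_cases h4 : n = 4
      · right
        refine ⟨h4, 0, ?_⟩
        subst h4
        have := anti 0 2
        simp only [zero_add]
        have c2' : E 2 0 ≤ 0 := c2
        linarith
      · exfalso
        have h5 : 0 < E 2 (n - 2) := by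
          have := chain 2 (by omega) (n - 5) (by omega)
          have e : 2 + (n - 5 + 1) = n - 2 := by omega
          rwa [e] at this
        have h6 := pl 2 (n - 2) 1 0
        -- E 2 (n-2) * E 1 0 - E 2 1 * E (n-2) 0 + E 2 0 * E (n-2) 1 = 0
        have g1 : E 1 0 < 0 := by rw [anti]; linarith
        have g2 : 0 < E 1 2 := pos 1
        have g3 : 0 < E 1 (n - 2) := claimA' (n - 2) (by omega) le_rfl
        have g4 : E 2 1 = -E 1 2 := anti 2 1
        have g5 : E (n - 2) 1 = -E 1 (n - 2) := anti _ _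
        have g6 : 0 ≤ E 2 0 := by rw [anti]; linarith
        rw [g4, g5] at h6
        have k1 : E 2 (n - 2) * E 1 0 < 0 := mul_neg_of_pos_of_neg h5 g1
        have k2 : E 1 2 * E (n - 2) 0 ≤ 0 := mul_nonpos_of_nonneg_of_nonpos g2.le c2
        have k3 : 0 ≤ E 2 0 * E 1 (n - 2) := mul_nonneg g6 g3.le
        nlinarith

lemma core (n : ℕ) (hn : 4 ≤ n) (E : ℕ → ℕ → ℝ) (anti : ∀ i j, E i j = -E j i)
    (pl : ∀ a b c e, E a b * E c e - E a c * E b e + E a e * E b c = 0)
    (per : ∀ i j, E i (j + n) = E i j)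
    (pos : ∀ k, 0 < E k (k + 1))
    (F3 : ∀ i j, j % n ≠ i % n → j % n ≠ (i + 1) % n → ¬ (0 ≤ E i j ∧ 0 ≤ E j (i + 1))) :
    (∃ m, 0 < E m (m + 2) ∧ E m (m + 2) < E m (m + 1) + E (m + 1) (m + 2)) ∨
      (n = 4 ∧ ∃ m, E m (m + 2) = 0) := by
  by_cases hall : ∀ k, 0 < E k (k + 2)
  · left
    obtain ⟨k, hk1, hk2, hk3, hk4⟩ := first_max (fun k => E 0 k) 0 n (Nat.zero_le _)
    have z : E 0 0 = 0 := by have := anti 0 0; linarith
    have hM : 0 < E 0 k := lt_of_lt_of_le (pos 0) (hk3 1 (by omega) (by omega))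
    have k0 : k ≠ 0 := by rintro rfl; rw [z] at hM; exact lt_irrefl _ hM
    have kn : k ≠ n := by
      rintro rfl
      have := per 0 0
      rw [zero_add, z] at this
      rw [this] at hM
      exact lt_irrefl _ hM
    obtain ⟨m, rfl⟩ : ∃ m, k = m + 1 := ⟨k - 1, by omega⟩
    have hlt := hk4 m (Nat.zero_le _) (Nat.lt_succ_self m)
    refine ⟨m, hall m, good (ψ := fun k => E 0 k) ?_ (pos m) (pos (m + 1)) hM hlt.le
      (hk3 (m + 2) (by omega) (by omega)) (Or.inl hlt)⟩
    have := pl 0 m (m + 1) (m + 2)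
    linarith
  · push Not at hall
    obtain ⟨k, hk⟩ := hall
    -- shift by `s` with `n - 1 + s ≡ k`
    have per' : ∀ i j, E (i + n) j = E i j := fun i j => by rw [anti, per, ← anti]
    have hs : ∀ i j, E (i + (k + 1)) (j + (k + 1)) = E (i + (k + 1)) (j + (k + 1)) :=
      fun _ _ => rfl
    have := core2 n hn (fun i j => E (i + (k + 1)) (j + (k + 1))) (fun i j => anti _ _)
      (fun a b c e => pl _ _ _ _) (fun i j => by
        have : j + n + (k + 1) = j + (k + 1) + n := by omega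
        rw [this, per])
      (fun j => by
        have : j + 1 + (k + 1) = j + (k + 1) + 1 := by omega
        rw [this]; exact pos _)
      (fun i j h1 h2 => by
        have e : i + 1 + (k + 1) = i + (k + 1) + 1 := by omega
        rw [e]
        refine F3 _ _ (fun h => h1 ?_) (fun h => h2 ?_)
        · exact Nat.ModEq.add_right_cancel' (k + 1) h
        · rw [← e] at h
          exact Nat.ModEq.add_right_cancel' (k + 1) h)
      (by
        have e1 : n - 1 + (k + 1) = k + n := by omega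
        have e2 : 1 + (k + 1) = k + 2 := by omega
        rw [e1, e2, per']
        exact hk)
    rcases this with ⟨m, h1, h2⟩ | ⟨h1, m, h2⟩
    · left
      refine ⟨m + (k + 1), ?_, ?_⟩
      · have e : m + 2 + (k + 1) = m + (k + 1) + 2 := by omega
        rwa [e] at h1
      · have e : m + 2 + (k + 1) = m + (k + 1) + 2 := by omega
        have e' : m + 1 + (k + 1) = m + (k + 1) + 1 := by omega
        rwa [e, e'] at h2
    · right
      refine ⟨h1, m + (k + 1), ?_⟩
      have e : m + 2 + (k + 1) = m + (k + 1) + 2 := by omega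
      rwa [e] at h2

/-! ### vectors -/

lemma inn (x y : E3) : (⟪x, y⟫ : ℝ) = x 0 * y 0 + x 1 * y 1 + x 2 * y 2 := by
  simp only [PiLp.inner_apply, Fin.sum_univ_three, RCLike.inner_apply, conj_trivial]
  ring

lemma ident {ν x y z : E3} (hν : ν ≠ 0) (hx : (⟪ν, x⟫ : ℝ) = 0) (hy : (⟪ν, y⟫ : ℝ) = 0)
    (hz : (⟪ν, z⟫ : ℝ) = 0) :
    det3 ν x y • z + det3 ν y z • x + det3 ν z x • y = 0 := by
  rw [inn] at hx hy hz
  have hN : 0 < ν 0 ^ 2 + ν 1 ^ 2 + ν 2 ^ 2 := by
    by_contra hcon
    push Not at hcon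
    apply hν
    ext i
    have h0 : ν 0 = 0 := by nlinarith [sq_nonneg (ν 0), sq_nonneg (ν 1), sq_nonneg (ν 2)]
    have h1 : ν 1 = 0 := by nlinarith [sq_nonneg (ν 0), sq_nonneg (ν 1), sq_nonneg (ν 2)]
    have h2 : ν 2 = 0 := by nlinarith [sq_nonneg (ν 0), sq_nonneg (ν 1), sq_nonneg (ν 2)]
    fin_cases i
    · exact h0
    · exact h1
    · exact h2
  have hdet : det3 x y z = 0 := by
    have h1 : det3 x y z * (ν 0 ^ 2 + ν 1 ^ 2 + ν 2 ^ 2) = 0 := by
      have h2 : det3 x y z * (ν 0 ^ 2 + ν 1 ^ 2 + ν 2 ^ 2) =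
          det3 ν x y * (ν 0 * z 0 + ν 1 * z 1 + ν 2 * z 2) +
          det3 ν y z * (ν 0 * x 0 + ν 1 * x 1 + ν 2 * x 2) +
          det3 ν z x * (ν 0 * y 0 + ν 1 * y 1 + ν 2 * y 2) := by
        unfold det3; ring
      rw [h2, hx, hy, hz]; ring
    exact (mul_eq_zero.1 h1).resolve_right hN.ne'
  have key : ∀ i : Fin 3, det3 ν x y * z i + det3 ν y z * x i + det3 ν z x * y i = 0 := by
    intro i
    have h3 : det3 ν x y * z i + det3 ν y z * x i + det3 ν z x * y i = det3 x y z * ν i := by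
      fin_cases i
      · simp only [det3, Fin.zero_eta]; ring
      · simp only [det3, Fin.mk_one]; ring
      · simp only [det3, Fin.reduceFinMk]; ring
    rw [h3, hdet, zero_mul]
  ext i
  simpa using key i

lemma det_ne {ν x y : E3} (hν : ν ≠ 0) (hx : (⟪ν, x⟫ : ℝ) = 0) (hy : (⟪ν, y⟫ : ℝ) = 0)
    (hind : ∀ a b : ℝ, a • x + b • y = 0 → a = 0 ∧ b = 0) : det3 ν x y ≠ 0 := by
  intro h0
  let z : E3 := !₂[ν 1 * y 2 - ν 2 * y 1, ν 2 * y 0 - ν 0 * y 2, ν 0 * y 1 - ν 1 * y 0]
  have z0 : z 0 = ν 1 * y 2 - ν 2 * y 1 := rfl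
  have z1 : z 1 = ν 2 * y 0 - ν 0 * y 2 := rfl
  have z2 : z 2 = ν 0 * y 1 - ν 1 * y 0 := rfl
  have hz : (⟪ν, z⟫ : ℝ) = 0 := by rw [inn, z0, z1, z2]; ring
  have h1 := ident hν hx hy hz
  rw [h0, zero_smul, zero_add] at h1
  obtain ⟨h2, -⟩ := hind _ _ h1
  have h3 : det3 ν y z = z 0 ^ 2 + z 1 ^ 2 + z 2 ^ 2 := by
    rw [z0, z1, z2]; unfold det3; rw [z0, z1, z2]; ring
  have h4 : z 0 ^ 2 + z 1 ^ 2 + z 2 ^ 2 = (ν 0 ^ 2 + ν 1 ^ 2 + ν 2 ^ 2) * (y 0 ^ 2 + y 1 ^ 2 +
      y 2 ^ 2) - (ν 0 * y 0 + ν 1 * y 1 + ν 2 * y 2) ^ 2 := by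
    rw [z0, z1, z2]; ring
  rw [inn] at hy
  rw [h3, h4, hy] at h2
  have h5 : (ν 0 ^ 2 + ν 1 ^ 2 + ν 2 ^ 2) * (y 0 ^ 2 + y 1 ^ 2 + y 2 ^ 2) = 0 := by linarith
  rcases mul_eq_zero.1 h5 with h | h
  · apply hν
    have a0 : ν 0 = 0 := by nlinarith [sq_nonneg (ν 0), sq_nonneg (ν 1), sq_nonneg (ν 2)]
    have a1 : ν 1 = 0 := by nlinarith [sq_nonneg (ν 0), sq_nonneg (ν 1), sq_nonneg (ν 2)]
    have a2 : ν 2 = 0 := by nlinarith [sq_nonneg (ν 0), sq_nonneg (ν 1), sq_nonneg (ν 2)]
    ext i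
    fin_cases i
    · exact a0
    · exact a1
    · exact a2
  · have a0 : y 0 = 0 := by nlinarith [sq_nonneg (y 0), sq_nonneg (y 1), sq_nonneg (y 2)]
    have a1 : y 1 = 0 := by nlinarith [sq_nonneg (y 0), sq_nonneg (y 1), sq_nonneg (y 2)]
    have a2 : y 2 = 0 := by nlinarith [sq_nonneg (y 0), sq_nonneg (y 1), sq_nonneg (y 2)]
    have hy0 : y = 0 := by
      ext i
      fin_cases i
      · exact a0
      · exact a1
      · exact a2
    have := (hind 0 1 (by rw [hy0]; simp)).2
    norm_num at this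

/-! ### lists -/

lemma mem_conseq {α : Type} (L : List α) (k : ℕ) (h : k + 1 < L.length) :
    (L[k], L[k + 1]) ∈ conseq L := by
  induction L generalizing k with
  | nil => simp at h
  | cons a L ih =>
    cases L with
    | nil => simp at h
    | cons b L =>
      cases k with
      | zero => simp [conseq]
      | succ k =>
        simp only [conseq, List.mem_cons]
        right
        have := ih k (by simpa using h)
        simpa using this

lemma mem_cyc {α : Type} (l : List α) (k : ℕ) (h : k < l.length) :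
    (l[k], l[(k + 1) % l.length]'(Nat.mod_lt _ (by omega))) ∈ cyc l := by
  cases l with
  | nil => simp at h
  | cons a l' =>
    unfold cyc
    have h1 : k + 1 < (a :: l' ++ [a]).length := by simp at h ⊢; omega
    have h2 := mem_conseq (a :: l' ++ [a]) k h1
    have e1 : (a :: l' ++ [a])[k] = (a :: l')[k] := List.getElem_append_left h
    rw [e1] at h2
    rcases Nat.lt_or_ge (k + 1) (a :: l').length with h3 | h3
    · have e2 : (a :: l' ++ [a])[k + 1] = (a :: l')[k + 1] := List.getElem_append_left h3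
      rw [e2] at h2
      have e3 : (k + 1) % (a :: l').length = k + 1 := Nat.mod_eq_of_lt h3
      simp only [e3]
      exact h2
    · have e4 : k + 1 = (a :: l').length := by omega
      have e2 : (a :: l' ++ [a])[k + 1] = a := by
        rw [List.getElem_append_right h3]
        simp
      rw [e2] at h2
      have e3 : (k + 1) % (a :: l').length = 0 := by rw [e4, Nat.mod_self]
      simp only [e3, List.getElem_cons_zero]
      exact h2

end GEO_

open GEO_ in
theorem geo_proof (h1 : Stmt_Lsa) (h2 : Stmt_Crn) : Stmt_Geo := by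
  classical
  intro V _ _ T p v l hl hlen hci hflat
  obtain ⟨-, -, hadj, -, hcons, -, harc, -⟩ := h1 V T v l hl
  obtain ⟨-, hcone, hindep, hover⟩ := h2 V (arcs T v) (fun u => p u - p v) hci
  obtain ⟨ν0, hν0, hperp0⟩ := hflat
  obtain ⟨hl3, hnd, hvl, hT⟩ := hl
  set n := l.length with hn
  have hnpos : 0 < n := by omega
  let u : ℕ → V := fun k => l[k % n]'(Nat.mod_lt _ hnpos)
  let d : ℕ → E3 := fun k => p (u k) - p v
  have hul : ∀ k, u k ∈ l := fun k => List.getElem_mem _
  have hu : ∀ i j, u i = u j ↔ i % n = j % n := by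
    intro i j
    constructor
    · intro h
      exact (List.Nodup.getElem_inj_iff hnd).1 h
    · intro h
      change l[i % n]'(Nat.mod_lt _ hnpos) = l[j % n]'(Nat.mod_lt _ hnpos)
      simp only [h]
  have huv : ∀ k, u k ≠ v := fun k h => hvl (h ▸ hul k)
  have hpair : ∀ k, (u k, u (k + 1)) ∈ cyc l := by
    intro k
    have h3 := mem_cyc l (k % n) (Nat.mod_lt _ hnpos)
    have h4 : (k % n + 1) % n = (k + 1) % n := by rw [Nat.mod_add_mod]
    have key : ∀ (a b : ℕ) (ha : a < l.length) (hb : b < l.length), a = k % n →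
        b = (k + 1) % n → (l[a], l[b]) = (u k, u (k + 1)) := by
      rintro _ _ _ _ rfl rfl; rfl
    rwa [key _ _ _ _ rfl h4] at h3
  have htri : ∀ k, {v, u k, u (k + 1)} ∈ T := fun k =>
    ((hT _).2 ⟨u k, u (k + 1), hpair k, rfl⟩).1
  have harcs : ∀ k, ({u k, u (k + 1)} : Finset V) ∈ arcs T v := fun k =>
    (harc _).2 ⟨u k, u (k + 1), hpair k, rfl⟩
  have hne1 : ∀ k, u k ≠ u (k + 1) := by
    intro k h
    rw [hu] at h
    have : k ≡ k + 1 [MOD n] := h
    have h3 := (Nat.modEq_iff_dvd' (by omega)).1 this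
    have h4 : k + 1 - k = 1 := by omega
    rw [h4] at h3
    have := Nat.le_of_dvd one_pos h3
    omega
  have hne2 : ∀ k, u k ≠ u (k + 2) := by
    intro k h
    rw [hu] at h
    have : k ≡ k + 2 [MOD n] := h
    have h3 := (Nat.modEq_iff_dvd' (by omega)).1 this
    have h4 : k + 2 - k = 2 := by omega
    rw [h4] at h3
    have := Nat.le_of_dvd two_pos h3
    omega
  have hperp0' : ∀ k, (⟪ν0, d k⟫ : ℝ) = 0 := fun k => hperp0 _ ((hadj _).1 (hul k))
  -- orientation
  have hD0 : ∀ ν : E3, ν ≠ 0 → (∀ k, (⟪ν, d k⟫ : ℝ) = 0) → ∀ k, det3 ν (d k) (d (k + 1)) ≠ 0 :=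
    fun ν hν hp k => det_ne hν (hp k) (hp (k + 1)) (hindep _ _ (hne1 k) (harcs k))
  obtain ⟨ν, hν, hperp, hpos0⟩ : ∃ ν : E3, ν ≠ 0 ∧ (∀ k, (⟪ν, d k⟫ : ℝ) = 0) ∧
      0 < det3 ν (d 0) (d 1) := by
    rcases lt_or_gt_of_ne (hD0 ν0 hν0 hperp0' 0) with h | h
    · refine ⟨-ν0, neg_ne_zero.2 hν0, fun k => by rw [inner_neg_left, hperp0', neg_zero], ?_⟩
      have h3 : det3 (-ν0) (d 0) (d 1) = -det3 ν0 (d 0) (d 1) := by
        simp only [det3, PiLp.neg_apply]; ring
      rw [h3]
      have : det3 ν0 (d 0) (d 1) < 0 := h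
      linarith
    · exact ⟨ν0, hν0, hperp0', h⟩
  let E : ℕ → ℕ → ℝ := fun i j => det3 ν (d i) (d j)
  have anti : ∀ i j, E i j = -E j i := by intro i j; simp only [E, det3]; ring
  have pl : ∀ a b c e, E a b * E c e - E a c * E b e + E a e * E b c = 0 := by
    intro a b c e; simp only [E, det3]; ring
  have hun : ∀ k, u (k + n) = u k := fun k => by rw [hu, Nat.add_mod_right]
  have per : ∀ i j, E i (j + n) = E i j := by
    intro i j
    simp only [E, d, hun]
  have pos : ∀ k, 0 < E k (k + 1) := by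
    intro k
    induction k with
    | zero => exact hpos0
    | succ k ih =>
      have e1 := ident hν (hperp k) (hperp (k + 1)) (hperp (k + 2))
      have e0 : det3 ν (d k) (d (k + 1)) ≠ 0 := (show (0 : ℝ) < _ from ih).ne'
      have e2 : d (k + 2) = (-(det3 ν (d (k + 2)) (d k) / det3 ν (d k) (d (k + 1)))) • d (k + 1) +
          (-(det3 ν (d (k + 1)) (d (k + 2)) / det3 ν (d k) (d (k + 1)))) • d k := by
        have e3 : det3 ν (d k) (d (k + 1)) • d (k + 2) =
            -(det3 ν (d (k + 1)) (d (k + 2)) • d k) - det3 ν (d (k + 2)) (d k) • d (k + 1) := by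
          rw [← sub_eq_zero, ← e1]; module
        have e4 : d (k + 2) = (det3 ν (d k) (d (k + 1)))⁻¹ • (det3 ν (d k) (d (k + 1)) •
            d (k + 2)) := by
          rw [smul_smul, inv_mul_cancel₀ e0, one_smul]
        calc d (k + 2) = (det3 ν (d k) (d (k + 1)))⁻¹ • (det3 ν (d k) (d (k + 1)) •
              d (k + 2)) := e4
          _ = (det3 ν (d k) (d (k + 1)))⁻¹ • (-(det3 ν (d (k + 1)) (d (k + 2)) • d k) -
              det3 ν (d (k + 2)) (d k) • d (k + 1)) := by rw [e3]
          _ = _ := by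
            rw [div_eq_inv_mul, div_eq_inv_mul]
            module
      have e5 := hover (u k) (u (k + 1)) (u (k + 2)) (hne2 k) (hne1 k) (hne1 (k + 1)) (harcs k)
        (harcs (k + 1)) _ _ e2
      have e6 : 0 < det3 ν (d (k + 1)) (d (k + 2)) / det3 ν (d k) (d (k + 1)) := by linarith
      have ih' : 0 < det3 ν (d k) (d (k + 1)) := ih
      exact (div_pos_iff_of_pos_right ih').1 e6
  have F3 : ∀ i j, j % n ≠ i % n → j % n ≠ (i + 1) % n → ¬ (0 ≤ E i j ∧ 0 ≤ E j (i + 1)) := by
    rintro i j hij hij' ⟨g1, g2⟩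
    have p0 := pos i
    have e1 := ident hν (hperp i) (hperp (i + 1)) (hperp j)
    have e0 : det3 ν (d i) (d (i + 1)) ≠ 0 := (show (0 : ℝ) < _ from p0).ne'
    have e2 : d j = (E j (i + 1) / E i (i + 1)) • d i + (E i j / E i (i + 1)) • d (i + 1) := by
      have e3 : det3 ν (d i) (d (i + 1)) • d j = E j (i + 1) • d i + E i j • d (i + 1) := by
        have a1 : det3 ν (d (i + 1)) (d j) = -E j (i + 1) := anti (i + 1) j
        have a2 : det3 ν (d j) (d i) = -E i j := anti j i
        rw [a1, a2] at e1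
        rw [← sub_eq_zero, ← e1]; module
      have e4 : d j = (det3 ν (d i) (d (i + 1)))⁻¹ • (det3 ν (d i) (d (i + 1)) • d j) := by
        rw [smul_smul, inv_mul_cancel₀ e0, one_smul]
      rw [e4, e3, smul_add, smul_smul, smul_smul, div_eq_inv_mul, div_eq_inv_mul]
    have e5 := hcone (u i) (u (i + 1)) (u j) _ _ (harcs i) (div_nonneg g2 p0.le)
      (div_nonneg g1 p0.le) e2 (fun h => hij ((hu _ _).1 h)) (fun h => hij' ((hu _ _).1 h))
      _ (harcs j)
    exact e5 (Finset.mem_insert_self _ _)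
  rcases core n hlen E anti pl per pos F3 with ⟨m, m1, m2⟩ | ⟨hn4, m, m1⟩
  · left
    obtain ⟨r, hr1, hr2⟩ := hcons (u m) (u (m + 1)) (u (m + 2)) (hne2 m) (hne1 m) (hne1 (m + 1))
      (huv m).symm (huv (m + 1)).symm (huv (m + 2)).symm (htri m) (htri (m + 1))
    have e1 := ident hν (hperp m) (hperp (m + 2)) (hperp (m + 1))
    have e0 : det3 ν (d m) (d (m + 2)) ≠ 0 := (show (0 : ℝ) < _ from m1).ne'
    refine ⟨u m, u (m + 1), u (m + 2), r, hr1, hr2, E (m + 1) (m + 2) / E m (m + 2),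
      E m (m + 1) / E m (m + 2), div_pos (pos (m + 1)) m1, div_pos (pos m) m1, ?_, ?_⟩
    · rw [← add_div, one_lt_div m1]; linarith
    · have e3 : det3 ν (d m) (d (m + 2)) • d (m + 1) =
          E (m + 1) (m + 2) • d m + E m (m + 1) • d (m + 2) := by
        have a1 : det3 ν (d (m + 2)) (d (m + 1)) = -E (m + 1) (m + 2) := anti _ _
        have a2 : det3 ν (d (m + 1)) (d m) = -E m (m + 1) := anti _ _
        rw [a1, a2] at e1
        rw [← sub_eq_zero, ← e1]; module
      have e4 : d (m + 1) = (det3 ν (d m) (d (m + 2)))⁻¹ • (det3 ν (d m) (d (m + 2)) •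
          d (m + 1)) := by
        rw [smul_smul, inv_mul_cancel₀ e0, one_smul]
      change d (m + 1) = _
      rw [e4, e3, smul_add, smul_smul, smul_smul, div_eq_inv_mul, div_eq_inv_mul]
  · right
    obtain ⟨r, hr1, hr2⟩ := hcons (u m) (u (m + 1)) (u (m + 2)) (hne2 m) (hne1 m) (hne1 (m + 1))
      (huv m).symm (huv (m + 1)).symm (huv (m + 2)).symm (htri m) (htri (m + 1))
    have hr3 : r.length = 1 := by omega
    obtain ⟨w, rfl⟩ := List.length_eq_one_iff.1 hr3
    refine ⟨u m, u (m + 1), u (m + 2), w, hr1, E m (m + 1) / E (m + 1) (m + 2),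
      div_pos (pos m) (pos (m + 1)), ?_⟩
    have e1 := ident hν (hperp m) (hperp (m + 2)) (hperp (m + 1))
    have a0 : det3 ν (d m) (d (m + 2)) = 0 := m1
    have a1 : det3 ν (d (m + 2)) (d (m + 1)) = -E (m + 1) (m + 2) := anti _ _
    have a2 : det3 ν (d (m + 1)) (d m) = -E m (m + 1) := anti _ _
    rw [a0, a1, a2, zero_smul, zero_add, neg_smul, neg_smul] at e1
    have p0 := pos (m + 1)
    have e3 : E (m + 1) (m + 2) • d m = -(E m (m + 1) • d (m + 2)) := by
      rw [← sub_eq_zero, ← neg_zero, ← e1]; module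
    have e4 : d m = (E (m + 1) (m + 2))⁻¹ • (E (m + 1) (m + 2) • d m) := by
      rw [smul_smul, inv_mul_cancel₀ p0.ne', one_smul]
    change d m = _
    rw [e4, e3, smul_neg, smul_smul, div_eq_inv_mul]

end Pool.Agent.TSP
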