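import Pool.Agent.TSP.P3Stmts

/-!
# HSP: the homeomorphism of a vertex split
-/

set_option autoImplicit false

namespace Pool.Agent.TSP

open Pool.Agent.TSM

namespace HSP_

section
variable {V : Type} [Fintype V] [DecidableEq V]

theorem le_one_of_body {T : Finset (Finset V)} (x : bodyOf T) (u : V) : x.1 u ≤ 1 := by
  obtain ⟨h0, h1, _⟩ := x.2
  rw [← h1]
  exact Finset.single_le_sum (f := x.1) (fun i _ => h0 i) (Finset.mem_univ u)

theorem tau_le {τ δ s : ℝ} (h0 : 0 ≤ τ) (hδ : δ ≤ 1 / 2) (h : τ * (1 - δ) ≤ s) (hs : s ≤ 1) :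
    τ ≤ 2 := by
  nlinarith

/-- base case -/
theorem base (hL : Stmt_Lsa) (hE : Stmt_Exh) (hS : Stmt_Spt) (T : Finset (Finset V)) (z a c m : V)
    (rest : List V) (hT : ∀ t ∈ T, t.card = 3) (hl : IsLink T z (a :: ([m] ++ c :: rest)))
    (ε : ℝ) (hε : 0 < ε) :
    ∃ h : bodyOf T ≃ₜ bodyOf (splitTri T z a c [m]),
      ∀ x u, |collapse z (h x).1 u - x.1 u| ≤ ε := by
  have hl' : IsLink T z (a :: m :: c :: rest) := hl
  have hnd := hl'.2.1
  have hz := hl'.2.2.1
  simp only [List.nodup_cons, List.mem_cons, not_or] at hnd hz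
  obtain ⟨⟨ham, hac, _⟩, ⟨hmc, _⟩, _⟩ := hnd
  obtain ⟨hza, hzm, hzc, _⟩ := hz
  obtain ⟨t1, t2, t3⟩ := (hL V T z _ hl').2.2.2.2.2.1 a m c rest hl'
  have hsp := (hS V T z a c [m] rest hT hl).1 m rfl
  obtain ⟨h0, hh1, hh2, _⟩ := relabel (some : V → Option V) (Option.some_injective V) T
  obtain ⟨δ, hδ0, hδ1, hδ2⟩ : ∃ δ : ℝ, 0 < δ ∧ δ ≤ 1 / 2 ∧ δ ≤ ε / 2 :=
    ⟨min (1 / 2) (ε / 2), by positivity, min_le_left _ _, min_le_right _ _⟩
  have hnn : ∀ t ∈ T.image (Finset.image (some : V → Option V)), none ∉ t := by
    intro t ht hn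
    obtain ⟨s, _, rfl⟩ := Finset.mem_image.1 ht
    obtain ⟨w, _, hw⟩ := Finset.mem_image.1 hn
    exact absurd hw (by simp)
  have key : ∀ t ∈ T.image (Finset.image (some : V → Option V)), some z ∈ t → some m ∈ t →
      t = {some z, some a, some m} ∨ t = {some z, some m, some c} := by
    intro t ht hzt hmt
    obtain ⟨s, hs, rfl⟩ := Finset.mem_image.1 ht
    have e1 : z ∈ s := by simpa using hzt
    have e2 : m ∈ s := by simpa using hmt
    rcases t3 s hs e1 e2 with rfl | rfl
    · left; simp [Finset.image_insert]
    · right; simp [Finset.image_insert]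
  have m1 : ({some z, some a, some m} : Finset (Option V)) ∈
      T.image (Finset.image (some : V → Option V)) :=
    Finset.mem_image.2 ⟨{z, a, m}, t1, by simp [Finset.image_insert]⟩
  have m2 : ({some z, some m, some c} : Finset (Option V)) ∈
      T.image (Finset.image (some : V → Option V)) :=
    Finset.mem_image.2 ⟨{z, m, c}, t2, by simp [Finset.image_insert]⟩
  have hmem : ∀ t, t ∈ splitTri T z a c [m] ↔
      (t ∈ T.image (Finset.image (some : V → Option V)) ∧ t ≠ {some z, some a, some m} ∧
        t ≠ {some z, some m, some c}) ∨ t = {none, some a, some m} ∨ t = {none, some m, some c} ∨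
        t = {some z, some a, none} ∨ t = {some z, none, some c} := by
    intro t
    rw [hsp]
    simp only [Finset.mem_union, Finset.mem_sdiff, Finset.mem_insert, Finset.mem_singleton, not_or]
  obtain ⟨h1, hh3⟩ := hE (Option V) (T.image (Finset.image (some : V → Option V)))
    (splitTri T z a c [m]) {some z, some m} {none}
    (fun o => if o = none then 1 else if o = some z then 1 - δ else δ)
    (by simp) (by simp) (by simp)
    (by
      intro i hi
      simp only [Finset.mem_insert, Finset.mem_singleton] at hi
      rcases hi with rfl | rfl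
      · simp; linarith
      · simp only [reduceCtorEq, if_false, Option.some.injEq]
        split_ifs <;> linarith)
    (by
      intro i hi
      simp only [Finset.mem_singleton] at hi
      subst hi
      simp)
    (by
      rw [Finset.sum_pair (by simpa using hzm), Finset.sum_singleton]
      simp [show m ≠ z from fun h => hzm h.symm])
    (by
      intro t ht hs
      exact hnn t ht (hs (by simp)))
    (by
      intro t ht hs
      have e1 : some z ∈ t := hs (by simp)
      have e2 : some m ∈ t := hs (by simp)
      rcases (hmem t).1 ht with ⟨a1, a2, a3⟩ | rfl | rfl | rfl | rfl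
      · rcases key t a1 e1 e2 with h | h
        · exact a2 h
        · exact a3 h
      · simp at e1; tauto
      · simp at e1; tauto
      · simp at e2; rcases e2 with h | h
        · exact hzm h.symm
        · exact ham h.symm
      · simp at e2; rcases e2 with h | h
        · exact hzm h.symm
        · exact hmc h)
    (by
      intro t ht hs i hi
      have e1 : some z ∈ t := hs (by simp)
      have e2 : some m ∈ t := hs (by simp)
      simp only [Finset.mem_insert, Finset.mem_singleton] at hi
      rcases key t ht e1 e2 with rfl | rfl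
      · rcases hi with rfl | rfl
        · refine ⟨{none, some a, some m}, (hmem _).2 (by tauto), ?_⟩
          intro w hw
          simp at hw ⊢
          tauto
        · refine ⟨{some z, some a, none}, (hmem _).2 (by tauto), ?_⟩
          intro w hw
          simp at hw ⊢
          tauto
      · rcases hi with rfl | rfl
        · refine ⟨{none, some m, some c}, (hmem _).2 (by tauto), ?_⟩
          intro w hw
          simp at hw ⊢
          tauto
        · refine ⟨{some z, none, some c}, (hmem _).2 (by tauto), ?_⟩
          intro w hw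
          simp at hw ⊢
          tauto)
    (by
      intro t ht hs
      refine ⟨t, (hmem t).2 (Or.inl ⟨ht, ?_, ?_⟩), subset_rfl⟩
      · rintro rfl
        exact hs (by intro w hw; simp at hw ⊢; tauto)
      · rintro rfl
        exact hs (by intro w hw; simp at hw ⊢; tauto))
    (by
      intro t ht hs j hj
      simp only [Finset.mem_singleton] at hj
      subst hj
      have e1 : none ∈ t := hs (by simp)
      rcases (hmem t).1 ht with ⟨a1, a2, a3⟩ | rfl | rfl | rfl | rfl
      · exact absurd e1 (hnn t a1)
      · refine ⟨_, m1, ?_⟩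
        intro w hw
        simp at hw ⊢
        tauto
      · refine ⟨_, m2, ?_⟩
        intro w hw
        simp at hw ⊢
        tauto
      · refine ⟨_, m1, ?_⟩
        intro w hw
        simp at hw ⊢
        tauto
      · refine ⟨_, m2, ?_⟩
        intro w hw
        simp at hw ⊢
        tauto)
    (by
      intro t ht hs
      rcases (hmem t).1 ht with ⟨a1, a2, a3⟩ | rfl | rfl | rfl | rfl
      · exact ⟨t, a1, subset_rfl⟩
      all_goals exact absurd (by simp) hs)
  refine ⟨h0.trans h1, fun x u => ?_⟩
  obtain ⟨τ, hτ0, hτ1, hτ2⟩ := hh3 (h0 x)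
  have b1 := hτ1 (some z) (by simp)
  simp only [reduceCtorEq, if_false, if_true] at b1
  have b2 : τ ≤ 2 := tau_le hτ0 hδ1 b1 (le_one_of_body (h0 x) _)
  have b3 : τ * δ ≤ ε := by nlinarith
  have b4 : 0 ≤ τ * δ := mul_nonneg hτ0 hδ0.le
  show |collapse z (h1 (h0 x)).1 u - x.1 u| ≤ ε
  unfold collapse
  rw [hτ2 (some u), hτ2 none, hh1 x u, hh2 x none (by simp)]
  by_cases huz : u = z
  · subst huz
    simp
    rw [abs_le]
    constructor <;> nlinarith
  · by_cases hum : u = m
    · subst hum
      simp [huz]
      rw [abs_of_nonneg hτ0, abs_of_pos hδ0]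
      exact b3
    · simp [huz, hum]
      linarith

/-- induction step -/
theorem step (hE : Stmt_Exh) (hS : Stmt_Spt) (T : Finset (Finset V)) (z a c m : V)
    (mid' rest : List V) (hm : mid' ≠ []) (hT : ∀ t ∈ T, t.card = 3)
    (hl : IsLink T z (a :: ((mid' ++ [m]) ++ c :: rest))) (ε : ℝ) (hε : 0 < ε)
    (ih : ∃ h : bodyOf T ≃ₜ bodyOf (splitTri T z a m mid'),
      ∀ x u, |collapse z (h x).1 u - x.1 u| ≤ ε / 2) :
    ∃ h : bodyOf T ≃ₜ bodyOf (splitTri T z a c (mid' ++ [m])),
      ∀ x u, |collapse z (h x).1 u - x.1 u| ≤ ε := by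
  obtain ⟨h0, hh0⟩ := ih
  obtain ⟨hsp, m1, m2, key, hnc, _⟩ := (hS V T z a c (mid' ++ [m]) rest hT hl).2 mid' m hm rfl
  have hnd := hl.2.1
  have hz := hl.2.2.1
  have hzm : z ≠ m := by
    rintro rfl
    exact hz (by simp)
  have hzc : z ≠ c := by
    rintro rfl
    exact hz (by simp)
  have hmc : m ≠ c := by
    rintro rfl
    rw [List.nodup_cons] at hnd
    have h2 := hnd.2
    rw [List.nodup_append] at h2
    exact h2.2.2 m (by simp) m (by simp) rfl
  obtain ⟨δ, hδ0, hδ1, hδ2⟩ : ∃ δ : ℝ, 0 < δ ∧ δ ≤ 1 / 2 ∧ δ ≤ ε / 4 :=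
    ⟨min (1 / 2) (ε / 4), by positivity, min_le_left _ _, min_le_right _ _⟩
  have hmem : ∀ t, t ∈ splitTri T z a c (mid' ++ [m]) ↔
      (t ∈ splitTri T z a m mid' ∧ t ≠ {some z, none, some m} ∧
        t ≠ {some z, some m, some c}) ∨ t = {some z, none, some c} ∨
        t = {none, some m, some c} := by
    intro t
    rw [hsp]
    unfold flipT
    simp only [Finset.mem_union, Finset.mem_sdiff, Finset.mem_insert, Finset.mem_singleton, not_or]
  obtain ⟨h1, hh3⟩ := hE (Option V) (splitTri T z a m mid')
    (splitTri T z a c (mid' ++ [m])) {some z, some m} {none, some c}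
    (fun o => if o = none ∨ o = some z then 1 - δ else δ)
    (by simp) (by simp)
    (by simp [hzc.symm, hmc.symm])
    (by
      intro i _
      split_ifs <;> linarith)
    (by
      intro i _
      split_ifs <;> linarith)
    (by
      rw [Finset.sum_pair (by simpa using hzm), Finset.sum_pair (by simp)]
      simp [hzm.symm, hzc.symm])
    (by
      intro t ht hs
      exact hnc t ht ⟨hs (by simp), hs (by simp)⟩)
    (by
      intro t ht hs
      have e1 : some z ∈ t := hs (by simp)
      have e2 : some m ∈ t := hs (by simp)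
      rcases (hmem t).1 ht with ⟨a1, a2, a3⟩ | rfl | rfl
      · rcases key t a1 e1 e2 with h | h
        · exact a2 h
        · exact a3 h
      · simp at e2; rcases e2 with h | h
        · exact hzm h.symm
        · exact hmc h
      · simp at e1; tauto)
    (by
      intro t ht hs i hi
      have e1 : some z ∈ t := hs (by simp)
      have e2 : some m ∈ t := hs (by simp)
      simp only [Finset.mem_insert, Finset.mem_singleton] at hi
      rcases key t ht e1 e2 with rfl | rfl <;> rcases hi with rfl | rfl
      · refine ⟨{none, some m, some c}, (hmem _).2 (by tauto), ?_⟩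
        intro w hw
        simp at hw ⊢
        tauto
      · refine ⟨{some z, none, some c}, (hmem _).2 (by tauto), ?_⟩
        intro w hw
        simp at hw ⊢
        tauto
      · refine ⟨{none, some m, some c}, (hmem _).2 (by tauto), ?_⟩
        intro w hw
        simp at hw ⊢
        tauto
      · refine ⟨{some z, none, some c}, (hmem _).2 (by tauto), ?_⟩
        intro w hw
        simp at hw ⊢
        tauto)
    (by
      intro t ht hs
      refine ⟨t, (hmem t).2 (Or.inl ⟨ht, ?_, ?_⟩), subset_rfl⟩
      · rintro rfl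
        exact hs (by intro w hw; simp at hw ⊢; tauto)
      · rintro rfl
        exact hs (by intro w hw; simp at hw ⊢; tauto))
    (by
      intro t ht hs j hj
      simp only [Finset.mem_insert, Finset.mem_singleton] at hj
      have e1 : none ∈ t := hs (by simp)
      have e2 : some c ∈ t := hs (by simp)
      rcases (hmem t).1 ht with ⟨a1, a2, a3⟩ | rfl | rfl
      · exact absurd ⟨e1, e2⟩ (hnc t a1)
      · rcases hj with rfl | rfl
        · refine ⟨_, m2, ?_⟩
          intro w hw
          simp at hw ⊢
          tauto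
        · refine ⟨_, m1, ?_⟩
          intro w hw
          simp at hw ⊢
          tauto
      · rcases hj with rfl | rfl
        · refine ⟨_, m2, ?_⟩
          intro w hw
          simp at hw ⊢
          tauto
        · refine ⟨_, m1, ?_⟩
          intro w hw
          simp at hw ⊢
          tauto)
    (by
      intro t ht hs
      rcases (hmem t).1 ht with ⟨a1, a2, a3⟩ | rfl | rfl
      · exact ⟨t, a1, subset_rfl⟩
      all_goals exact absurd (by intro w hw; simp at hw ⊢; tauto) hs)
  refine ⟨h0.trans h1, fun x u => ?_⟩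
  obtain ⟨τ, hτ0, hτ1, hτ2⟩ := hh3 (h0 x)
  have b1 := hτ1 (some z) (by simp)
  simp only [or_true, if_true] at b1
  have b2 : τ ≤ 2 := tau_le hτ0 hδ1 b1 (le_one_of_body (h0 x) _)
  have b3 : τ * δ ≤ ε / 2 := by nlinarith
  have b4 : 0 ≤ τ * δ := mul_nonneg hτ0 hδ0.le
  have b5 := hh0 x u
  show |collapse z (h1 (h0 x)).1 u - x.1 u| ≤ ε
  have b6 : |collapse z (h1 (h0 x)).1 u - collapse z (h0 x).1 u| ≤ ε / 2 := by
    unfold collapse
    rw [hτ2 (some u), hτ2 none]
    by_cases huz : u = z
    · subst huz
      simp [hzc]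
      rw [abs_le]
      constructor <;> linarith
    · by_cases hum : u = m
      · subst hum
        simp [huz, hmc]
        rw [abs_of_nonneg hτ0, abs_of_pos hδ0]
        exact b3
      · by_cases huc : u = c
        · subst huc
          simp [huz, hum]
          rw [abs_of_nonneg hτ0, abs_of_pos hδ0]
          exact b3
        · simp [huz, hum, huc]
          linarith
  rw [abs_le] at b5 b6 ⊢
  constructor <;> linarith [b5.1, b5.2, b6.1, b6.2]

end

end HSP_

theorem hsp_proof (h1 : Stmt_Lsa) (h2 : Stmt_Exh) (h3 : Stmt_Spt) : Stmt_Hsp := by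
  intro V _ _ T z a c mid
  induction mid using List.reverseRecOn generalizing c with
  | nil =>
    intro rest _ _ hm
    exact absurd rfl hm
  | append_singleton mid' m ih =>
    intro rest hT hl _ ε hε
    by_cases hm : mid' = []
    · subst hm
      exact HSP_.base h1 h2 h3 T z a c m rest hT hl ε hε
    · refine HSP_.step h2 h3 T z a c m mid' rest hm hT hl ε hε ?_
      refine ih m (c :: rest) hT ?_ hm (ε / 2) (by linarith)
      have e : mid' ++ m :: c :: rest = (mid' ++ [m]) ++ c :: rest := by simp
      rw [e]
      exact hl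

end Pool.Agent.TSP
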