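import Pool.Agent.TSP.P3Stmts

/-!
# TSP module LPP: all flat vertices can be removed
-/

set_option autoImplicit false

open scoped RealInnerProductSpace

namespace Pool.Agent.TSP

open Pool.Agent.TSM

namespace LPP_

variable {V : Type} [Fintype V] [DecidableEq V]

/-- the conclusion -/
def Concl (T : Finset (Finset V)) (p : V → E3) : Prop :=
  ∃ T' : Finset (Finset V), Fam T' ∧ Emb T' p ∧ T'.Nonempty ∧
    (∀ v, Used T' v → ¬ Flat T' p v) ∧
    ∃ h : bodyOf T ≃ₜ bodyOf T', ∀ x, lin p (h x).1 = lin p x.1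

theorem Concl.comp {T T1 : Finset (Finset V)} {p : V → E3} (h : Concl T1 p)
    (g : ∃ h : bodyOf T ≃ₜ bodyOf T1, ∀ x, lin p (h x).1 = lin p x.1) : Concl T p := by
  obtain ⟨T', h1, h2, h3, h4, k, hk⟩ := h
  obtain ⟨g, hg⟩ := g
  exact ⟨T', h1, h2, h3, h4, g.trans k, fun x => by
    rw [Homeomorph.trans_apply, hk, hg]⟩

/-- the number of used vertices -/
noncomputable def nu (T : Finset (Finset V)) : ℕ := {v | Used T v}.ncard

theorem nu_lt {T T1 : Finset (Finset V)} {v : V} (hv : Used T v)
    (h : ∀ u, Used T1 u ↔ (Used T u ∧ u ≠ v)) : nu T1 < nu T := by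
  refine Set.ncard_lt_ncard ⟨fun u hu => ((h u).1 hu).1, fun hc => ?_⟩ (Set.toFinite _)
  exact ((h v).1 (hc hv)).2 rfl

theorem nu_eq {T T1 : Finset (Finset V)} (h : ∀ u, Used T1 u ↔ Used T u) : nu T1 = nu T := by
  have : {v | Used T1 v} = {v | Used T v} := by
    ext u
    exact h u
  rw [nu, nu, this]

theorem inner (h1 : Stmt_Lsa) (h2 : Stmt_Ge3) (h3 : Stmt_Geo) (h4 : Stmt_Flp) (h5 : Stmt_Rma)
    (h6 : Stmt_Rmb) (p : V → E3) (N : ℕ)
    (IH : ∀ T : Finset (Finset V), nu T < N → Fam T → Emb T p → T.Nonempty → Concl T p)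
    (n : ℕ) : ∀ (T : Finset (Finset V)) (v : V) (l : List V), nu T = N → Fam T → Emb T p →
      Used T v → Flat T p v → IsLink T v l → l.length = n → Concl T p := by
  induction n using Nat.strong_induction_on with
  | _ n ih =>
    intro T v l hN hF hE hv hflat hl hn
    have hlen : 3 ≤ l.length := hl.1
    by_cases h3l : l.length = 3
    · obtain ⟨a, b, c, rfl⟩ := List.length_eq_three.1 h3l
      obtain ⟨la, lb, lc, ha, hb, hc, hs, hp⟩ := h2 V T p v a b c hl (hE v) hflat
      obtain ⟨g1, g2, g3, g4⟩ := h5 V T p v a b c la lb lc hF hE hl ha hb hc hs hp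
      refine Concl.comp (IH _ ?_ g1 g2 ⟨{a, b, c}, ?_⟩) g4
      · rw [← hN]
        exact nu_lt hv g3
      · simp [rm3T]
    · have h4l : 4 ≤ l.length := by omega
      rcases h3 V T p v l hl h4l (hE v) hflat with
        ⟨B, C, D, r, hl', hr, α, β, hα, hβ, hαβ, hpC⟩ | ⟨a, b, c, d, hl', κ, hκ, hpa⟩
      · have hs0 : 0 < α + β := by linarith
        have hpoint : ((α + β - 1) / (α + β)) • p v + (1 / (α + β)) • p C =
            (α / (α + β)) • p B + (β / (α + β)) • p D := by
          have e : p C = p v + (α • (p B - p v) + β • (p D - p v)) := by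
            rw [← hpC]
            abel
          rw [e]
          have e1 : (α + β - 1) / (α + β) + 1 / (α + β) - α / (α + β) - β / (α + β) = 0 := by
            field_simp
            ring
          have e2 : ((α + β - 1) / (α + β)) • p v +
              (1 / (α + β)) • (p v + (α • (p B - p v) + β • (p D - p v))) =
              ((α + β - 1) / (α + β) + 1 / (α + β) - α / (α + β) - β / (α + β)) • p v +
                ((α / (α + β)) • p B + (β / (α + β)) • p D) := by
            module
          rw [e2, e1, zero_smul, zero_add]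
        obtain ⟨g1, g2, g3, g4, g5⟩ := h4 V T p v B C D r ((α + β - 1) / (α + β))
          (α / (α + β)) (1 / (α + β)) (β / (α + β)) hF hE hl'
          (div_pos (by linarith) hs0) (div_pos hα hs0) (div_pos one_pos hs0) (div_pos hβ hs0)
          (by field_simp; ring) (by field_simp) hpoint
        refine Concl.comp (ih (B :: D :: r).length ?_ _ v (B :: D :: r) ?_ g1 g2
          ((g3 v).2 hv) ?_ g4 rfl) g5
        · simp only [List.length_cons]
          omega
        · rw [nu_eq g3, hN]
        · obtain ⟨ν, hν, hw⟩ := hflat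
          refine ⟨ν, hν, fun w hadj => hw w ?_⟩
          have m1 : w ∈ B :: D :: r := ((h1 V _ v _ g4).2.2.1 w).2 hadj
          have m2 : w ∈ B :: C :: D :: r := by
            simp only [List.mem_cons] at m1 ⊢
            tauto
          exact ((h1 V _ v _ hl').2.2.1 w).1 m2
      · have hs0 : 0 < 1 + κ := by linarith
        have hpoint : p v = (1 / (1 + κ)) • p a + (κ / (1 + κ)) • p c := by
          have e : p a = p v + -(κ • (p c - p v)) := by
            rw [← hpa]
            abel
          rw [e]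
          have e1 : 1 / (1 + κ) + κ / (1 + κ) = 1 := by
            field_simp
          have e2 : (1 / (1 + κ)) • (p v + -(κ • (p c - p v))) + (κ / (1 + κ)) • p c =
              (1 / (1 + κ) + κ / (1 + κ)) • p v := by
            module
          rw [e2, e1, one_smul]
        obtain ⟨g1, g2, g3, g4⟩ := h6 V T p v a b c d (1 / (1 + κ)) (κ / (1 + κ)) hF hE hl'
          (div_pos one_pos hs0) (div_pos hκ hs0) (by field_simp) hpoint
        refine Concl.comp (IH _ ?_ g1 g2 ⟨{a, b, c}, ?_⟩) g4
        · rw [← hN]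
          exact nu_lt hv g3
        · simp [rm4T]

theorem outer (h1 : Stmt_Lsa) (h2 : Stmt_Ge3) (h3 : Stmt_Geo) (h4 : Stmt_Flp) (h5 : Stmt_Rma)
    (h6 : Stmt_Rmb) (p : V → E3) (N : ℕ) :
    ∀ T : Finset (Finset V), nu T = N → Fam T → Emb T p → T.Nonempty → Concl T p := by
  induction N using Nat.strong_induction_on with
  | _ N ih =>
    intro T hN hF hE hT
    by_cases hfl : ∀ v, Used T v → ¬ Flat T p v
    · exact ⟨T, hF, hE, hT, hfl, Homeomorph.refl _, fun x => rfl⟩
    · push Not at hfl
      obtain ⟨v, hv, hflat⟩ := hfl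
      obtain ⟨l, hl⟩ := hF.link v hv
      exact inner h1 h2 h3 h4 h5 h6 p N (fun T' hT' => ih _ hT' T' rfl) l.length T v l hN hF hE hv
        hflat hl rfl

end LPP_

theorem lpp_proof (h1 : Stmt_Lsa) (h2 : Stmt_Ge3) (h3 : Stmt_Geo) (h4 : Stmt_Flp)
    (h5 : Stmt_Rma) (h6 : Stmt_Rmb) : Stmt_Lpp := by
  intro V _ _ T p hF hE hT
  exact LPP_.outer h1 h2 h3 h4 h5 h6 p _ T rfl hF hE hT

end Pool.Agent.TSP
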