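import Pool.Agent.TSP.P3Stmts

/-!
# TSP.LSA: rotation, reversal and consecutive vertices of link lists
-/

set_option autoImplicit false

namespace Pool.Agent.TSP

open Pool.Agent.TSM

namespace LSA_

variable {V : Type}

lemma conseq_snoc (l : List V) (a b : V) :
    conseq (l ++ [a] ++ [b]) = conseq (l ++ [a]) ++ [(a, b)] := by
  induction l with
  | nil => simp [conseq]
  | cons c l ih =>
    cases l with
    | nil => simp [conseq]
    | cons d l =>
      simp only [List.cons_append, conseq] at ih ⊢
      rw [ih]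

lemma mem_fst (l : List V) (z x y : V) (h : (x, y) ∈ conseq (l ++ [z])) : x ∈ l := by
  induction l with
  | nil => simp [conseq] at h
  | cons c l ih =>
    cases l with
    | nil =>
      simp only [List.cons_append, List.nil_append, conseq, List.mem_cons, Prod.mk.injEq,
        List.not_mem_nil, or_false] at h
      simp [h.1]
    | cons d l =>
      simp only [List.cons_append, conseq, List.mem_cons, Prod.mk.injEq] at h
      rcases h with h | h
      · simp [h.1]
      · exact List.mem_cons_of_mem _ (ih (by simpa only [List.cons_append] using h))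

lemma mem_snd (l : List V) (a x y : V) (h : (x, y) ∈ conseq (a :: l)) : y ∈ l := by
  induction l generalizing a with
  | nil => simp [conseq] at h
  | cons c l ih =>
    simp only [conseq, List.mem_cons, Prod.mk.injEq] at h
    rcases h with h | h
    · simp [h.2]
    · exact List.mem_cons_of_mem _ (ih c h)

lemma conseq_reverse (l : List V) (x y : V) : (x, y) ∈ conseq l.reverse ↔ (y, x) ∈ conseq l := by
  induction l with
  | nil => simp [conseq]
  | cons a l ih =>
    cases l with
    | nil => simp [conseq]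
    | cons b l =>
      rw [List.reverse_cons, List.reverse_cons, conseq_snoc, ← List.reverse_cons]
      simp only [List.mem_append, ih, conseq, List.mem_cons, Prod.mk.injEq, List.not_mem_nil,
        or_false]
      tauto

/-- rotation by one step -/
lemma cyc_rot (a : V) (l : List V) (p : V × V) : p ∈ cyc (l ++ [a]) ↔ p ∈ cyc (a :: l) := by
  cases l with
  | nil => rfl
  | cons b l =>
    have h1 : cyc (b :: l ++ [a]) = conseq (b :: l ++ [a] ++ [b]) := rfl
    have h2 : cyc (a :: b :: l) = (a, b) :: conseq (b :: l ++ [a]) := rfl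
    rw [h1, h2, conseq_snoc]
    simp only [List.mem_append, List.mem_cons, List.not_mem_nil, or_false]
    tauto

/-- full rotation -/
lemma cyc_rot' (x : V) (s : List V) : ∀ (t : List V) (p : V × V),
    p ∈ cyc (x :: (t ++ s)) ↔ p ∈ cyc (s ++ x :: t) := by
  induction s with
  | nil => intro t p; simp
  | cons a s ih =>
    intro t p
    have h1 : t ++ a :: s = (t ++ [a]) ++ s := by simp
    have h2 : s ++ x :: (t ++ [a]) = (s ++ x :: t) ++ [a] := by simp
    rw [h1, ih, h2, cyc_rot]
    rfl

lemma cyc_rev (l : List V) (x y : V) : (x, y) ∈ cyc l.reverse ↔ (y, x) ∈ cyc l := by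
  cases l with
  | nil => simp [cyc]
  | cons a l =>
    rw [List.reverse_cons, cyc_rot]
    have h1 : cyc (a :: l.reverse) = conseq ((a :: l ++ [a]).reverse) := by
      simp [cyc]
    have h2 : cyc (a :: l) = conseq (a :: l ++ [a]) := rfl
    rw [h1, h2, conseq_reverse]

lemma mem_of_cyc (l : List V) (x y : V) (h : (x, y) ∈ cyc l) : x ∈ l ∧ y ∈ l := by
  cases l with
  | nil => simp [cyc] at h
  | cons a l =>
    have h1 : (x, y) ∈ conseq (a :: (l ++ [a])) := h
    refine ⟨mem_fst (a :: l) a x y (by simpa using h1), ?_⟩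
    have := mem_snd _ _ _ _ h1
    simp only [List.mem_append, List.mem_cons, List.not_mem_nil, or_false] at this ⊢
    tauto

variable [DecidableEq V] {T : Finset (Finset V)} {u : V}

lemma rotate {l : List V} (hl : IsLink T u l) {x : V} (hx : x ∈ l) :
    ∃ l', IsLink T u (x :: l') ∧ l'.length + 1 = l.length ∧
      ∀ p, p ∈ cyc (x :: l') ↔ p ∈ cyc l := by
  obtain ⟨s, t, rfl⟩ := List.append_of_mem hx
  obtain ⟨h1, h2, h3, h4⟩ := hl
  have hp : (x :: (t ++ s)).Perm (s ++ x :: t) := by
    have a1 : (s ++ x :: t).Perm (x :: (s ++ t)) := List.perm_middle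
    have a2 : (x :: (s ++ t)).Perm (x :: (t ++ s)) := List.Perm.cons _ List.perm_append_comm
    exact (a1.trans a2).symm
  have hlen : (t ++ s).length + 1 = (s ++ x :: t).length := by simp; omega
  refine ⟨t ++ s, ⟨?_, ?_, ?_, ?_⟩, hlen, cyc_rot' x s t⟩
  · rw [hp.length_eq]; exact h1
  · exact hp.nodup_iff.2 h2
  · rw [hp.mem_iff]; exact h3
  · intro t'
    rw [h4]
    simp only [cyc_rot' x s t]

lemma reverse {l : List V} (hl : IsLink T u l) : IsLink T u l.reverse := by
  obtain ⟨h1, h2, h3, h4⟩ := hl
  refine ⟨by simpa using h1, by simpa using h2, by simpa using h3, ?_⟩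
  intro t
  rw [h4]
  constructor
  · rintro ⟨x, y, hxy, rfl⟩
    exact ⟨y, x, (cyc_rev l y x).2 hxy, by rw [Finset.pair_comm x y]⟩
  · rintro ⟨x, y, hxy, rfl⟩
    exact ⟨y, x, (cyc_rev l x y).1 hxy, by rw [Finset.pair_comm x y]⟩

lemma rot_pair {l : List V} (hl : IsLink T u l) {x y : V} (hxy : (x, y) ∈ cyc l) :
    ∃ r, IsLink T u (x :: y :: r) ∧ r.length + 2 = l.length := by
  obtain ⟨l', h1, h2, h3⟩ := rotate hl (mem_of_cyc l x y hxy).1
  have h4 := (h3 (x, y)).2 hxy
  cases l' with
  | nil =>
    have := hl.1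
    simp at h2
    omega
  | cons b l' =>
    have h5 : (x, y) ∈ (x, b) :: conseq (b :: l' ++ [x]) := h4
    rcases List.mem_cons.1 h5 with h6 | h6
    · have : y = b := (Prod.mk.inj h6).2
      subst this
      exact ⟨l', h1, by simpa using h2⟩
    · exact absurd (mem_fst _ _ _ _ h6) (List.nodup_cons.1 h1.2.1).1

lemma edge {l : List V} (hl : IsLink T u l) {x y : V} (hxy : x ≠ y) (hux : u ≠ x) (huy : u ≠ y)
    (ht : ({u, x, y} : Finset V) ∈ T) : ∃ r, IsLink T u (x :: y :: r) ∧ r.length + 2 = l.length := by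
  obtain ⟨a, b, hab, he⟩ := (hl.2.2.2 {u, x, y}).1 ⟨ht, by simp⟩
  have hm := mem_of_cyc l a b hab
  have hua : u ≠ a := fun h => hl.2.2.1 (h ▸ hm.1)
  have hub : u ≠ b := fun h => hl.2.2.1 (h ▸ hm.2)
  have hxm : x ∈ ({u, a, b} : Finset V) := by rw [← he]; simp
  have hym : y ∈ ({u, a, b} : Finset V) := by rw [← he]; simp
  simp only [Finset.mem_insert, Finset.mem_singleton] at hxm hym
  rcases hxm with h | h | h
  · exact absurd h.symm hux
  · rcases hym with h' | h' | h'
    · exact absurd h'.symm huy
    · exact absurd (h.trans h'.symm) hxy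
    · subst h; subst h'
      exact rot_pair hl hab
  · rcases hym with h' | h' | h'
    · exact absurd h'.symm huy
    · subst h; subst h'
      obtain ⟨r, h1, h2⟩ := rot_pair (reverse hl) ((cyc_rev l _ _).2 hab)
      exact ⟨r, h1, by simpa using h2⟩
    · exact absurd (h.trans h'.symm) hxy

lemma three {x m y : V} {r : List V} (hl : IsLink T u (x :: m :: y :: r)) :
    ({u, x, m} : Finset V) ∈ T ∧ ({u, m, y} : Finset V) ∈ T ∧
      ∀ t ∈ T, u ∈ t → m ∈ t → t = {u, x, m} ∨ t = {u, m, y} := by
  have hc : cyc (x :: m :: y :: r) = (x, m) :: (m, y) :: conseq (y :: r ++ [x]) := rfl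
  obtain ⟨h1, h2, h3, h4⟩ := hl
  rw [hc] at h4
  have hnd := h2
  simp only [List.nodup_cons, List.mem_cons, not_or] at hnd
  obtain ⟨⟨hxm, hxy, hxr⟩, ⟨hmy, hmr⟩, ⟨hyr, hr⟩⟩ := hnd
  simp only [List.mem_cons, not_or] at h3
  refine ⟨((h4 _).2 ⟨x, m, by simp, rfl⟩).1, ((h4 _).2 ⟨m, y, by simp, rfl⟩).1, ?_⟩
  intro t ht hut hmt
  obtain ⟨a, b, hab, rfl⟩ := (h4 t).1 ⟨ht, hut⟩
  simp only [Finset.mem_insert, Finset.mem_singleton] at hmt
  simp only [List.mem_cons, Prod.mk.injEq] at hab
  rcases hab with ⟨rfl, rfl⟩ | ⟨rfl, rfl⟩ | hab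
  · left; rfl
  · right; rfl
  · exfalso
    rcases hmt with h | h | h
    · exact h3.2.1 h.symm
    · subst h
      have := mem_fst (y :: r) x _ _ hab
      simp only [List.mem_cons] at this
      tauto
    · subst h
      have := mem_snd (r ++ [x]) y _ _ hab
      simp only [List.mem_append, List.mem_cons, List.not_mem_nil, or_false] at this
      rcases this with h5 | h5
      · exact hmr h5
      · exact hxm h5.symm

lemma arcs_iff {l : List V} (hl : IsLink T u l) (s : Finset V) :
    s ∈ arcs T u ↔ ∃ x y, (x, y) ∈ cyc l ∧ s = {x, y} := by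
  have herase : ∀ x y, (x, y) ∈ cyc l → ({u, x, y} : Finset V).erase u = {x, y} := by
    intro x y hxy
    have hm := mem_of_cyc l x y hxy
    apply Finset.erase_insert
    simp only [Finset.mem_insert, Finset.mem_singleton, not_or]
    exact ⟨fun h => hl.2.2.1 (h ▸ hm.1), fun h => hl.2.2.1 (h ▸ hm.2)⟩
  rw [arcs, Finset.mem_image]
  constructor
  · rintro ⟨t, ht, rfl⟩
    rw [Finset.mem_filter] at ht
    obtain ⟨x, y, hxy, rfl⟩ := (hl.2.2.2 t).1 ht
    exact ⟨x, y, hxy, herase x y hxy⟩
  · rintro ⟨x, y, hxy, rfl⟩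
    exact ⟨{u, x, y}, by rw [Finset.mem_filter]; exact (hl.2.2.2 _).2 ⟨x, y, hxy, rfl⟩,
      herase x y hxy⟩

end LSA_

open LSA_

theorem lsa_proof : Stmt_Lsa := by
  intro V _ T u l hl
  refine ⟨?_, reverse hl, ?_, ?_, ?_, ?_, arcs_iff hl, ?_⟩
  · intro x hx
    obtain ⟨l', h1, h2, -⟩ := rotate hl hx
    exact ⟨l', h1, h2⟩
  · intro x
    constructor
    · intro hx
      obtain ⟨l', h1, h2, h3⟩ := rotate hl hx
      cases l' with
      | nil =>
        have := hl.1
        simp at h2
        omega
      | cons b l' =>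
        have h4 := (h1.2.2.2 {u, x, b}).2 ⟨x, b, List.mem_cons_self, rfl⟩
        exact ⟨fun h => hl.2.2.1 (h ▸ hx), {u, x, b}, h4.1, h4.2, by simp⟩
    · rintro ⟨hne, t, ht, hut, hxt⟩
      obtain ⟨a, b, hab, rfl⟩ := (hl.2.2.2 t).1 ⟨ht, hut⟩
      have hm := mem_of_cyc l a b hab
      simp only [Finset.mem_insert, Finset.mem_singleton] at hxt
      rcases hxt with h | h | h
      · exact absurd h.symm hne
      · rw [h]; exact hm.1
      · rw [h]; exact hm.2
  · intro x y hxy hux huy ht
    exact edge hl hxy hux huy ht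
  · intro x m y hxy hxm hmy hux hum huy h1 h2
    obtain ⟨r, h3, h4⟩ := edge hl hxm hux hum h1
    cases r with
    | nil =>
      have := hl.1
      simp at h4
      omega
    | cons b r =>
      have h5 := three h3
      rcases h5.2.2 _ h2 (by simp) (by simp) with h6 | h6
      · exfalso
        have : y ∈ ({u, x, m} : Finset V) := by rw [← h6]; simp
        simp only [Finset.mem_insert, Finset.mem_singleton] at this
        rcases this with h | h | h
        · exact huy h.symm
        · exact hxy h.symm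
        · exact hmy h.symm
      · have : y ∈ ({u, m, b} : Finset V) := by rw [← h6]; simp
        simp only [Finset.mem_insert, Finset.mem_singleton] at this
        rcases this with h | h | h
        · exact absurd h.symm huy
        · exact absurd h.symm hmy
        · subst h
          exact ⟨r, h3, by simpa using h4⟩
  · intro x m y r h
    exact three h
  · intro s hs
    obtain ⟨x, y, hxy, rfl⟩ := (arcs_iff hl s).1 hs
    have hm := mem_of_cyc l x y hxy
    obtain ⟨r, h1, -⟩ := rot_pair hl hxy
    have hne : x ≠ y := by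
      have := h1.2.1
      simp only [List.nodup_cons, List.mem_cons, not_or] at this
      exact this.1.1
    refine ⟨Finset.card_pair hne, ?_⟩
    intro z hz
    simp only [Finset.mem_insert, Finset.mem_singleton] at hz
    rcases hz with h | h
    · rw [h]; exact hm.1
    · rw [h]; exact hm.2

end Pool.Agent.TSP
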