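import Pool.Agent.TSP.P3Stmts

/-!
# LSB: the four local changes of a link list
-/

set_option autoImplicit false

namespace Pool.Agent.TSP

namespace LSB_

open Pool.Agent.TSP

section
variable {α : Type}

theorem conseq_mem : ∀ (l : List α) (a b : α), (a, b) ∈ conseq l → a ∈ l ∧ b ∈ l
  | [], a, b, h => by simp [conseq] at h
  | [c], a, b, h => by simp [conseq] at h
  | c :: d :: l, a, b, h => by
    rw [conseq, List.mem_cons] at h
    rcases h with h | h
    · obtain ⟨rfl, rfl⟩ := Prod.mk.inj h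
      simp
    · obtain ⟨h1, h2⟩ := conseq_mem (d :: l) a b h
      exact ⟨List.mem_cons_of_mem _ h1, List.mem_cons_of_mem _ h2⟩

/-- the first components are not the last element -/
theorem conseq_fst : ∀ (l : List α) (x a b : α), (a, b) ∈ conseq (l ++ [x]) → a ∈ l
  | [], x, a, b, h => by simp [conseq] at h
  | [c], x, a, b, h => by
    simp only [List.cons_append, List.nil_append, conseq, List.mem_cons, List.not_mem_nil,
      or_false] at h
    obtain ⟨rfl, rfl⟩ := Prod.mk.inj h
    simp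
  | c :: d :: l, x, a, b, h => by
    simp only [List.cons_append] at h
    rw [conseq, List.mem_cons] at h
    rcases h with h | h
    · obtain ⟨rfl, rfl⟩ := Prod.mk.inj h
      simp
    · have h' : (a, b) ∈ conseq ((d :: l) ++ [x]) := h
      exact List.mem_cons_of_mem _ (conseq_fst (d :: l) x a b h')

theorem cyc_mem (l : List α) (a b : α) (h : (a, b) ∈ cyc l) : a ∈ l ∧ b ∈ l := by
  cases l with
  | nil => simp [cyc] at h
  | cons c l =>
    have h' : (a, b) ∈ conseq (c :: l ++ [c]) := h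
    obtain ⟨h1, h2⟩ := conseq_mem _ a b h'
    simp only [List.mem_append, List.mem_singleton] at h1 h2
    constructor
    · rcases h1 with h1 | rfl
      · exact h1
      · simp
    · rcases h2 with h2 | rfl
      · exact h2
      · simp

/-- the common part of the cyclic pairs -/
theorem cyc_three (x m y : α) (r : List α) (q : α × α) :
    q ∈ cyc (x :: m :: y :: r) ↔ q = (x, m) ∨ q = (m, y) ∨ q ∈ conseq (y :: (r ++ [x])) := by
  have h : cyc (x :: m :: y :: r) = (x, m) :: (m, y) :: conseq (y :: (r ++ [x])) := by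
    simp [cyc, conseq]
  rw [h, List.mem_cons, List.mem_cons]

theorem cyc_two (x y : α) (r : List α) (q : α × α) :
    q ∈ cyc (x :: y :: r) ↔ q = (x, y) ∨ q ∈ conseq (y :: (r ++ [x])) := by
  have h : cyc (x :: y :: r) = (x, y) :: conseq (y :: (r ++ [x])) := by
    simp [cyc, conseq]
  rw [h, List.mem_cons]

theorem common_mem {x y : α} {r : List α} {a b : α} (h : (a, b) ∈ conseq (y :: (r ++ [x]))) :
    (a = x ∨ a = y ∨ a ∈ r) ∧ (b = x ∨ b = y ∨ b ∈ r) := by
  obtain ⟨h1, h2⟩ := conseq_mem _ a b h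
  simp only [List.mem_cons, List.mem_append, List.not_mem_nil, or_false] at h1 h2
  constructor <;> tauto

end

section
variable {V : Type} [DecidableEq V]

theorem common_ne {x y : V} {r : List V} (hr : r ≠ []) (hn : (x :: y :: r).Nodup) {a b : V}
    (h : (a, b) ∈ conseq (y :: (r ++ [x]))) : ({a, b} : Finset V) ≠ {x, y} := by
  intro he
  cases r with
  | nil => exact hr rfl
  | cons d r =>
    simp only [List.nodup_cons, List.mem_cons, not_or] at hn
    obtain ⟨⟨hxy, hxd, hxr⟩, ⟨hyd, hyr⟩, -⟩ := hn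
    have h1 : a ∈ y :: d :: r := conseq_fst (y :: d :: r) x a b h
    have hax : a ≠ x := by
      rintro rfl
      simp only [List.mem_cons] at h1
      tauto
    have ha : a ∈ ({x, y} : Finset V) := by
      rw [← he]
      simp
    have hx : x ∈ ({a, b} : Finset V) := by
      rw [he]
      simp
    simp only [Finset.mem_insert, Finset.mem_singleton] at ha hx
    have hay : a = y := by tauto
    have hbx : x = b := by
      rcases hx with h | h
      · exact absurd h.symm hax
      · exact h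
    rw [List.cons_append, conseq, List.mem_cons] at h
    rcases h with h | h
    · have := (Prod.mk.inj h).2
      exact hxd (hbx.trans this)
    · have h2 : a ∈ d :: r := conseq_fst (d :: r) x a b h
      rw [hay, List.mem_cons] at h2
      tauto

theorem erase_three {u a b : V} (ha : u ≠ a) (hb : u ≠ b) :
    ({u, a, b} : Finset V).erase u = {a, b} := by
  apply Finset.erase_insert
  simp [ha, hb]

theorem arcs_iff {T : Finset (Finset V)} {u : V} {l : List V} (h : IsLink T u l)
    (s : Finset V) : s ∈ arcs T u ↔ ∃ a b, (a, b) ∈ cyc l ∧ s = {a, b} := by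
  have hne : ∀ a, a ∈ l → u ≠ a := by
    rintro a ha rfl
    exact h.2.2.1 ha
  unfold arcs
  simp only [Finset.mem_image, Finset.mem_filter]
  constructor
  · rintro ⟨t, ht, rfl⟩
    obtain ⟨a, b, hab, rfl⟩ := (h.2.2.2 t).1 ht
    obtain ⟨h1, h2⟩ := cyc_mem _ a b hab
    exact ⟨a, b, hab, erase_three (hne a h1) (hne b h2)⟩
  · rintro ⟨a, b, hab, rfl⟩
    obtain ⟨h1, h2⟩ := cyc_mem _ a b hab
    exact ⟨{u, a, b}, (h.2.2.2 _).2 ⟨a, b, hab, rfl⟩, erase_three (hne a h1) (hne b h2)⟩

theorem part1 (T T' : Finset (Finset V)) (u : V) (l : List V) (h : IsLink T u l)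
    (hL : Local T T' ∅ ∅ u) : IsLink T' u l ∧ arcs T' u = arcs T u := by
  have hT : ∀ t : Finset V, (t ∈ T' ∧ u ∈ t) ↔ (t ∈ T ∧ u ∈ t) := by
    intro t
    constructor
    · rintro ⟨h1, h2⟩
      have := (hL t h2).1 h1
      simp only [Finset.notMem_empty, not_false_eq_true, and_true, or_false] at this
      exact ⟨this, h2⟩
    · rintro ⟨h1, h2⟩
      refine ⟨(hL t h2).2 ?_, h2⟩
      simp [h1]
  constructor
  · refine ⟨h.1, h.2.1, h.2.2.1, fun t => ?_⟩
    rw [hT t]
    exact h.2.2.2 t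
  · unfold arcs
    congr 1
    ext t
    simp only [Finset.mem_filter]
    exact hT t

/-- the changed part -/
theorem link_change {T T' : Finset (Finset V)} {u : V} {l l' : List V} {R S : Finset (Finset V)}
    (C P P' : V × V → Prop) (h : IsLink T u l) (hl' : 3 ≤ l'.length) (hn' : l'.Nodup)
    (hu' : u ∉ l') (hc : ∀ q, q ∈ cyc l ↔ P q ∨ C q) (hc' : ∀ q, q ∈ cyc l' ↔ P' q ∨ C q)
    (hR : ∀ t, t ∈ R ↔ ∃ a b, P (a, b) ∧ t = {u, a, b})
    (hS : ∀ t, t ∈ S ↔ ∃ a b, P' (a, b) ∧ t = {u, a, b})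
    (hd : ∀ a b, C (a, b) → ({u, a, b} : Finset V) ∉ R)
    (hL : Local T T' R S u) : IsLink T' u l' := by
  refine ⟨hl', hn', hu', fun t => ?_⟩
  constructor
  · rintro ⟨h1, h2⟩
    rcases (hL t h2).1 h1 with ⟨h3, h4⟩ | h3
    · obtain ⟨a, b, hab, rfl⟩ := (h.2.2.2 t).1 ⟨h3, h2⟩
      rcases (hc _).1 hab with h5 | h5
      · exact absurd ((hR _).2 ⟨a, b, h5, rfl⟩) h4
      · exact ⟨a, b, (hc' _).2 (Or.inr h5), rfl⟩
    · obtain ⟨a, b, h4, rfl⟩ := (hS t).1 h3
      exact ⟨a, b, (hc' _).2 (Or.inl h4), rfl⟩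
  · rintro ⟨a, b, hab, rfl⟩
    have hu : u ∈ ({u, a, b} : Finset V) := by simp
    refine ⟨(hL _ hu).2 ?_, hu⟩
    rcases (hc' _).1 hab with h5 | h5
    · exact Or.inr ((hS _).2 ⟨a, b, h5, rfl⟩)
    · refine Or.inl ⟨?_, hd a b h5⟩
      exact ((h.2.2.2 _).2 ⟨a, b, (hc _).2 (Or.inr h5), rfl⟩).1

theorem three_ne {u a b c d : V} (hc : c ≠ u) (hd : d ≠ u) (ha : a ≠ u) (hb : b ≠ u)
    (h : ({u, a, b} : Finset V) = {u, c, d}) : ({a, b} : Finset V) = {c, d} := by
  have h1 := erase_three ha.symm hb.symm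
  have h2 := erase_three hc.symm hd.symm
  rw [← h1, h, h2]

/-- deletion / insertion -/
theorem arcs_change {T T' : Finset (Finset V)} {u x m y : V} {r : List V}
    (h : IsLink T u (x :: m :: y :: r)) (h' : IsLink T' u (x :: y :: r)) (hr : r ≠ []) :
    arcs T u = ((arcs T' u).erase {x, y}) ∪ {{x, m}, {m, y}} ∧ {x, y} ∈ arcs T' u ∧
      ∀ s ∈ arcs T' u, m ∉ s := by
  have hn := h.2.1
  have hn' := h'.2.1
  simp only [List.nodup_cons, List.mem_cons, not_or] at hn
  obtain ⟨⟨hxm, hxy, hxr⟩, ⟨hmy, hmr⟩, hyr, hrn⟩ := hn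
  refine ⟨?_, ?_, ?_⟩
  · ext s
    rw [arcs_iff h, Finset.mem_union, Finset.mem_erase, arcs_iff h']
    simp only [cyc_three x m y r, cyc_two x y r, Finset.mem_insert, Finset.mem_singleton]
    constructor
    · rintro ⟨a, b, hab | hab | hab, rfl⟩
      · obtain ⟨rfl, rfl⟩ := Prod.mk.inj hab
        exact Or.inr (Or.inl rfl)
      · obtain ⟨rfl, rfl⟩ := Prod.mk.inj hab
        exact Or.inr (Or.inr rfl)
      · exact Or.inl ⟨common_ne hr hn' hab, a, b, Or.inr hab, rfl⟩
    · rintro (⟨h1, a, b, hab | hab, rfl⟩ | rfl | rfl)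
      · obtain ⟨rfl, rfl⟩ := Prod.mk.inj hab
        exact absurd rfl h1
      · exact ⟨a, b, Or.inr (Or.inr hab), rfl⟩
      · exact ⟨x, m, Or.inl rfl, rfl⟩
      · exact ⟨m, y, Or.inr (Or.inl rfl), rfl⟩
  · rw [arcs_iff h']
    exact ⟨x, y, (cyc_two _ _ _ _).2 (Or.inl rfl), rfl⟩
  · intro s hs hm
    rw [arcs_iff h'] at hs
    obtain ⟨a, b, hab, rfl⟩ := hs
    obtain ⟨h1, h2⟩ := cyc_mem _ a b hab
    simp only [Finset.mem_insert, Finset.mem_singleton] at hm
    simp only [List.mem_cons] at h1 h2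
    rcases hm with rfl | rfl
    · tauto
    · tauto

theorem part2 (T T' : Finset (Finset V)) (u : V) (x m y : V) (r : List V)
    (h : IsLink T u (x :: m :: y :: r)) (hr : r ≠ [])
    (hL : Local T T' {{u, x, m}, {u, m, y}} {{u, x, y}} u) : IsLink T' u (x :: y :: r) ∧
      arcs T u = ((arcs T' u).erase {x, y}) ∪ {{x, m}, {m, y}} ∧ {x, y} ∈ arcs T' u ∧
      ∀ s ∈ arcs T' u, m ∉ s := by
  have hn := h.2.1
  have hu := h.2.2.1
  simp only [List.nodup_cons, List.mem_cons, not_or] at hn hu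
  obtain ⟨⟨hxm, hxy, hxr⟩, ⟨hmy, hmr⟩, hyr, hrn⟩ := hn
  obtain ⟨hux, hum, huy, hur⟩ := hu
  have key : IsLink T' u (x :: y :: r) := by
    refine link_change (fun q => q ∈ conseq (y :: (r ++ [x]))) (fun q => q = (x, m) ∨ q = (m, y))
      (fun q => q = (x, y)) h ?_ ?_ ?_ ?_ ?_ ?_ ?_ ?_ hL
    · have : 0 < r.length := List.length_pos_iff.2 hr
      simp only [List.length_cons]
      omega
    · simp only [List.nodup_cons, List.mem_cons, not_or]
      exact ⟨⟨hxy, hxr⟩, hyr, hrn⟩
    · simp only [List.mem_cons, not_or]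
      exact ⟨hux, huy, hur⟩
    · intro q
      rw [cyc_three, or_assoc]
    · intro q
      rw [cyc_two]
    · intro t
      simp only [Finset.mem_insert, Finset.mem_singleton]
      constructor
      · rintro (rfl | rfl)
        · exact ⟨x, m, Or.inl rfl, rfl⟩
        · exact ⟨m, y, Or.inr rfl, rfl⟩
      · rintro ⟨a, b, hab | hab, rfl⟩
        · obtain ⟨rfl, rfl⟩ := Prod.mk.inj hab
          exact Or.inl rfl
        · obtain ⟨rfl, rfl⟩ := Prod.mk.inj hab
          exact Or.inr rfl
    · intro t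
      simp only [Finset.mem_singleton]
      constructor
      · rintro rfl
        exact ⟨x, y, rfl, rfl⟩
      · rintro ⟨a, b, hab, rfl⟩
        obtain ⟨rfl, rfl⟩ := Prod.mk.inj hab
        rfl
    · intro a b hab ht
      obtain ⟨h1, h2⟩ := common_mem hab
      have hm : m ∈ ({u, a, b} : Finset V) := by
        simp only [Finset.mem_insert, Finset.mem_singleton] at ht
        rcases ht with ht | ht
        · rw [ht]; simp
        · rw [ht]; simp
      simp only [Finset.mem_insert, Finset.mem_singleton] at hm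
      have hma : m ≠ a := by rintro rfl; tauto
      have hmb : m ≠ b := by rintro rfl; tauto
      rcases hm with hm | hm | hm
      · exact hum hm.symm
      · exact hma hm
      · exact hmb hm
  exact ⟨key, arcs_change h key hr⟩

theorem part3 (T T' : Finset (Finset V)) (u : V) (x m y : V) (r : List V)
    (h : IsLink T u (x :: y :: r)) (hm : m ∉ (x :: y :: r)) (hmu : m ≠ u)
    (hL : Local T T' {{u, x, y}} {{u, x, m}, {u, m, y}} u) : IsLink T' u (x :: m :: y :: r) ∧
      arcs T' u = ((arcs T u).erase {x, y}) ∪ {{x, m}, {m, y}} ∧ {x, y} ∈ arcs T u ∧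
      ∀ s ∈ arcs T u, m ∉ s := by
  have hn := h.2.1
  have hu := h.2.2.1
  have hlen := h.1
  have hr : r ≠ [] := by
    rintro rfl
    simp at hlen
  simp only [List.nodup_cons, List.mem_cons, not_or] at hn hu hm
  obtain ⟨⟨hxy, hxr⟩, hyr, hrn⟩ := hn
  obtain ⟨hux, huy, hur⟩ := hu
  obtain ⟨hmx, hmy, hmr⟩ := hm
  have key : IsLink T' u (x :: m :: y :: r) := by
    refine link_change (fun q => q ∈ conseq (y :: (r ++ [x]))) (fun q => q = (x, y))
      (fun q => q = (x, m) ∨ q = (m, y)) h ?_ ?_ ?_ ?_ ?_ ?_ ?_ ?_ hL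
    · simp only [List.length_cons] at hlen ⊢
      omega
    · simp only [List.nodup_cons, List.mem_cons, not_or]
      exact ⟨⟨Ne.symm hmx, hxy, hxr⟩, ⟨hmy, hmr⟩, hyr, hrn⟩
    · simp only [List.mem_cons, not_or]
      exact ⟨hux, hmu.symm, huy, hur⟩
    · intro q
      rw [cyc_two]
    · intro q
      rw [cyc_three, or_assoc]
    · intro t
      simp only [Finset.mem_singleton]
      constructor
      · rintro rfl
        exact ⟨x, y, rfl, rfl⟩
      · rintro ⟨a, b, hab, rfl⟩
        obtain ⟨rfl, rfl⟩ := Prod.mk.inj hab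
        rfl
    · intro t
      simp only [Finset.mem_insert, Finset.mem_singleton]
      constructor
      · rintro (rfl | rfl)
        · exact ⟨x, m, Or.inl rfl, rfl⟩
        · exact ⟨m, y, Or.inr rfl, rfl⟩
      · rintro ⟨a, b, hab | hab, rfl⟩
        · obtain ⟨rfl, rfl⟩ := Prod.mk.inj hab
          exact Or.inl rfl
        · obtain ⟨rfl, rfl⟩ := Prod.mk.inj hab
          exact Or.inr rfl
    · intro a b hab ht
      obtain ⟨h1, h2⟩ := common_mem hab
      have hau : a ≠ u := by
        rintro rfl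
        rcases h1 with h1 | h1 | h1
        · exact hux h1
        · exact huy h1
        · exact hur h1
      have hbu : b ≠ u := by
        rintro rfl
        rcases h2 with h1 | h1 | h1
        · exact hux h1
        · exact huy h1
        · exact hur h1
      rw [Finset.mem_singleton] at ht
      exact common_ne hr h.2.1 hab (three_ne (Ne.symm hux) (Ne.symm huy) hau hbu ht)
  exact ⟨key, arcs_change key h hr⟩

theorem part4 (T T' : Finset (Finset V)) (u : V) (x m y m' : V) (r : List V)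
    (h : IsLink T u (x :: m :: y :: r)) (hm' : m' ∉ (x :: m :: y :: r)) (hmu : m' ≠ u)
    (hL : Local T T' {{u, x, m}, {u, m, y}} {{u, x, m'}, {u, m', y}} u) :
      IsLink T' u (x :: m' :: y :: r) ∧
      arcs T' u = (arcs T u).image (fun s => s.image fun w => if w = m then m' else w) ∧
      ∀ s ∈ arcs T u, m' ∉ s := by
  have hn := h.2.1
  have hu := h.2.2.1
  have hlen := h.1
  simp only [List.nodup_cons, List.mem_cons, not_or] at hn hu hm'
  obtain ⟨⟨hxm, hxy, hxr⟩, ⟨hmy, hmr⟩, hyr, hrn⟩ := hn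
  obtain ⟨hux, hum, huy, hur⟩ := hu
  obtain ⟨hmx', hmm', hmy', hmr'⟩ := hm'
  have hPt : ∀ (m : V) (t : Finset V), t ∈ ({{u, x, m}, {u, m, y}} : Finset (Finset V)) ↔
      ∃ a b, ((a, b) = (x, m) ∨ (a, b) = (m, y)) ∧ t = {u, a, b} := by
    intro m t
    simp only [Finset.mem_insert, Finset.mem_singleton]
    constructor
    · rintro (rfl | rfl)
      · exact ⟨x, m, Or.inl rfl, rfl⟩
      · exact ⟨m, y, Or.inr rfl, rfl⟩
    · rintro ⟨a, b, hab | hab, rfl⟩
      · obtain ⟨rfl, rfl⟩ := Prod.mk.inj hab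
        exact Or.inl rfl
      · obtain ⟨rfl, rfl⟩ := Prod.mk.inj hab
        exact Or.inr rfl
  have key : IsLink T' u (x :: m' :: y :: r) := by
    refine link_change (fun q => q ∈ conseq (y :: (r ++ [x]))) (fun q => q = (x, m) ∨ q = (m, y))
      (fun q => q = (x, m') ∨ q = (m', y)) h ?_ ?_ ?_ ?_ ?_ (hPt m) (hPt m') ?_ hL
    · simp only [List.length_cons] at hlen ⊢
      omega
    · simp only [List.nodup_cons, List.mem_cons, not_or]
      exact ⟨⟨Ne.symm hmx', hxy, hxr⟩, ⟨hmy', hmr'⟩, hyr, hrn⟩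
    · simp only [List.mem_cons, not_or]
      exact ⟨hux, hmu.symm, huy, hur⟩
    · intro q
      rw [cyc_three, or_assoc]
    · intro q
      rw [cyc_three, or_assoc]
    · intro a b hab ht
      obtain ⟨h1, h2⟩ := common_mem hab
      have hm : m ∈ ({u, a, b} : Finset V) := by
        simp only [Finset.mem_insert, Finset.mem_singleton] at ht
        rcases ht with ht | ht
        · rw [ht]; simp
        · rw [ht]; simp
      simp only [Finset.mem_insert, Finset.mem_singleton] at hm
      have hma : m ≠ a := by rintro rfl; tauto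
      have hmb : m ≠ b := by rintro rfl; tauto
      rcases hm with hm | hm | hm
      · exact hum hm.symm
      · exact hma hm
      · exact hmb hm
  refine ⟨key, ?_, ?_⟩
  · have e1 : (({x, m} : Finset V).image fun w => if w = m then m' else w) = {x, m'} := by
      rw [Finset.image_insert, Finset.image_singleton, if_neg hxm, if_pos rfl]
    have e2 : (({m, y} : Finset V).image fun w => if w = m then m' else w) = {m', y} := by
      rw [Finset.image_insert, Finset.image_singleton, if_pos rfl, if_neg (Ne.symm hmy)]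
    have e3 : ∀ a b, (a, b) ∈ conseq (y :: (r ++ [x])) →
        (({a, b} : Finset V).image fun w => if w = m then m' else w) = {a, b} := by
      intro a b hab
      obtain ⟨h1, h2⟩ := common_mem hab
      have hma : a ≠ m := by rintro rfl; tauto
      have hmb : b ≠ m := by rintro rfl; tauto
      rw [Finset.image_insert, Finset.image_singleton, if_neg hma, if_neg hmb]
    ext s
    rw [arcs_iff key, Finset.mem_image]
    simp only [cyc_three]
    constructor
    · rintro ⟨a, b, hab | hab | hab, rfl⟩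
      · obtain ⟨rfl, rfl⟩ := Prod.mk.inj hab
        exact ⟨{a, m}, (arcs_iff h _).2 ⟨a, m, (cyc_three _ _ _ _ _).2 (Or.inl rfl), rfl⟩, e1⟩
      · obtain ⟨rfl, rfl⟩ := Prod.mk.inj hab
        exact ⟨{m, b}, (arcs_iff h _).2 ⟨m, b, (cyc_three _ _ _ _ _).2 (Or.inr (Or.inl rfl)),
          rfl⟩, e2⟩
      · exact ⟨{a, b}, (arcs_iff h _).2 ⟨a, b, (cyc_three _ _ _ _ _).2 (Or.inr (Or.inr hab)),
          rfl⟩, e3 a b hab⟩
    · rintro ⟨s', hs', rfl⟩
      rw [arcs_iff h] at hs'
      simp only [cyc_three] at hs'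
      obtain ⟨a, b, hab | hab | hab, rfl⟩ := hs'
      · obtain ⟨rfl, rfl⟩ := Prod.mk.inj hab
        exact ⟨a, m', Or.inl rfl, e1⟩
      · obtain ⟨rfl, rfl⟩ := Prod.mk.inj hab
        exact ⟨m', b, Or.inr (Or.inl rfl), e2⟩
      · exact ⟨a, b, Or.inr (Or.inr hab), e3 a b hab⟩
  · intro s hs hm
    rw [arcs_iff h] at hs
    obtain ⟨a, b, hab, rfl⟩ := hs
    obtain ⟨h1, h2⟩ := cyc_mem _ a b hab
    simp only [Finset.mem_insert, Finset.mem_singleton] at hm
    simp only [List.mem_cons] at h1 h2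
    rcases hm with rfl | rfl
    · tauto
    · tauto

end

end LSB_

theorem lsb_proof : Stmt_Lsb := by
  intro V _ T T' u
  exact ⟨fun l h hL => LSB_.part1 T T' u l h hL,
    fun x m y r h hr hL => LSB_.part2 T T' u x m y r h hr hL,
    fun x m y r h hm hmu hL => LSB_.part3 T T' u x m y r h hm hmu hL,
    fun x m y m' r h hm hmu hL => LSB_.part4 T T' u x m y m' r h hm hmu hL⟩

end Pool.Agent.TSP
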