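import Pool.Agent.TSP.P3Stmts

/-!
# P3: removal of the flat vertices of a surface (assembly)
-/

set_option autoImplicit false

open scoped RealInnerProductSpace

namespace Pool.Agent.TSP

open Pool.Agent.TSM

theorem p3_proof (_h1 : Stmt_Lsa) (h2 : Stmt_Cyc) (h3 : Stmt_Lpp) (h4 : Stmt_Res) : Stmt_P3 := by
  intro V _ _ hV K p hE
  have hF : Fam K.tri := ⟨K.card3, fun v _ => (h2 V K.tri v).1 (K.link v)⟩
  have hN : K.tri.Nonempty := by
    obtain ⟨v⟩ := hV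
    obtain ⟨n, c, hc⟩ := K.link v
    exact ⟨_, ((hc.2.2.2 {v, c 0, c (0 + 1)}).2 ⟨0, rfl⟩).1⟩
  obtain ⟨T', hF', hE', hN', hfl, g, hg⟩ := h3 V K.tri p hF hE hN
  obtain ⟨V', i1, i2, i3, K', i, hi, him, hEm, hadj, hus, g', hg'⟩ := h4 V T' p hF' hE' hN'
  refine ⟨V', i1, i2, i3, K', fun v => p (i v), hEm, ?_, ?_, g.trans g', ?_⟩
  · rintro _ ⟨v, rfl⟩
    exact ⟨i v, rfl⟩
  · rintro v ⟨ν, hν, hw⟩
    refine hfl (i v) (hus v) ⟨ν, hν, fun w haw => ?_⟩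
    have haw' := haw
    obtain ⟨hne, t, ht, hvt, hwt⟩ := haw'
    rw [← him] at ht
    obtain ⟨s, hs, rfl⟩ := Finset.mem_image.1 ht
    obtain ⟨w', hw', rfl⟩ := Finset.mem_image.1 hwt
    exact hw w' ((hadj v w').2 haw)
  · intro x
    have e1 : K'.map (fun v => p (i v)) (g' (g x)) = lin p (g x).1 := hg' (g x)
    have e2 : lin p (g x).1 = lin p x.1 := hg x
    show K'.map (fun v => p (i v)) (g' (g x)) = lin p x.1
    rw [e1, e2]

end Pool.Agent.TSP
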