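import Pool.Agent.TSP.P3Stmts

/-!
# TSP, module RES: restriction to the used vertices
-/

set_option autoImplicit false

open scoped RealInnerProductSpace

namespace Pool.Agent.TSP

open Pool.Agent.TSM

namespace RES_

theorem conseq_map {α β : Type} (f : α → β) : ∀ l : List α,
    conseq (l.map f) = (conseq l).map (Prod.map f f)
  | [] => rfl
  | [_] => rfl
  | a :: b :: l => by
    have ih := conseq_map f (b :: l)
    simp only [List.map_cons, conseq] at ih ⊢
    rw [ih]
    rfl

theorem cyc_map {α β : Type} (f : α → β) (l : List α) :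
    cyc (l.map f) = (cyc l).map (Prod.map f f) := by
  cases l with
  | nil => rfl
  | cons a l =>
    have := conseq_map f (a :: l ++ [a])
    simp only [cyc, List.map_cons]
    rw [← this]
    simp

section
variable {V : Type} [DecidableEq V] {V' : Type} [DecidableEq V']

theorem image_triple (i : V' → V) (a b c : V') :
    ({a, b, c} : Finset V').image i = {i a, i b, i c} := by
  rw [Finset.image_insert, Finset.image_insert, Finset.image_singleton]

/-- lifting a link along an injection -/
theorem lift_link (i : V' → V) (hi : Function.Injective i) (T : Finset (Finset V))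
    (T' : Finset (Finset V')) (hT : ∀ s, s ∈ T' ↔ s.image i ∈ T) (v : V') (l : List V')
    (h : IsLink T (i v) (l.map i)) : IsLink T' v l := by
  obtain ⟨h1, h2, h3, h4⟩ := h
  refine ⟨by simpa using h1, (List.nodup_map_iff hi).mp h2, fun hv => h3 ?_, fun s => ?_⟩
  · exact List.mem_map_of_mem hv
  · have hv : v ∈ s ↔ i v ∈ s.image i := by
      rw [Finset.mem_image]
      exact ⟨fun h => ⟨v, h, rfl⟩, fun ⟨w, hw, he⟩ => hi he ▸ hw⟩
    rw [hT, hv, h4, cyc_map]
    constructor
    · rintro ⟨X, Y, hXY, hs⟩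
      obtain ⟨⟨x, y⟩, hxy, he⟩ := List.mem_map.mp hXY
      simp only [Prod.map_apply, Prod.mk.injEq] at he
      obtain ⟨rfl, rfl⟩ := he
      refine ⟨x, y, hxy, ?_⟩
      rw [← image_triple] at hs
      exact Finset.image_injective hi hs
    · rintro ⟨x, y, hxy, rfl⟩
      exact ⟨i x, i y, List.mem_map.mpr ⟨(x, y), hxy, rfl⟩, image_triple i v x y⟩

end

theorem emb_lift {V : Type} [Fintype V] [DecidableEq V] {V' : Type} [Fintype V']
    [DecidableEq V'] (i : V' → V) (hi : Function.Injective i) (T : Finset (Finset V))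
    (T' : Finset (Finset V')) (hT : ∀ s, s ∈ T' ↔ s.image i ∈ T) (p : V → E3) (h : Emb T p) :
    Emb T' (fun v => p (i v)) := by
  classical
  intro v σ hσ τ hτ ζ h1 h2 h3
  have harc : ∀ σ ∈ arcs T' v, σ.image i ∈ arcs T (i v) := by
    intro σ hσ
    obtain ⟨s, hs, rfl⟩ := Finset.mem_image.mp hσ
    obtain ⟨hs1, hs2⟩ := Finset.mem_filter.mp hs
    refine Finset.mem_image.mpr ⟨s.image i, Finset.mem_filter.mpr
      ⟨(hT s).mp hs1, Finset.mem_image_of_mem i hs2⟩, ?_⟩
    exact (Finset.image_erase hi s v).symm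
  let Z : V → ℝ := fun u => if h : ∃ w, i w = u then ζ h.choose else 0
  have hZ1 : ∀ w, Z (i w) = ζ w := by
    intro w
    have hex : ∃ w', i w' = i w := ⟨w, rfl⟩
    have : Z (i w) = ζ hex.choose := dif_pos hex
    rw [this, hi hex.choose_spec]
  have hZ2 : ∀ u, u ∉ Set.range i → Z u = 0 := fun u hu => dif_neg hu
  have hnot : ∀ (σ : Finset V') (w : V'), i w ∉ σ.image i → w ∉ σ :=
    fun σ w hw hw' => hw (Finset.mem_image_of_mem i hw')
  have key := h (i v) (σ.image i) (harc σ hσ) (τ.image i) (harc τ hτ) Z ?_ ?_ ?_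
  · funext w
    rw [← hZ1 w, key]
    rfl
  · intro u hu
    by_cases hr : u ∈ Set.range i
    · obtain ⟨w, rfl⟩ := hr
      rw [hZ1]
      exact h1 w (hnot σ w hu)
    · rw [hZ2 u hr]
  · intro u hu
    by_cases hr : u ∈ Set.range i
    · obtain ⟨w, rfl⟩ := hr
      rw [hZ1]
      exact h2 w (hnot τ w hu)
    · rw [hZ2 u hr]
  · rw [← h3]
    refine (Fintype.sum_of_injective i hi _ _ ?_ ?_).symm
    · intro u hu
      rw [hZ2 u hu, zero_smul]
    · intro w
      rw [hZ1]

end RES_

theorem res_proof (h1 : Stmt_Lsa) (h2 : Stmt_Cyc) : Stmt_Res := by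
  intro V _ _ T p hF hE hne
  classical
  let V' := {v : V // Used T v}
  let i : V' → V := Subtype.val
  have hi : Function.Injective i := Subtype.val_injective
  let T' : Finset (Finset V') := Finset.univ.filter fun s => s.image i ∈ T
  have hT : ∀ s, s ∈ T' ↔ s.image i ∈ T := fun s => by
    simp only [T', Finset.mem_filter, Finset.mem_univ, true_and]
  have himg : T'.image (Finset.image i) = T := by
    ext t
    rw [Finset.mem_image]
    constructor
    · rintro ⟨s, hs, rfl⟩
      exact (hT s).mp hs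
    · intro ht
      have he : (Finset.univ.filter fun v : V' => i v ∈ t).image i = t := by
        ext v
        rw [Finset.mem_image]
        constructor
        · rintro ⟨w, hw, rfl⟩
          exact (Finset.mem_filter.mp hw).2
        · intro hv
          exact ⟨⟨v, t, ht, hv⟩, Finset.mem_filter.mpr ⟨Finset.mem_univ _, hv⟩, rfl⟩
      exact ⟨_, (hT _).mpr (by rw [he]; exact ht), he⟩
  have hlink : ∀ v : V', ∃ (n : ℕ) (c : ZMod n → V'), IsLinkCycle T' v n c := by
    intro v
    rw [h2 V' T' v]
    obtain ⟨l, hl⟩ := hF.link (i v) v.2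
    have hused : ∀ x ∈ l, Used T x := by
      intro x hx
      obtain ⟨-, t, ht, -, hx'⟩ := ((h1 V T (i v) l hl).2.2.1 x).mp hx
      exact ⟨t, ht, hx'⟩
    lift l to List {v : V // Used T v} using hused
    exact ⟨l, RES_.lift_link i hi T T' hT v l hl⟩
  let K' : Surf V' :=
    { tri := T'
      card3 := fun s hs => by
        rw [← Finset.card_image_of_injective s hi]
        exact hF.card3 _ ((hT s).mp hs)
      link := hlink }
  have hne' : Nonempty V' := by
    obtain ⟨t, ht⟩ := hne
    have hc := hF.card3 t ht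
    have : t.Nonempty := by
      rw [← Finset.card_pos]
      omega
    obtain ⟨v, hv⟩ := this
    exact ⟨⟨v, t, ht, hv⟩⟩
  refine ⟨V', inferInstance, inferInstance, hne', K', i, hi, himg,
    RES_.emb_lift i hi T T' hT p hE, ?_, fun v => v.2, ?_⟩
  · intro v w
    constructor
    · rintro ⟨hvw, s, hs, hv, hw⟩
      exact ⟨fun h => hvw (hi h), s.image i, (hT s).mp hs, Finset.mem_image_of_mem i hv,
        Finset.mem_image_of_mem i hw⟩
    · rintro ⟨hvw, t, ht, hv, hw⟩
      have ht' : t ∈ T'.image (Finset.image i) := by rw [himg]; exact ht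
      obtain ⟨s, hs, rfl⟩ := Finset.mem_image.mp ht'
      obtain ⟨a, ha, ha'⟩ := Finset.mem_image.mp hv
      obtain ⟨b, hb, hb'⟩ := Finset.mem_image.mp hw
      exact ⟨fun h => hvw (by rw [h]), s, hs, hi ha' ▸ ha, hi hb' ▸ hb⟩
  · have key := relabel i hi T'
    rw [himg] at key
    obtain ⟨h, -, -, hq⟩ := key
    refine ⟨h.symm, fun x => ?_⟩
    have := hq E3 p (h.symm x)
    rw [Homeomorph.apply_symm_apply] at this
    exact this.symm

end Pool.Agent.TSP
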