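import Pool.Agent.TSP.P3Stmts

/-! Module RMA: removal of a vertex of degree 3. -/

set_option autoImplicit false

open scoped RealInnerProductSpace

namespace Pool.Agent.TSP

open Pool.Agent.TSM

namespace RMA_

section
variable {V : Type} [DecidableEq V]

theorem facts {T : Finset (Finset V)} {v a b c : V} (h : IsLink T v [a, b, c]) :
    a ≠ b ∧ a ≠ c ∧ b ≠ c ∧ v ≠ a ∧ v ≠ b ∧ v ≠ c ∧
    ∀ t : Finset V, (t ∈ T ∧ v ∈ t) ↔ (t = {v, a, b} ∨ t = {v, b, c} ∨ t = {v, c, a}) := by
  obtain ⟨-, hnd, hv, ht⟩ := h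
  simp only [List.nodup_cons, List.mem_cons, List.not_mem_nil, or_false, not_or,
    List.nodup_nil, and_true, not_false_eq_true] at hnd hv
  refine ⟨hnd.1.1, hnd.1.2, hnd.2, hv.1, hv.2.1, hv.2.2, fun t => ?_⟩
  rw [ht]
  simp only [cyc, conseq, List.cons_append, List.nil_append, List.mem_cons, List.not_mem_nil,
    or_false, Prod.mk.injEq]
  constructor
  · rintro ⟨x, y, (⟨rfl, rfl⟩ | ⟨rfl, rfl⟩ | ⟨rfl, rfl⟩), h⟩
    · exact Or.inl h
    · exact Or.inr (Or.inl h)
    · exact Or.inr (Or.inr h)
  · rintro (h | h | h)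
    · exact ⟨a, b, Or.inl ⟨rfl, rfl⟩, h⟩
    · exact ⟨b, c, Or.inr (Or.inl ⟨rfl, rfl⟩), h⟩
    · exact ⟨c, a, Or.inr (Or.inr ⟨rfl, rfl⟩), h⟩

theorem rot {T : Finset (Finset V)} {v a b c : V} (h : IsLink T v [a, b, c]) :
    IsLink T v [b, c, a] := by
  obtain ⟨n1, n2, n3, n4, n5, n6, ht⟩ := facts h
  refine ⟨by simp, ?_, ?_, fun t => ?_⟩
  · simp only [List.nodup_cons, List.mem_cons, List.not_mem_nil, or_false, not_or,
      List.nodup_nil, and_true, not_false_eq_true]
    exact ⟨⟨n3, n1.symm⟩, n2.symm⟩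
  · simp only [List.mem_cons, List.not_mem_nil, or_false, not_or]
    exact ⟨n5, n6, n4⟩
  · rw [ht]
    simp only [cyc, conseq, List.cons_append, List.nil_append, List.mem_cons, List.not_mem_nil,
      or_false, Prod.mk.injEq]
    constructor
    · rintro (h | h | h)
      · exact ⟨a, b, Or.inr (Or.inr ⟨rfl, rfl⟩), h⟩
      · exact ⟨b, c, Or.inl ⟨rfl, rfl⟩, h⟩
      · exact ⟨c, a, Or.inr (Or.inl ⟨rfl, rfl⟩), h⟩
    · rintro ⟨x, y, (⟨rfl, rfl⟩ | ⟨rfl, rfl⟩ | ⟨rfl, rfl⟩), hh⟩
      · exact Or.inr (Or.inl hh)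
      · exact Or.inr (Or.inr hh)
      · exact Or.inl hh

theorem perm3 (x y z : V) : ({x, y, z} : Finset V) = {y, z, x} := by
  ext w
  simp only [Finset.mem_insert, Finset.mem_singleton]
  tauto

theorem swap3 (x y z : V) : ({x, y, z} : Finset V) = {x, z, y} := by
  ext w
  simp only [Finset.mem_insert, Finset.mem_singleton]
  tauto

theorem rm3_rot (T : Finset (Finset V)) (v a b c : V) : rm3T T v a b c = rm3T T v b c a := by
  unfold rm3T
  rw [perm3 a b c]
  congr 2
  ext t
  simp only [Finset.mem_insert, Finset.mem_singleton]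
  tauto

theorem mem_rm3 (T : Finset (Finset V)) (v a b c : V) (t : Finset V) :
    t ∈ rm3T T v a b c ↔
      (t ∈ T ∧ t ≠ {v, a, b} ∧ t ≠ {v, b, c} ∧ t ≠ {v, c, a}) ∨ t = {a, b, c} := by
  unfold rm3T
  simp only [Finset.mem_union, Finset.mem_sdiff, Finset.mem_insert, Finset.mem_singleton, not_or]

end

section
variable {V : Type} [Fintype V] [DecidableEq V]

theorem atA (h1 : Stmt_Lsa) (h2 : Stmt_Lsb) (h3 : Stmt_Csd) (h4 : Stmt_Crn)
    {T : Finset (Finset V)} {p : V → E3} {v a b c : V} {la lb lc : ℝ} (hF : Fam T)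
    (hE : Emb T p) (hv : IsLink T v [a, b, c]) (hb : 0 < lb) (hc : 0 < lc)
    (hs : la + lb + lc = 1) (hp : p v = la • p a + lb • p b + lc • p c) :
    ({a, b, c} : Finset V) ∉ T ∧ ∃ r, IsLink (rm3T T v a b c) a (b :: c :: r) ∧
      ConeInj (arcs (rm3T T v a b c) a) (fun u => p u - p a) := by
  obtain ⟨nab, nac, nbc, nva, nvb, nvc, ht⟩ := facts hv
  have t1 : ({v, a, b} : Finset V) ∈ T := ((ht _).mpr (Or.inl rfl)).1
  have t3 : ({v, c, a} : Finset V) ∈ T := ((ht _).mpr (Or.inr (Or.inr rfl))).1
  have e1 : ({a, b, v} : Finset V) = {v, a, b} := perm3 v a b ▸ rfl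
  have e2 : ({a, v, c} : Finset V) = {v, c, a} := perm3 a v c
  have e1' : ({v, a, b} : Finset V) = {a, b, v} := perm3 v a b
  have hd : p v - p a = lb • (p b - p a) + lc • (p c - p a) := by
    have : la = 1 - lb - lc := by linarith
    rw [hp, this]
    module
  have hUsed : Used T a := ⟨_, t1, by simp⟩
  obtain ⟨l, hl⟩ := hF.link a hUsed
  obtain ⟨-, -, -, -, g5, g6, g7, g8⟩ := h1 V T a l hl
  have hvarc : ({v, b} : Finset V) ∈ arcs T a := by
    unfold arcs
    rw [Finset.mem_image]
    refine ⟨{v, a, b}, Finset.mem_filter.mpr ⟨t1, by simp⟩, ?_⟩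
    ext w
    simp only [Finset.mem_erase, Finset.mem_insert, Finset.mem_singleton]
    constructor
    · rintro ⟨h, h' | h' | h'⟩
      · exact Or.inl h'
      · exact absurd h' h
      · exact Or.inr h'
    · rintro (h | h)
      · exact ⟨by rw [h]; exact nva, Or.inl h⟩
      · exact ⟨by rw [h]; exact nab.symm, Or.inr (Or.inr h)⟩
  have hnot : ({b, c} : Finset V) ∉ arcs T a := by
    intro hbc
    have := (h4 V (arcs T a) (fun u => p u - p a) (hE a)).2.1 b c v lb lc hbc hb.le hc.le hd nvb nvc
      _ hvarc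
    exact this (by simp)
  have hnT : ({a, b, c} : Finset V) ∉ T := by
    intro habc
    apply hnot
    unfold arcs
    rw [Finset.mem_image]
    refine ⟨{a, b, c}, Finset.mem_filter.mpr ⟨habc, by simp⟩, ?_⟩
    ext w
    simp only [Finset.mem_erase, Finset.mem_insert, Finset.mem_singleton]
    constructor
    · rintro ⟨h, h' | h' | h'⟩
      · exact absurd h' h
      · exact Or.inl h'
      · exact Or.inr h'
    · rintro (h | h)
      · exact ⟨by rw [h]; exact nab.symm, Or.inr (Or.inl h)⟩
      · exact ⟨by rw [h]; exact nac.symm, Or.inr (Or.inr h)⟩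
  refine ⟨hnT, ?_⟩
  obtain ⟨r, hr, -⟩ := g5 b v c nbc nvb.symm nvc nab nva.symm nac (by rw [e1]; exact t1)
    (by rw [e2]; exact t3)
  have hr0 : r ≠ [] := by
    rintro rfl
    have h5 := (facts hr).2.2.2.2.2.2 {a, c, b}
    have h6 : ({a, c, b} : Finset V) ∈ T := (h5.mpr (Or.inr (Or.inr rfl))).1
    rw [swap3] at h6
    exact hnT h6
  have hloc : Local T (rm3T T v a b c) {{a, b, v}, {a, v, c}} {{a, b, c}} a := by
    intro t hat
    rw [mem_rm3]
    simp only [Finset.mem_insert, Finset.mem_singleton, not_or]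
    rw [e1, e2]
    have h7 : t ≠ {v, b, c} := by
      rintro rfl
      simp only [Finset.mem_insert, Finset.mem_singleton] at hat
      rcases hat with h | h | h
      · exact nva h.symm
      · exact nab h
      · exact nac h
    constructor
    · rintro (⟨h, h8, -, h9⟩ | h)
      · exact Or.inl ⟨h, h8, h9⟩
      · exact Or.inr h
    · rintro (⟨h, h8, h9⟩ | h)
      · exact Or.inl ⟨h, h8, h7, h9⟩
      · exact Or.inr h
  obtain ⟨k1, k2, k3, k4⟩ := (h2 V T (rm3T T v a b c) a).2.1 b v c r hr hr0 hloc
  refine ⟨r, k1, ?_⟩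
  have hcard : ∀ s ∈ arcs (rm3T T v a b c) a, s.card = 2 := fun s hs' =>
    ((h1 V _ a _ k1).2.2.2.2.2.2.2 s hs').1
  rw [h3 V (arcs (rm3T T v a b c) a) (fun u => p u - p a) b c v lb lc nbc hcard k3 k4 hb hc hd,
    ← k2]
  exact hE a

end

end RMA_

open RMA_

theorem rma_proof (h1 : Stmt_Lsa) (h2 : Stmt_Lsb) (h3 : Stmt_Csd) (h4 : Stmt_Crn)
    (h5 : Stmt_Exh) : Stmt_Rma := by
  intro V _ _ T p v a b c la lb lc hF hE hv ha hb hc hs hp
  obtain ⟨nab, nac, nbc, nva, nvb, nvc, ht⟩ := facts hv
  obtain ⟨hnT, ra, hla, hea⟩ := atA h1 h2 h3 h4 hF hE hv hb hc hs hp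
  have hv2 := rot hv
  obtain ⟨-, rb, hlb, heb⟩ := atA h1 h2 h3 h4 hF hE hv2 hc ha (by linarith : lb + lc + la = 1)
    (by rw [hp]; abel)
  have hv3 := rot hv2
  obtain ⟨-, rc, hlc, hec⟩ := atA h1 h2 h3 h4 hF hE hv3 ha hb (by linarith : lc + la + lb = 1)
    (by rw [hp]; abel)
  rw [← rm3_rot] at hlb heb
  rw [← rm3_rot, ← rm3_rot] at hlc hec
  have t1 : ({v, a, b} : Finset V) ∈ T := ((ht _).mpr (Or.inl rfl)).1
  have t2 : ({v, b, c} : Finset V) ∈ T := ((ht _).mpr (Or.inr (Or.inl rfl))).1
  have t3 : ({v, c, a} : Finset V) ∈ T := ((ht _).mpr (Or.inr (Or.inr rfl))).1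
  have habc : ({a, b, c} : Finset V) ∈ rm3T T v a b c := (mem_rm3 _ _ _ _ _ _).mpr (Or.inr rfl)
  have hnv : ∀ t ∈ rm3T T v a b c, v ∉ t := by
    intro t htT hvt
    rw [mem_rm3] at htT
    rcases htT with ⟨h, g1, g2, g3⟩ | h
    · rcases (ht t).mp ⟨h, hvt⟩ with h | h | h
      · exact g1 h
      · exact g2 h
      · exact g3 h
    · rw [h] at hvt
      simp only [Finset.mem_insert, Finset.mem_singleton] at hvt
      rcases hvt with h | h | h
      · exact nva h
      · exact nvb h
      · exact nvc h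
  have hkeep : ∀ t ∈ T, v ∉ t → t ∈ rm3T T v a b c := by
    intro t htT hvt
    rw [mem_rm3]
    refine Or.inl ⟨htT, ?_, ?_, ?_⟩ <;> · rintro rfl; exact hvt (by simp)
  have hloc : ∀ u, u ≠ v → u ≠ a → u ≠ b → u ≠ c → Local T (rm3T T v a b c) ∅ ∅ u := by
    intro u uv ua ub uc t hut
    rw [mem_rm3]
    constructor
    · rintro (⟨h, -⟩ | h)
      · exact Or.inl ⟨h, Finset.notMem_empty _⟩
      · exfalso
        rw [h] at hut
        simp only [Finset.mem_insert, Finset.mem_singleton] at hut
        rcases hut with h | h | h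
        · exact ua h
        · exact ub h
        · exact uc h
    · rintro (⟨h, -⟩ | h)
      · refine Or.inl ⟨h, ?_, ?_, ?_⟩ <;>
        · rintro rfl
          simp only [Finset.mem_insert, Finset.mem_singleton] at hut
          rcases hut with h | h | h
          all_goals first | exact uv h | exact ua h | exact ub h | exact uc h
      · exact absurd h (Finset.notMem_empty _)
  refine ⟨⟨?_, ?_⟩, ?_, ?_, ?_⟩
  · intro t htT
    rw [mem_rm3] at htT
    rcases htT with ⟨h, -⟩ | h
    · exact hF.card3 t h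
    · rw [h]
      exact Finset.card_eq_three.mpr ⟨a, b, c, nab, nac, nbc, rfl⟩
  · rintro u ⟨t, htT, hut⟩
    by_cases ua : u = a
    · subst ua
      exact ⟨_, hla⟩
    by_cases ub : u = b
    · subst ub
      exact ⟨_, hlb⟩
    by_cases uc : u = c
    · subst uc
      exact ⟨_, hlc⟩
    have uv : u ≠ v := by
      rintro rfl
      exact hnv t htT hut
    have hU : Used T u := by
      rw [mem_rm3] at htT
      rcases htT with ⟨h, -⟩ | h
      · exact ⟨t, h, hut⟩
      · exfalso
        rw [h] at hut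
        simp only [Finset.mem_insert, Finset.mem_singleton] at hut
        rcases hut with h | h | h
        · exact ua h
        · exact ub h
        · exact uc h
    obtain ⟨l, hl⟩ := hF.link u hU
    exact ⟨l, ((h2 V T _ u).1 l hl (hloc u uv ua ub uc)).1⟩
  · intro u
    by_cases ua : u = a
    · subst ua
      exact hea
    by_cases ub : u = b
    · subst ub
      exact heb
    by_cases uc : u = c
    · subst uc
      exact hec
    by_cases uv : u = v
    · subst uv
      intro σ hσ
      exfalso
      unfold arcs at hσ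
      rw [Finset.mem_image] at hσ
      obtain ⟨t, ht', -⟩ := hσ
      rw [Finset.mem_filter] at ht'
      exact hnv t ht'.1 ht'.2
    · have : arcs (rm3T T v a b c) u = arcs T u := by
        unfold arcs
        congr 1
        ext t
        rw [Finset.mem_filter, Finset.mem_filter]
        constructor
        · rintro ⟨h, h'⟩
          refine ⟨?_, h'⟩
          rcases (hloc u uv ua ub uc t h').mp h with h | h
          · exact h.1
          · exact absurd h (Finset.notMem_empty _)
        · rintro ⟨h, h'⟩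
          exact ⟨(hloc u uv ua ub uc t h').mpr (Or.inl ⟨h, Finset.notMem_empty _⟩), h'⟩
      rw [this]
      exact hE u
  · intro u
    constructor
    · rintro ⟨t, htT, hut⟩
      refine ⟨?_, fun h => hnv t htT (h ▸ hut)⟩
      rw [mem_rm3] at htT
      rcases htT with ⟨h, -⟩ | h
      · exact ⟨t, h, hut⟩
      · rw [h] at hut
        simp only [Finset.mem_insert, Finset.mem_singleton] at hut
        rcases hut with h | h | h
        · exact ⟨_, t1, by simp [h]⟩
        · exact ⟨_, t1, by simp [h]⟩
        · exact ⟨_, t2, by simp [h]⟩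
    · rintro ⟨⟨t, htT, hut⟩, uv⟩
      by_cases hvt : v ∈ t
      · refine ⟨_, habc, ?_⟩
        rcases (ht t).mp ⟨htT, hvt⟩ with h | h | h <;>
        · rw [h] at hut
          simp only [Finset.mem_insert, Finset.mem_singleton] at hut ⊢
          rcases hut with h | h | h
          all_goals first | exact absurd h uv | exact Or.inl h | exact Or.inr (Or.inl h) | exact Or.inr (Or.inr h)
      · exact ⟨t, hkeep t htT hvt, hut⟩
  · -- the homeomorphism
    obtain ⟨w, wa, wb, wc, wv⟩ : ∃ w : V → ℝ, w a = la ∧ w b = lb ∧ w c = lc ∧ w v = 1 := by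
      refine ⟨fun u => if u = a then la else if u = b then lb else if u = c then lc else 1,
        ?_, ?_, ?_, ?_⟩
      · simp
      · simp [nab.symm]
      · simp [nac.symm, nbc.symm]
      · simp [nva, nvb, nvc]
    have hpos : ∀ i ∈ ({a, b, c} : Finset V), 0 < w i := by
      intro i hi
      simp only [Finset.mem_insert, Finset.mem_singleton] at hi
      rcases hi with rfl | rfl | rfl
      · rw [wa]; exact ha
      · rw [wb]; exact hb
      · rw [wc]; exact hc
    have key := h5 V (rm3T T v a b c) T {a, b, c} {v} w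
      ⟨a, by simp⟩ ⟨v, by simp⟩ ?_ hpos ?_ ?_ ?_ ?_ ?_ ?_ ?_ ?_
    · obtain ⟨h, hh⟩ := key
      have hlin : ∀ x, lin p (h x).1 = lin p x.1 := by
        intro x
        obtain ⟨τ, -, -, hx⟩ := hh x
        have e1 : ∀ u, (h x).1 u • p u = x.1 u • p u -
            τ • ((if u ∈ ({a, b, c} : Finset V) then w u • p u else 0) -
              (if u ∈ ({v} : Finset V) then w u • p u else 0)) := by
          intro u
          rw [hx u, sub_smul, mul_smul, sub_smul, ite_smul, ite_smul, zero_smul]
        unfold lin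
        rw [Finset.sum_congr rfl (fun u _ => e1 u), Finset.sum_sub_distrib, ← Finset.smul_sum,
          Finset.sum_sub_distrib, Finset.sum_ite_mem, Finset.sum_ite_mem, Finset.univ_inter,
          Finset.univ_inter, Finset.sum_singleton, Finset.sum_insert (by simp [nab, nac]),
          Finset.sum_insert (by simp [nbc]), Finset.sum_singleton, wa, wb, wc, wv, one_smul, hp]
        have : la • p a + (lb • p b + lc • p c) - (la • p a + lb • p b + lc • p c) = 0 := by
          abel
        rw [this, smul_zero, sub_zero]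
      refine ⟨h.symm, fun x => ?_⟩
      have := hlin (h.symm x)
      rw [Homeomorph.apply_symm_apply] at this
      exact this.symm
    · rw [Finset.disjoint_singleton_right]
      simp only [Finset.mem_insert, Finset.mem_singleton, not_or]
      exact ⟨nva, nvb, nvc⟩
    · intro i hi
      rw [Finset.mem_singleton] at hi
      rw [hi, wv]
      exact one_pos
    · rw [Finset.sum_singleton, Finset.sum_insert (by simp [nab, nac]),
        Finset.sum_insert (by simp [nbc]), Finset.sum_singleton, wa, wb, wc, wv]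
      linarith
    · intro t htT hsub
      exact hnv t htT (hsub (Finset.mem_singleton_self v))
    · intro t htT hsub
      have e1 : ({a, b, c} : Finset V) = t := by
        apply Finset.eq_of_subset_of_card_le hsub
        rw [hF.card3 t htT]
        exact (Finset.card_eq_three.mpr ⟨a, b, c, nab, nac, nbc, rfl⟩).ge
      exact hnT (e1 ▸ htT)
    · intro t htT hsub i hi
      have hcard : t.card = 3 := by
        rw [mem_rm3] at htT
        rcases htT with ⟨h, -⟩ | h
        · exact hF.card3 t h
        · rw [h]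
          exact Finset.card_eq_three.mpr ⟨a, b, c, nab, nac, nbc, rfl⟩
      have e1 : ({a, b, c} : Finset V) = t := by
        apply Finset.eq_of_subset_of_card_le hsub
        rw [hcard]
        exact (Finset.card_eq_three.mpr ⟨a, b, c, nab, nac, nbc, rfl⟩).ge
      rw [← e1]
      simp only [Finset.mem_insert, Finset.mem_singleton] at hi
      rcases hi with rfl | rfl | rfl
      · refine ⟨_, t2, fun w hw => ?_⟩
        simp only [Finset.mem_erase, Finset.mem_union, Finset.mem_insert, Finset.mem_singleton] at hw ⊢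
        tauto
      · refine ⟨_, t3, fun w hw => ?_⟩
        simp only [Finset.mem_erase, Finset.mem_union, Finset.mem_insert, Finset.mem_singleton] at hw ⊢
        tauto
      · refine ⟨_, t1, fun w hw => ?_⟩
        simp only [Finset.mem_erase, Finset.mem_union, Finset.mem_insert, Finset.mem_singleton] at hw ⊢
        tauto
    · intro t htT hsub
      rw [mem_rm3] at htT
      rcases htT with ⟨h, -⟩ | h
      · exact ⟨t, h, Finset.Subset.refl _⟩
      · exact absurd (h ▸ Finset.Subset.refl _) hsub
    · intro t htT hsub j hj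
      rw [Finset.mem_singleton] at hj
      subst hj
      refine ⟨_, habc, fun w hw => ?_⟩
      rw [Finset.singleton_subset_iff] at hsub
      rcases (ht t).mp ⟨htT, hsub⟩ with h | h | h <;>
      · rw [h] at hw
        simp only [Finset.mem_erase, Finset.mem_union, Finset.mem_insert, Finset.mem_singleton] at hw ⊢
        tauto
    · intro t htT hsub
      rw [Finset.singleton_subset_iff] at hsub
      exact ⟨t, hkeep t htT hsub, Finset.Subset.refl _⟩

end Pool.Agent.TSP
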