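import Pool.Agent.TSP.P3Stmts

/-! Module RMB: removal of a vertex of degree 4 on a diagonal. -/

set_option autoImplicit false

open scoped RealInnerProductSpace

namespace Pool.Agent.TSP

open Pool.Agent.TSM

namespace RMB_

section
variable {V : Type} [DecidableEq V]

theorem facts {T : Finset (Finset V)} {v a b c d : V} (h : IsLink T v [a, b, c, d]) :
    (a ≠ b ∧ a ≠ c ∧ a ≠ d ∧ b ≠ c ∧ b ≠ d ∧ c ≠ d) ∧ (v ≠ a ∧ v ≠ b ∧ v ≠ c ∧ v ≠ d) ∧
    ∀ t : Finset V, (t ∈ T ∧ v ∈ t) ↔
      (t = {v, a, b} ∨ t = {v, b, c} ∨ t = {v, c, d} ∨ t = {v, d, a}) := by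
  obtain ⟨-, hnd, hv, ht⟩ := h
  simp only [List.nodup_cons, List.mem_cons, List.not_mem_nil, or_false, not_or,
    List.nodup_nil, and_true, not_false_eq_true] at hnd hv
  refine ⟨⟨hnd.1.1, hnd.1.2.1, hnd.1.2.2, hnd.2.1.1, hnd.2.1.2, hnd.2.2⟩, hv, fun t => ?_⟩
  rw [ht]
  simp only [cyc, conseq, List.cons_append, List.nil_append, List.mem_cons, List.not_mem_nil,
    or_false, Prod.mk.injEq]
  constructor
  · rintro ⟨x, y, (⟨rfl, rfl⟩ | ⟨rfl, rfl⟩ | ⟨rfl, rfl⟩ | ⟨rfl, rfl⟩), h⟩
    · exact Or.inl h
    · exact Or.inr (Or.inl h)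
    · exact Or.inr (Or.inr (Or.inl h))
    · exact Or.inr (Or.inr (Or.inr h))
  · rintro (h | h | h | h)
    · exact ⟨a, b, Or.inl ⟨rfl, rfl⟩, h⟩
    · exact ⟨b, c, Or.inr (Or.inl ⟨rfl, rfl⟩), h⟩
    · exact ⟨c, d, Or.inr (Or.inr (Or.inl ⟨rfl, rfl⟩)), h⟩
    · exact ⟨d, a, Or.inr (Or.inr (Or.inr ⟨rfl, rfl⟩)), h⟩

theorem rot {T : Finset (Finset V)} {v a b c d : V} (h : IsLink T v [a, b, c, d]) :
    IsLink T v [c, d, a, b] := by
  obtain ⟨⟨n1, n2, n3, n4, n5, n6⟩, ⟨m1, m2, m3, m4⟩, ht⟩ := facts h
  refine ⟨by simp, ?_, ?_, fun t => ?_⟩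
  · simp only [List.nodup_cons, List.mem_cons, List.not_mem_nil, or_false, not_or,
      List.nodup_nil, and_true, not_false_eq_true]
    exact ⟨⟨n6, n2.symm, n4.symm⟩, ⟨n3.symm, n5.symm⟩, n1⟩
  · simp only [List.mem_cons, List.not_mem_nil, or_false, not_or]
    exact ⟨m3, m4, m1, m2⟩
  · rw [ht]
    simp only [cyc, conseq, List.cons_append, List.nil_append, List.mem_cons, List.not_mem_nil,
      or_false, Prod.mk.injEq]
    constructor
    · rintro (h | h | h | h)
      · exact ⟨a, b, Or.inr (Or.inr (Or.inl ⟨rfl, rfl⟩)), h⟩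
      · exact ⟨b, c, Or.inr (Or.inr (Or.inr ⟨rfl, rfl⟩)), h⟩
      · exact ⟨c, d, Or.inl ⟨rfl, rfl⟩, h⟩
      · exact ⟨d, a, Or.inr (Or.inl ⟨rfl, rfl⟩), h⟩
    · rintro ⟨x, y, (⟨rfl, rfl⟩ | ⟨rfl, rfl⟩ | ⟨rfl, rfl⟩ | ⟨rfl, rfl⟩), hh⟩
      · exact Or.inr (Or.inr (Or.inl hh))
      · exact Or.inr (Or.inr (Or.inr hh))
      · exact Or.inl hh
      · exact Or.inr (Or.inl hh)

theorem rm4_rot (T : Finset (Finset V)) (v a b c d : V) :
    rm4T T v a b c d = rm4T T v c d a b := by
  have e1 : ({c, d, a} : Finset V) = {a, c, d} := by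
    ext w
    simp only [Finset.mem_insert, Finset.mem_singleton]
    tauto
  have e2 : ({c, a, b} : Finset V) = {a, b, c} := by
    ext w
    simp only [Finset.mem_insert, Finset.mem_singleton]
    tauto
  unfold rm4T
  rw [e1, e2]
  ext t
  simp only [Finset.mem_union, Finset.mem_sdiff, Finset.mem_insert, Finset.mem_singleton]
  tauto

theorem mem_rm4 (T : Finset (Finset V)) (v a b c d : V) (t : Finset V) :
    t ∈ rm4T T v a b c d ↔
      (t ∈ T ∧ t ≠ {v, a, b} ∧ t ≠ {v, b, c} ∧ t ≠ {v, c, d} ∧ t ≠ {v, d, a}) ∨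
        t = {a, b, c} ∨ t = {a, c, d} := by
  unfold rm4T
  simp only [Finset.mem_union, Finset.mem_sdiff, Finset.mem_insert, Finset.mem_singleton, not_or]

theorem mem_arcs {T : Finset (Finset V)} {v : V} {s : Finset V} :
    s ∈ arcs T v ↔ ∃ t ∈ T, v ∈ t ∧ t.erase v = s := by
  unfold arcs
  simp only [Finset.mem_image, Finset.mem_filter, and_assoc]

theorem arc_mem {T : Finset (Finset V)} {v x y : V} (hx : v ≠ x) (hy : v ≠ y)
    (h : {v, x, y} ∈ T) : {x, y} ∈ arcs T v := by
  refine mem_arcs.2 ⟨_, h, by simp, ?_⟩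
  ext w
  simp only [Finset.mem_erase, Finset.mem_insert, Finset.mem_singleton]
  constructor
  · rintro ⟨h1, h2 | h2 | h2⟩
    · exact absurd h2 h1
    · exact Or.inl h2
    · exact Or.inr h2
  · rintro (h2 | h2)
    · exact ⟨fun h3 => hx (h3.symm.trans h2), Or.inr (Or.inl h2)⟩
    · exact ⟨fun h3 => hy (h3.symm.trans h2), Or.inr (Or.inr h2)⟩

end

section
variable {V : Type} [Fintype V] [DecidableEq V]

/-- `a` and `c` are not adjacent. -/
theorem nonadj (h4 : Stmt_Crn) {T : Finset (Finset V)} {p : V → E3} {v a b c d : V} {la lc : ℝ}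
    (hF : Fam T) (hE : Emb T p) (hv : IsLink T v [a, b, c, d]) (hc : 0 < lc)
    (hs : la + lc = 1) (hp : p v = la • p a + lc • p c) :
    ∀ t ∈ T, a ∈ t → c ∉ t := by
  obtain ⟨⟨nab, nac, nad, nbc, nbd, ncd⟩, ⟨nva, nvb, nvc, nvd⟩, ht⟩ := facts hv
  intro t htT hat hct
  have t1 : ({v, a, b} : Finset V) ∈ T := ((ht _).mpr (Or.inl rfl)).1
  have e1 : ({a, v, b} : Finset V) = {v, a, b} := by
    ext w
    simp only [Finset.mem_insert, Finset.mem_singleton]
    tauto
  have hvt : v ∉ t := by
    intro hvt
    rcases (ht t).mp ⟨htT, hvt⟩ with h | h | h | h <;> rw [h] at hat hct <;>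
      simp only [Finset.mem_insert, Finset.mem_singleton] at hat hct
    · rcases hct with h | h | h
      · exact nvc h.symm
      · exact nac h.symm
      · exact nbc h.symm
    · rcases hat with h | h | h
      · exact nva h.symm
      · exact nab h
      · exact nac h
    · rcases hat with h | h | h
      · exact nva h.symm
      · exact nac h
      · exact nad h
    · rcases hct with h | h | h
      · exact nvc h.symm
      · exact ncd h
      · exact nac h.symm
  have hcard : (t.erase a).card = 2 := by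
    rw [Finset.card_erase_of_mem hat, hF.card3 t htT]
  have hca : c ∈ t.erase a := Finset.mem_erase.2 ⟨nac.symm, hct⟩
  obtain ⟨y, hy⟩ : ∃ y, t.erase a = {c, y} := by
    have h2 : ((t.erase a).erase c).card = 1 := by
      rw [Finset.card_erase_of_mem hca, hcard]
    obtain ⟨y, hy⟩ := Finset.card_eq_one.mp h2
    refine ⟨y, ?_⟩
    rw [← Finset.insert_erase hca, hy]
  have hyt : y ∈ t := by
    have : y ∈ t.erase a := by rw [hy]; simp
    exact Finset.mem_of_mem_erase this
  have hd : p v - p a = lc • (p c - p a) + (0 : ℝ) • (p y - p a) := by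
    have : la = 1 - lc := by linarith
    rw [hp, this]
    module
  have hA : ({c, y} : Finset V) ∈ arcs T a := mem_arcs.2 ⟨t, htT, hat, hy⟩
  have hvarc : ({v, b} : Finset V) ∈ arcs T a := arc_mem nva.symm nab (by rw [e1]; exact t1)
  have := (h4 V (arcs T a) (fun u => p u - p a) (hE a)).2.1 c y v lc 0 hA hc.le le_rfl hd nvc
    (fun h => hvt (h ▸ hyt)) _ hvarc
  exact this (by simp)

/-- Renaming at `a`. -/
theorem atA (h1 : Stmt_Lsa) (h2 : Stmt_Lsb) (h4 : Stmt_Crn)
    {T : Finset (Finset V)} {p : V → E3} {v a b c d : V} {la lc : ℝ} (hF : Fam T)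
    (hE : Emb T p) (hv : IsLink T v [a, b, c, d]) (hc : 0 < lc)
    (hs : la + lc = 1) (hp : p v = la • p a + lc • p c) :
    ∃ r, IsLink (rm4T T v a b c d) a (d :: c :: b :: r) ∧
      ConeInj (arcs (rm4T T v a b c d) a) (fun u => p u - p a) := by
  have hno := nonadj h4 hF hE hv hc hs hp
  obtain ⟨⟨nab, nac, nad, nbc, nbd, ncd⟩, ⟨nva, nvb, nvc, nvd⟩, ht⟩ := facts hv
  have t1 : ({v, a, b} : Finset V) ∈ T := ((ht _).mpr (Or.inl rfl)).1
  have t4 : ({v, d, a} : Finset V) ∈ T := ((ht _).mpr (Or.inr (Or.inr (Or.inr rfl)))).1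
  have e1 : ({a, v, b} : Finset V) = {v, a, b} := by
    ext w
    simp only [Finset.mem_insert, Finset.mem_singleton]
    tauto
  have e4 : ({a, d, v} : Finset V) = {v, d, a} := by
    ext w
    simp only [Finset.mem_insert, Finset.mem_singleton]
    tauto
  have e5 : ({a, d, c} : Finset V) = {a, c, d} := by
    ext w
    simp only [Finset.mem_insert, Finset.mem_singleton]
    tauto
  have e6 : ({a, c, b} : Finset V) = {a, b, c} := by
    ext w
    simp only [Finset.mem_insert, Finset.mem_singleton]
    tauto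
  have hd : p v - p a = lc • (p c - p a) := by
    have : la = 1 - lc := by linarith
    rw [hp, this]
    module
  obtain ⟨l, hl⟩ := hF.link a ⟨_, t1, by simp⟩
  obtain ⟨-, -, -, -, g5, -, -, -⟩ := h1 V T a l hl
  obtain ⟨r, hr, -⟩ := g5 d v b nbd.symm nvd.symm nvb nad nva.symm nab (by rw [e4]; exact t4)
    (by rw [e1]; exact t1)
  have hcn : c ∉ d :: v :: b :: r := by
    intro h
    obtain ⟨_, t, htT, hat, hct⟩ := ((h1 V T a _ hr).2.2.1 c).1 h
    exact hno t htT hat hct
  have hloc : Local T (rm4T T v a b c d) {{a, d, v}, {a, v, b}} {{a, d, c}, {a, c, b}} a := by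
    intro t hat
    rw [mem_rm4]
    simp only [Finset.mem_insert, Finset.mem_singleton, not_or]
    rw [e1, e4, e5, e6]
    have h7 : t ≠ {v, b, c} := by
      rintro rfl
      simp only [Finset.mem_insert, Finset.mem_singleton] at hat
      rcases hat with h | h | h
      · exact nva h.symm
      · exact nab h
      · exact nac h
    have h8 : t ≠ {v, c, d} := by
      rintro rfl
      simp only [Finset.mem_insert, Finset.mem_singleton] at hat
      rcases hat with h | h | h
      · exact nva h.symm
      · exact nac h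
      · exact nad h
    tauto
  obtain ⟨k1, k2, k3⟩ := (h2 V T (rm4T T v a b c d) a).2.2.2 d v b c r hr hcn nac.symm hloc
  refine ⟨r, k1, ?_⟩
  rw [k2]
  exact (h4 V (arcs T a) (fun u => p u - p a) (hE a)).1 v c lc k3 hc hd

/-- Deletion at `b`. -/
theorem atB (h1 : Stmt_Lsa) (h2 : Stmt_Lsb) (h3 : Stmt_Csd)
    {T : Finset (Finset V)} {p : V → E3} {v a b c d : V} {la lc : ℝ} (hF : Fam T)
    (hE : Emb T p) (hv : IsLink T v [a, b, c, d]) (ha : 0 < la) (hc : 0 < lc)
    (hs : la + lc = 1) (hp : p v = la • p a + lc • p c) (hno : ∀ t ∈ T, a ∈ t → c ∉ t) :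
    ∃ r, IsLink (rm4T T v a b c d) b (a :: c :: r) ∧
      ConeInj (arcs (rm4T T v a b c d) b) (fun u => p u - p b) := by
  obtain ⟨⟨nab, nac, nad, nbc, nbd, ncd⟩, ⟨nva, nvb, nvc, nvd⟩, ht⟩ := facts hv
  have t1 : ({v, a, b} : Finset V) ∈ T := ((ht _).mpr (Or.inl rfl)).1
  have t2 : ({v, b, c} : Finset V) ∈ T := ((ht _).mpr (Or.inr (Or.inl rfl))).1
  have e1 : ({b, a, v} : Finset V) = {v, a, b} := by
    ext w
    simp only [Finset.mem_insert, Finset.mem_singleton]
    tauto
  have e2 : ({b, v, c} : Finset V) = {v, b, c} := by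
    ext w
    simp only [Finset.mem_insert, Finset.mem_singleton]
    tauto
  have e3 : ({b, a, c} : Finset V) = {a, b, c} := by
    ext w
    simp only [Finset.mem_insert, Finset.mem_singleton]
    tauto
  have hd : p v - p b = la • (p a - p b) + lc • (p c - p b) := by
    have : la = 1 - lc := by linarith
    rw [hp, this]
    module
  obtain ⟨l, hl⟩ := hF.link b ⟨_, t1, by simp⟩
  obtain ⟨-, -, -, -, g5, -, -, -⟩ := h1 V T b l hl
  obtain ⟨r, hr, -⟩ := g5 a v c nac nva.symm nvc nab.symm nvb.symm nbc (by rw [e1]; exact t1)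
    (by rw [e2]; exact t2)
  have hr0 : r ≠ [] := by
    rintro rfl
    have h6 : ({b, c, a} : Finset V) ∈ T := by
      have := (hr.2.2.2 {b, c, a}).2 ⟨c, a, by simp [cyc, conseq], rfl⟩
      exact this.1
    exact hno _ h6 (by simp) (by simp)
  have hloc : Local T (rm4T T v a b c d) {{b, a, v}, {b, v, c}} {{b, a, c}} b := by
    intro t hbt
    rw [mem_rm4]
    simp only [Finset.mem_insert, Finset.mem_singleton, not_or]
    rw [e1, e2, e3]
    have h7 : t ≠ {v, c, d} := by
      rintro rfl
      simp only [Finset.mem_insert, Finset.mem_singleton] at hbt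
      rcases hbt with h | h | h
      · exact nvb h.symm
      · exact nbc h
      · exact nbd h
    have h8 : t ≠ {v, d, a} := by
      rintro rfl
      simp only [Finset.mem_insert, Finset.mem_singleton] at hbt
      rcases hbt with h | h | h
      · exact nvb h.symm
      · exact nbd h
      · exact nab h.symm
    have h9 : t ≠ {a, c, d} := by
      rintro rfl
      simp only [Finset.mem_insert, Finset.mem_singleton] at hbt
      rcases hbt with h | h | h
      · exact nab h.symm
      · exact nbc h
      · exact nbd h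
    tauto
  obtain ⟨k1, k2, k3, k4⟩ := (h2 V T (rm4T T v a b c d) b).2.1 a v c r hr hr0 hloc
  refine ⟨r, k1, ?_⟩
  have hcard : ∀ s ∈ arcs (rm4T T v a b c d) b, s.card = 2 := fun s hs' =>
    ((h1 V _ b _ k1).2.2.2.2.2.2.2 s hs').1
  rw [h3 V (arcs (rm4T T v a b c d) b) (fun u => p u - p b) a c v la lc nac hcard k3 k4 ha hc hd,
    ← k2]
  exact hE b

end

end RMB_

open RMB_

theorem rmb_proof (h1 : Stmt_Lsa) (h2 : Stmt_Lsb) (h3 : Stmt_Csd) (h4 : Stmt_Crn)
    (h5 : Stmt_Exh) : Stmt_Rmb := by
  intro V _ _ T p v a b c d la lc hF hE hv ha hc hs hp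
  obtain ⟨⟨nab, nac, nad, nbc, nbd, ncd⟩, ⟨nva, nvb, nvc, nvd⟩, ht⟩ := facts hv
  have hno := nonadj h4 hF hE hv hc hs hp
  have hno' : ∀ t ∈ T, c ∈ t → a ∉ t := fun t htT h h' => hno t htT h' h
  have hv2 := rot hv
  have hs2 : lc + la = 1 := by linarith
  have hp2 : p v = lc • p c + la • p a := by rw [hp]; abel
  obtain ⟨ra, hla, hea⟩ := atA h1 h2 h4 hF hE hv hc hs hp
  obtain ⟨rb, hlb, heb⟩ := atB h1 h2 h3 hF hE hv ha hc hs hp hno
  obtain ⟨rc, hlc, hec⟩ := atA h1 h2 h4 hF hE hv2 ha hs2 hp2
  obtain ⟨rd, hld, hed⟩ := atB h1 h2 h3 hF hE hv2 hc ha hs2 hp2 hno'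
  rw [← rm4_rot] at hlc hec hld hed
  have t1 : ({v, a, b} : Finset V) ∈ T := ((ht _).mpr (Or.inl rfl)).1
  have t2 : ({v, b, c} : Finset V) ∈ T := ((ht _).mpr (Or.inr (Or.inl rfl))).1
  have t3 : ({v, c, d} : Finset V) ∈ T := ((ht _).mpr (Or.inr (Or.inr (Or.inl rfl)))).1
  have t4 : ({v, d, a} : Finset V) ∈ T := ((ht _).mpr (Or.inr (Or.inr (Or.inr rfl)))).1
  have habc : ({a, b, c} : Finset V) ∈ rm4T T v a b c d :=
    (mem_rm4 _ _ _ _ _ _ _).mpr (Or.inr (Or.inl rfl))
  have hacd : ({a, c, d} : Finset V) ∈ rm4T T v a b c d :=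
    (mem_rm4 _ _ _ _ _ _ _).mpr (Or.inr (Or.inr rfl))
  have c1 : ({a, b, c} : Finset V).card = 3 :=
    Finset.card_eq_three.mpr ⟨a, b, c, nab, nac, nbc, rfl⟩
  have c2 : ({a, c, d} : Finset V).card = 3 :=
    Finset.card_eq_three.mpr ⟨a, c, d, nac, nad, ncd, rfl⟩
  have hnv : ∀ t ∈ rm4T T v a b c d, v ∉ t := by
    intro t htT hvt
    rw [mem_rm4] at htT
    rcases htT with ⟨h, g1, g2, g3, g4⟩ | h | h
    · rcases (ht t).mp ⟨h, hvt⟩ with h | h | h | h
      · exact g1 h
      · exact g2 h
      · exact g3 h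
      · exact g4 h
    · rw [h] at hvt
      simp only [Finset.mem_insert, Finset.mem_singleton] at hvt
      rcases hvt with h | h | h
      · exact nva h
      · exact nvb h
      · exact nvc h
    · rw [h] at hvt
      simp only [Finset.mem_insert, Finset.mem_singleton] at hvt
      rcases hvt with h | h | h
      · exact nva h
      · exact nvc h
      · exact nvd h
  have hkeep : ∀ t ∈ T, v ∉ t → t ∈ rm4T T v a b c d := by
    intro t htT hvt
    rw [mem_rm4]
    refine Or.inl ⟨htT, ?_, ?_, ?_, ?_⟩ <;> · rintro rfl; exact hvt (by simp)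
  have hloc : ∀ u, u ≠ v → u ≠ a → u ≠ b → u ≠ c → u ≠ d →
      Local T (rm4T T v a b c d) ∅ ∅ u := by
    intro u uv ua ub uc ud t hut
    rw [mem_rm4]
    constructor
    · rintro (⟨h, -⟩ | h | h)
      · exact Or.inl ⟨h, Finset.notMem_empty _⟩
      · exfalso
        rw [h] at hut
        simp only [Finset.mem_insert, Finset.mem_singleton] at hut
        rcases hut with h | h | h
        · exact ua h
        · exact ub h
        · exact uc h
      · exfalso
        rw [h] at hut
        simp only [Finset.mem_insert, Finset.mem_singleton] at hut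
        rcases hut with h | h | h
        · exact ua h
        · exact uc h
        · exact ud h
    · rintro (⟨h, -⟩ | h)
      · refine Or.inl ⟨h, ?_, ?_, ?_, ?_⟩ <;>
        · rintro rfl
          simp only [Finset.mem_insert, Finset.mem_singleton] at hut
          rcases hut with h | h | h
          all_goals first | exact uv h | exact ua h | exact ub h | exact uc h | exact ud h
      · exact absurd h (Finset.notMem_empty _)
  refine ⟨⟨?_, ?_⟩, ?_, ?_, ?_⟩
  · intro t htT
    rw [mem_rm4] at htT
    rcases htT with ⟨h, -⟩ | h | h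
    · exact hF.card3 t h
    · rw [h]
      exact c1
    · rw [h]
      exact c2
  · rintro u ⟨t, htT, hut⟩
    by_cases ua : u = a
    · subst ua
      exact ⟨_, hla⟩
    by_cases ub : u = b
    · subst ub
      exact ⟨_, hlb⟩
    by_cases uc : u = c
    · subst uc
      exact ⟨_, hlc⟩
    by_cases ud : u = d
    · subst ud
      exact ⟨_, hld⟩
    have uv : u ≠ v := by
      rintro rfl
      exact hnv t htT hut
    have hU : Used T u := by
      rw [mem_rm4] at htT
      rcases htT with ⟨h, -⟩ | h | h
      · exact ⟨t, h, hut⟩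
      · exfalso
        rw [h] at hut
        simp only [Finset.mem_insert, Finset.mem_singleton] at hut
        rcases hut with h | h | h
        · exact ua h
        · exact ub h
        · exact uc h
      · exfalso
        rw [h] at hut
        simp only [Finset.mem_insert, Finset.mem_singleton] at hut
        rcases hut with h | h | h
        · exact ua h
        · exact uc h
        · exact ud h
    obtain ⟨l, hl⟩ := hF.link u hU
    exact ⟨l, ((h2 V T _ u).1 l hl (hloc u uv ua ub uc ud)).1⟩
  · intro u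
    by_cases ua : u = a
    · subst ua
      exact hea
    by_cases ub : u = b
    · subst ub
      exact heb
    by_cases uc : u = c
    · subst uc
      exact hec
    by_cases ud : u = d
    · subst ud
      exact hed
    by_cases uv : u = v
    · subst uv
      intro σ hσ
      exfalso
      obtain ⟨t, ht', hvt, -⟩ := mem_arcs.1 hσ
      exact hnv t ht' hvt
    · have : arcs (rm4T T v a b c d) u = arcs T u := by
        ext s
        rw [mem_arcs, mem_arcs]
        constructor
        · rintro ⟨t, h, h', h''⟩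
          refine ⟨t, ?_, h', h''⟩
          rcases (hloc u uv ua ub uc ud t h').mp h with h | h
          · exact h.1
          · exact absurd h (Finset.notMem_empty _)
        · rintro ⟨t, h, h', h''⟩
          exact ⟨t, (hloc u uv ua ub uc ud t h').mpr (Or.inl ⟨h, Finset.notMem_empty _⟩), h', h''⟩
      rw [this]
      exact hE u
  · intro u
    constructor
    · rintro ⟨t, htT, hut⟩
      refine ⟨?_, fun h => hnv t htT (h ▸ hut)⟩
      rw [mem_rm4] at htT
      rcases htT with ⟨h, -⟩ | h | h
      · exact ⟨t, h, hut⟩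
      · rw [h] at hut
        simp only [Finset.mem_insert, Finset.mem_singleton] at hut
        rcases hut with h | h | h
        · exact ⟨_, t1, by simp [h]⟩
        · exact ⟨_, t1, by simp [h]⟩
        · exact ⟨_, t2, by simp [h]⟩
      · rw [h] at hut
        simp only [Finset.mem_insert, Finset.mem_singleton] at hut
        rcases hut with h | h | h
        · exact ⟨_, t1, by simp [h]⟩
        · exact ⟨_, t2, by simp [h]⟩
        · exact ⟨_, t3, by simp [h]⟩
    · rintro ⟨⟨t, htT, hut⟩, uv⟩
      by_cases hvt : v ∈ t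
      · have hu : u = a ∨ u = b ∨ u = c ∨ u = d := by
          rcases (ht t).mp ⟨htT, hvt⟩ with h | h | h | h <;>
          · rw [h] at hut
            simp only [Finset.mem_insert, Finset.mem_singleton] at hut
            tauto
        rcases hu with h | h | h | h
        · exact ⟨_, habc, by simp [h]⟩
        · exact ⟨_, habc, by simp [h]⟩
        · exact ⟨_, habc, by simp [h]⟩
        · exact ⟨_, hacd, by simp [h]⟩
      · exact ⟨t, hkeep t htT hvt, hut⟩
  · -- the homeomorphism
    obtain ⟨w, wa, wc, wv⟩ : ∃ w : V → ℝ, w a = la ∧ w c = lc ∧ w v = 1 := by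
      refine ⟨fun u => if u = a then la else if u = c then lc else 1, ?_, ?_, ?_⟩
      · simp
      · simp [nac.symm]
      · simp [nva, nvc]
    have hpos : ∀ i ∈ ({a, c} : Finset V), 0 < w i := by
      intro i hi
      simp only [Finset.mem_insert, Finset.mem_singleton] at hi
      rcases hi with rfl | rfl
      · rw [wa]; exact ha
      · rw [wc]; exact hc
    have key := h5 V (rm4T T v a b c d) T {a, c} {v} w
      ⟨a, by simp⟩ ⟨v, by simp⟩ ?_ hpos ?_ ?_ ?_ ?_ ?_ ?_ ?_ ?_
    · obtain ⟨h, hh⟩ := key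
      have hlin : ∀ x, lin p (h x).1 = lin p x.1 := by
        intro x
        obtain ⟨τ, -, -, hx⟩ := hh x
        have e1 : ∀ u, (h x).1 u • p u = x.1 u • p u -
            τ • ((if u ∈ ({a, c} : Finset V) then w u • p u else 0) -
              (if u ∈ ({v} : Finset V) then w u • p u else 0)) := by
          intro u
          rw [hx u, sub_smul, mul_smul, sub_smul, ite_smul, ite_smul, zero_smul]
        unfold lin
        rw [Finset.sum_congr rfl (fun u _ => e1 u), Finset.sum_sub_distrib, ← Finset.smul_sum,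
          Finset.sum_sub_distrib, Finset.sum_ite_mem, Finset.sum_ite_mem, Finset.univ_inter,
          Finset.univ_inter, Finset.sum_singleton, Finset.sum_pair nac, wa, wc, wv, one_smul, hp,
          sub_self, smul_zero, sub_zero]
      refine ⟨h.symm, fun x => ?_⟩
      have := hlin (h.symm x)
      rw [Homeomorph.apply_symm_apply] at this
      exact this.symm
    · rw [Finset.disjoint_singleton_right]
      simp only [Finset.mem_insert, Finset.mem_singleton, not_or]
      exact ⟨nva, nvc⟩
    · intro i hi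
      rw [Finset.mem_singleton] at hi
      rw [hi, wv]
      exact one_pos
    · rw [Finset.sum_singleton, Finset.sum_pair nac, wa, wc, wv]
      exact hs
    · intro t htT hsub
      exact hnv t htT (hsub (Finset.mem_singleton_self v))
    · intro t htT hsub
      exact hno t htT (hsub (by simp)) (hsub (by simp))
    · intro t htT hsub i hi
      have hat : a ∈ t := hsub (by simp)
      have hct : c ∈ t := hsub (by simp)
      rw [mem_rm4] at htT
      simp only [Finset.mem_insert, Finset.mem_singleton] at hi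
      rcases htT with ⟨h, -⟩ | h | h
      · exact absurd hct (hno t h hat)
      · rw [h]
        rcases hi with rfl | rfl
        · refine ⟨_, t2, fun w hw => ?_⟩
          simp only [Finset.mem_erase, Finset.mem_union, Finset.mem_insert,
            Finset.mem_singleton] at hw ⊢
          tauto
        · refine ⟨_, t1, fun w hw => ?_⟩
          simp only [Finset.mem_erase, Finset.mem_union, Finset.mem_insert,
            Finset.mem_singleton] at hw ⊢
          tauto
      · rw [h]
        rcases hi with rfl | rfl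
        · refine ⟨_, t3, fun w hw => ?_⟩
          simp only [Finset.mem_erase, Finset.mem_union, Finset.mem_insert,
            Finset.mem_singleton] at hw ⊢
          tauto
        · refine ⟨_, t4, fun w hw => ?_⟩
          simp only [Finset.mem_erase, Finset.mem_union, Finset.mem_insert,
            Finset.mem_singleton] at hw ⊢
          tauto
    · intro t htT hsub
      rw [mem_rm4] at htT
      rcases htT with ⟨h, -⟩ | h | h
      · exact ⟨t, h, Finset.Subset.refl _⟩
      · exfalso
        apply hsub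
        rw [h]
        intro w
        simp only [Finset.mem_insert, Finset.mem_singleton]
        tauto
      · exfalso
        apply hsub
        rw [h]
        intro w
        simp only [Finset.mem_insert, Finset.mem_singleton]
        tauto
    · intro t htT hsub j hj
      rw [Finset.mem_singleton] at hj
      subst hj
      rw [Finset.singleton_subset_iff] at hsub
      rcases (ht t).mp ⟨htT, hsub⟩ with h | h | h | h
      · refine ⟨_, habc, fun w hw => ?_⟩
        rw [h] at hw
        simp only [Finset.mem_erase, Finset.mem_union, Finset.mem_insert,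
          Finset.mem_singleton] at hw ⊢
        tauto
      · refine ⟨_, habc, fun w hw => ?_⟩
        rw [h] at hw
        simp only [Finset.mem_erase, Finset.mem_union, Finset.mem_insert,
          Finset.mem_singleton] at hw ⊢
        tauto
      · refine ⟨_, hacd, fun w hw => ?_⟩
        rw [h] at hw
        simp only [Finset.mem_erase, Finset.mem_union, Finset.mem_insert,
          Finset.mem_singleton] at hw ⊢
        tauto
      · refine ⟨_, hacd, fun w hw => ?_⟩
        rw [h] at hw
        simp only [Finset.mem_erase, Finset.mem_union, Finset.mem_insert,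
          Finset.mem_singleton] at hw ⊢
        tauto
    · intro t htT hsub
      rw [Finset.singleton_subset_iff] at hsub
      exact ⟨t, hkeep t htT hsub, Finset.Subset.refl _⟩

end Pool.Agent.TSP
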