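import Pool.Agent.TSP.P3Stmts

/-!
# TSP, module SPT: the triangles of a vertex split
-/

set_option autoImplicit false

open Finset

namespace Pool.Agent.TSP

open Pool.Agent.TSM

namespace SPT_

theorem conseq_append {α : Type} : ∀ (l : List α) (x : α) (r : List α),
    conseq (l ++ x :: r) = conseq (l ++ [x]) ++ conseq (x :: r)
  | [], x, r => by simp [conseq]
  | [a], x, r => by simp [conseq]
  | a :: b :: l, x, r => by
    have h := conseq_append (b :: l) x r
    simpa [conseq] using h

theorem mem_of_conseq {α : Type} : ∀ (l : List α) (x y : α), (x, y) ∈ conseq l → x ∈ l ∧ y ∈ l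
  | [], x, y, h => by simp [conseq] at h
  | [a], x, y, h => by simp [conseq] at h
  | a :: b :: l, x, y, h => by
    simp only [conseq, List.mem_cons, Prod.mk.injEq] at h
    rcases h with ⟨rfl, rfl⟩ | h
    · simp
    · have := mem_of_conseq (b :: l) x y h
      exact ⟨List.mem_cons_of_mem _ this.1, List.mem_cons_of_mem _ this.2⟩

theorem ne_of_conseq {α : Type} : ∀ (l : List α) (x y : α), l.Nodup → (x, y) ∈ conseq l → x ≠ y
  | [], x, y, _, h => by simp [conseq] at h
  | [a], x, y, _, h => by simp [conseq] at h
  | a :: b :: l, x, y, hn, h => by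
    simp only [conseq, List.mem_cons, Prod.mk.injEq] at h
    rcases h with ⟨rfl, rfl⟩ | h
    · intro e
      rw [List.nodup_cons] at hn
      exact hn.1 (by rw [e]; simp)
    · exact ne_of_conseq (b :: l) x y (List.nodup_cons.1 hn).2 h

variable {V : Type} [Fintype V] [DecidableEq V]

theorem card3' {α : Type} [DecidableEq α] {x y z : α} (h1 : x ≠ y) (h2 : x ≠ z) (h3 : y ≠ z) :
    ({x, y, z} : Finset α).card = 3 := by
  rw [card_insert_of_notMem, card_insert_of_notMem, card_singleton]
  · simpa using h3
  · simp [h1, h2]

/-- membership in the split family -/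
theorem mem_split (T : Finset (Finset V)) (z a c : V) (mid : List V) (t : Finset (Option V)) :
    t ∈ splitTri T z a c mid ↔
      (∃ s ∈ T, (∀ x y, (x, y) ∈ conseq (a :: mid ++ [c]) → ({z, x, y} : Finset V) ≠ s) ∧
        s.image some = t) ∨
      (∃ x y, (x, y) ∈ conseq (a :: mid ++ [c]) ∧ ({none, some x, some y} : Finset (Option V)) = t) ∨
      t = {some z, some a, none} ∨ t = {some z, none, some c} := by
  unfold splitTri
  simp only [mem_union, mem_image, mem_sdiff, List.mem_toFinset, Prod.exists, mem_insert,
    mem_singleton, not_exists, not_and, or_assoc, and_assoc, ne_eq]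

theorem some_image_ne (s : Finset V) (t : Finset (Option V)) (h : none ∈ t) : s.image some ≠ t := by
  intro e
  rw [← e, mem_image] at h
  obtain ⟨x, _, hx⟩ := h
  exact absurd hx (by simp)

end SPT_

open SPT_ in
theorem spt_proof : Stmt_Spt := by
  intro V _ _ T z a c mid rest hT hl
  obtain ⟨hlen, hnd, hz, hlk⟩ := hl
  refine ⟨?_, ?_⟩
  · rintro m rfl
    ext t
    rw [mem_split]
    simp only [mem_union, mem_image, mem_sdiff, mem_insert, mem_singleton, List.cons_append,
      List.nil_append, conseq, List.mem_cons, Prod.mk.injEq, List.not_mem_nil, or_false]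
    have im : ∀ x y w : V, ({x, y, w} : Finset V).image some = {some x, some y, some w} := by
      intro x y w; simp [image_insert]
    have inj : ∀ s s' : Finset V, s.image some = s'.image some → s = s' := fun s s' h =>
      Finset.image_injective (Option.some_injective V) h
    constructor
    · rintro (⟨s, hs, h1, rfl⟩ | ⟨x, y, h1, rfl⟩ | rfl | rfl)
      · left
        refine ⟨⟨s, hs, rfl⟩, ?_⟩
        rintro (h2 | h2)
        · rw [← im] at h2
          exact h1 a m (Or.inl ⟨rfl, rfl⟩) (inj _ _ h2).symm
        · rw [← im] at h2
          exact h1 m c (Or.inr ⟨rfl, rfl⟩) (inj _ _ h2).symm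
      · right
        rcases h1 with ⟨rfl, rfl⟩ | ⟨rfl, rfl⟩
        · left; rfl
        · right; left; rfl
      · right; right; right; left; rfl
      · right; right; right; right; rfl
    · rintro (⟨⟨s, hs, rfl⟩, h1⟩ | rfl | rfl | rfl | rfl)
      · left
        refine ⟨s, hs, ?_, rfl⟩
        rintro x y (⟨rfl, rfl⟩ | ⟨rfl, rfl⟩) h2
        · exact h1 (Or.inl (by rw [← h2, im]))
        · exact h1 (Or.inr (by rw [← h2, im]))
      · right; left; exact ⟨a, m, Or.inl ⟨rfl, rfl⟩, rfl⟩
      · right; left; exact ⟨m, c, Or.inr ⟨rfl, rfl⟩, rfl⟩
      · right; right; left; rfl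
      · right; right; right; rfl
  · rintro mid' m - rfl
    -- the lists
    set L : List V := a :: mid' ++ [m] with hL
    have eL : a :: ((mid' ++ [m]) ++ c :: rest) = L ++ c :: rest := by simp [hL]
    rw [eL] at hnd hz
    have hcyc : ∀ x y, (x, y) ∈ cyc (a :: ((mid' ++ [m]) ++ c :: rest)) ↔
        (x, y) ∈ conseq L ∨ (x = m ∧ y = c) ∨ (x, y) ∈ conseq (c :: (rest ++ [a])) := by
      intro x y
      have e1 : cyc (a :: ((mid' ++ [m]) ++ c :: rest)) =
          conseq ((a :: mid') ++ m :: (c :: (rest ++ [a]))) := by
        unfold cyc; simp
      rw [e1, conseq_append]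
      have e2 : conseq (m :: (c :: (rest ++ [a]))) = (m, c) :: conseq (c :: (rest ++ [a])) := rfl
      rw [e2]
      simp [hL]
    have hconL : conseq (a :: (mid' ++ [m]) ++ [c]) = conseq L ++ [(m, c)] := by
      have e1 : a :: (mid' ++ [m]) ++ [c] = (a :: mid') ++ m :: [c] := by simp
      rw [e1, conseq_append]
      simp [hL, conseq]
    have hLnd : L.Nodup := (List.nodup_append.1 hnd).1
    have hcL : c ∉ L := by
      intro h
      exact (List.nodup_append.1 hnd).2.2 c h c (by simp) rfl
    have hmL : m ∈ L := by simp [hL]
    have haL : a ∈ L := by simp [hL]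
    have hzL : z ∉ L := fun h => hz (List.mem_append_left _ h)
    have hzc : z ≠ c := fun h => hz (by simp [h])
    have hzm : z ≠ m := fun h => hzL (h ▸ hmL)
    have hza : z ≠ a := fun h => hzL (h ▸ haL)
    have hmc : m ≠ c := fun h => hcL (h ▸ hmL)
    have hac : a ≠ c := fun h => hcL (h ▸ haL)
    have ham : a ≠ m := by
      intro h
      rw [hL, List.cons_append, List.nodup_cons] at hLnd
      exact hLnd.1 (by rw [h]; simp)
    have hm3 : m ∉ c :: (rest ++ [a]) := by
      intro h
      simp only [List.mem_cons, List.mem_append, List.not_mem_nil, or_false] at h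
      rcases h with h | h | h
      · exact hmc h
      · exact (List.nodup_append.1 hnd).2.2 m hmL m (by simp [h]) rfl
      · exact ham h.symm
    have htri : ({z, m, c} : Finset V) ∈ T :=
      ((hlk _).2 ⟨m, c, (hcyc m c).2 (Or.inr (Or.inl ⟨rfl, rfl⟩)), rfl⟩).1
    have hnot : ∀ x y, (x, y) ∈ conseq L → ({z, x, y} : Finset V) ≠ {z, m, c} := by
      intro x y hxy e
      have hx := mem_of_conseq _ _ _ hxy
      have hc : c ∈ ({z, x, y} : Finset V) := by rw [e]; simp
      simp only [mem_insert, mem_singleton] at hc
      rcases hc with h | h | h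
      · exact hzc h.symm
      · exact hcL (h ▸ hx.1)
      · exact hcL (h ▸ hx.2)
    have im : ∀ x y w : V, ({x, y, w} : Finset V).image some = {some x, some y, some w} := by
      intro x y w; simp [image_insert]
    have inj : ∀ s s' : Finset V, s.image some = s'.image some → s = s' := fun s s' h =>
      Finset.image_injective (Option.some_injective V) h
    refine ⟨?_, ?_, ?_, ?_, ?_, ?_⟩
    · ext t
      unfold flipT
      rw [mem_union, mem_sdiff, mem_split, mem_split, hconL]
      simp only [mem_insert, mem_singleton, List.mem_append, List.mem_cons, List.not_mem_nil,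
        or_false, Prod.mk.injEq]
      rw [← hL]
      constructor
      · rintro (⟨s, hs, h1, rfl⟩ | ⟨x, y, h1, rfl⟩ | rfl | rfl)
        · left
          refine ⟨Or.inl ⟨s, hs, fun x y h => h1 x y (Or.inl h), rfl⟩, ?_⟩
          rintro (h2 | h2)
          · exact some_image_ne s _ (by simp) h2
          · rw [← im] at h2
            exact h1 m c (Or.inr ⟨rfl, rfl⟩) (inj _ _ h2).symm
        · rcases h1 with h1 | ⟨rfl, rfl⟩
          · left
            refine ⟨Or.inr (Or.inl ⟨x, y, h1, rfl⟩), ?_⟩
            have hx := mem_of_conseq _ _ _ h1
            rintro (h2 | h2)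
            · have : some z ∈ ({none, some x, some y} : Finset (Option V)) := by rw [h2]; simp
              simp only [mem_insert, mem_singleton, reduceCtorEq, Option.some.injEq,
                false_or] at this
              rcases this with h | h
              · exact hzL (h ▸ hx.1)
              · exact hzL (h ▸ hx.2)
            · have : (none : Option V) ∈ ({some z, some m, some c} : Finset (Option V)) := by
                rw [← h2]; simp
              simp at this
          · right; right; rfl
        · left
          refine ⟨Or.inr (Or.inr (Or.inl rfl)), ?_⟩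
          rintro (h2 | h2)
          · have : some a ∈ ({some z, none, some m} : Finset (Option V)) := by rw [← h2]; simp
            simp only [mem_insert, mem_singleton, reduceCtorEq, Option.some.injEq,
              false_or] at this
            rcases this with h | h
            · exact hza h.symm
            · exact ham h
          · have : (none : Option V) ∈ ({some z, some m, some c} : Finset (Option V)) := by
              rw [← h2]; simp
            simp at this
        · right; left; rfl
      · rintro (⟨⟨s, hs, h1, rfl⟩ | ⟨x, y, h1, rfl⟩ | rfl | rfl, h2⟩ | rfl | rfl)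
        · left
          refine ⟨s, hs, ?_, rfl⟩
          rintro x y (h3 | ⟨rfl, rfl⟩)
          · exact h1 x y h3
          · intro e
            exact h2 (Or.inr (by rw [← e, im]))
        · right; left; exact ⟨x, y, Or.inl h1, rfl⟩
        · right; right; left; rfl
        · exact absurd (Or.inl rfl) h2
        · right; right; right; rfl
        · right; left; exact ⟨m, c, Or.inr ⟨rfl, rfl⟩, rfl⟩
    · rw [mem_split]
      right; right; right; rfl
    · rw [mem_split]
      left
      exact ⟨{z, m, c}, htri, hnot, im _ _ _⟩
    · intro t ht hzt hmt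
      rw [mem_split, ← hL] at ht
      rcases ht with ⟨s, hs, h1, rfl⟩ | ⟨x, y, h1, rfl⟩ | rfl | rfl
      · right
        have hzs : z ∈ s := by simpa using hzt
        have hms : m ∈ s := by simpa using hmt
        obtain ⟨x, y, hxy, rfl⟩ := (hlk s).1 ⟨hs, hzs⟩
        rcases (hcyc x y).1 hxy with h | ⟨rfl, rfl⟩ | h
        · exact absurd rfl (h1 x y h)
        · rw [im]
        · exfalso
          have hx := mem_of_conseq _ _ _ h
          simp only [mem_insert, mem_singleton] at hms
          rcases hms with h | h | h
          · exact hzm h.symm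
          · exact hm3 (h ▸ hx.1)
          · exact hm3 (h ▸ hx.2)
      · exfalso
        have hx := mem_of_conseq _ _ _ h1
        simp only [mem_insert, mem_singleton, reduceCtorEq, Option.some.injEq, false_or] at hzt
        rcases hzt with h | h
        · exact hzL (h ▸ hx.1)
        · exact hzL (h ▸ hx.2)
      · exfalso
        simp only [mem_insert, mem_singleton, reduceCtorEq, Option.some.injEq, or_false] at hmt
        rcases hmt with h | h
        · exact hzm h.symm
        · exact ham h.symm
      · left; rfl
    · rintro t ht ⟨hnt, hct⟩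
      rw [mem_split, ← hL] at ht
      rcases ht with ⟨s, hs, h1, h2⟩ | ⟨x, y, h1, rfl⟩ | rfl | rfl
      · exact some_image_ne s t hnt h2
      · have hx := mem_of_conseq _ _ _ h1
        simp only [mem_insert, mem_singleton, reduceCtorEq, Option.some.injEq, false_or] at hct
        rcases hct with h | h
        · exact hcL (h ▸ hx.1)
        · exact hcL (h ▸ hx.2)
      · simp only [mem_insert, mem_singleton, reduceCtorEq, Option.some.injEq, or_false] at hct
        rcases hct with h | h
        · exact hzc h.symm
        · exact hac h.symm
      · simp only [mem_insert, mem_singleton, reduceCtorEq, Option.some.injEq, false_or] at hct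
        rcases hct with h | h
        · exact hzc h.symm
        · exact hmc h.symm
    · intro t ht
      rw [mem_split, ← hL] at ht
      rcases ht with ⟨s, hs, h1, rfl⟩ | ⟨x, y, h1, rfl⟩ | rfl | rfl
      · rw [card_image_of_injective _ (Option.some_injective V)]
        exact hT s hs
      · have hx := ne_of_conseq _ _ _ hLnd h1
        exact card3' (by simp) (by simp) (by simpa using hx)
      · exact card3' (by simpa using hza) (by simp) (by simp)
      · exact card3' (by simp) (by simpa using hzm) (by simp)

end Pool.Agent.TSP
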