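import Pool.Agent.TSP.CRN
import Pool.Agent.TSP.CSD
import Pool.Agent.TSP.CYC
import Pool.Agent.TSP.EXH
import Pool.Agent.TSP.FLP
import Pool.Agent.TSP.GE3
import Pool.Agent.TSP.GEO
import Pool.Agent.TSP.HSP
import Pool.Agent.TSP.LPP
import Pool.Agent.TSP.LSA
import Pool.Agent.TSP.LSB
import Pool.Agent.TSP.P3
import Pool.Agent.TSP.RES
import Pool.Agent.TSP.RMA
import Pool.Agent.TSP.RMB
import Pool.Agent.TSP.SPT

/-!
# TSP: assembly of the blocks P3 (removal of flat vertices) and HSP (vertex split)
-/

set_option autoImplicit false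

namespace Pool.Agent.TSP

namespace PA

theorem flp : Stmt_Flp := flp_proof lsa_proof lsb_proof csd_proof crn_proof exh_proof
theorem rma : Stmt_Rma := rma_proof lsa_proof lsb_proof csd_proof crn_proof exh_proof
theorem rmb : Stmt_Rmb := rmb_proof lsa_proof lsb_proof csd_proof crn_proof exh_proof
theorem ge3 : Stmt_Ge3 := ge3_proof lsa_proof crn_proof
theorem geo : Stmt_Geo := geo_proof lsa_proof crn_proof
theorem lpp : Stmt_Lpp := lpp_proof lsa_proof ge3 geo flp rma rmb
theorem res : Stmt_Res := res_proof lsa_proof cyc_proof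

end PA

/-- P3: removal of the flat vertices. -/
theorem p3 : Stmt_P3 := p3_proof lsa_proof cyc_proof PA.lpp PA.res

/-- HSP: the homeomorphism of a vertex split. -/
theorem hsp : Stmt_Hsp := hsp_proof lsa_proof exh_proof spt_proof

end Pool.Agent.TSP
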