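import Pool.Agent.TSP.P3Stmts

/-!
# TSP.CRN: renaming a vertex; elementary consequences of cone injectivity
-/

set_option autoImplicit false

open scoped RealInnerProductSpace

namespace Pool.Agent.TSP

open Pool.Agent.TSM

namespace CRN_

section
variable {V : Type} [Fintype V] [DecidableEq V]

theorem sum_single (d : V → E3) (x : V) (a : ℝ) :
    ∑ u, (if u = x then a else 0) • d u = a • d x := by
  simp [ite_smul]

theorem rename (A : Finset (Finset V)) (d : V → E3) (hA : ConeInj A d) (m m' : V) (κ : ℝ)
    (hm' : ∀ s ∈ A, m' ∉ s) (hκ : 0 < κ) (hd : d m = κ • d m') :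
    ConeInj (A.image (fun s => s.image fun w => if w = m then m' else w)) d := by
  by_cases hmm : m = m'
  · have h1 : (A.image (fun s => s.image fun w => if w = m then m' else w)) = A := by
      have h2 : (fun w : V => if w = m then m' else w) = id := by
        funext w
        by_cases hw : w = m
        · simp [hw, hmm]
        · simp [hw]
      rw [h2]
      simp
    rw [h1]
    exact hA
  · intro σ' hσ' τ' hτ' ζ h1 h2 h3
    obtain ⟨σ, hσ, rfl⟩ := Finset.mem_image.1 hσ'
    obtain ⟨τ, hτ, rfl⟩ := Finset.mem_image.1 hτ'
    -- membership in the renamed sets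
    have hM : ∀ s : Finset V, m ∉ s.image (fun w => if w = m then m' else w) := by
      intro s hs
      obtain ⟨w, hw, hw2⟩ := Finset.mem_image.1 hs
      by_cases h : w = m
      · rw [if_pos h] at hw2
        exact hmm hw2.symm
      · rw [if_neg h] at hw2
        exact h hw2
    have hM' : ∀ s : Finset V, m ∉ s → m' ∉ s →
        m' ∉ s.image (fun w => if w = m then m' else w) := by
      intro s hs hs' hh
      obtain ⟨w, hw, hw2⟩ := Finset.mem_image.1 hh
      by_cases h : w = m
      · exact hs (h ▸ hw)
      · rw [if_neg h] at hw2
        exact hs' (hw2 ▸ hw)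
    have hU : ∀ (s : Finset V) (u : V), u ≠ m' → u ∉ s →
        u ∉ s.image (fun w => if w = m then m' else w) := by
      intro s u hu hs hh
      obtain ⟨w, hw, hw2⟩ := Finset.mem_image.1 hh
      by_cases h : w = m
      · rw [if_pos h] at hw2
        exact hu hw2.symm
      · rw [if_neg h] at hw2
        exact hs (hw2 ▸ hw)
    have hζm : ζ m = 0 := le_antisymm (h1 m (hM σ)) (h2 m (hM τ))
    have key : (fun u => ζ u + (if u = m then ζ m' / κ else 0) -
        (if u = m' then ζ m' else 0)) = 0 := by
      refine hA σ hσ τ hτ _ ?_ ?_ ?_
      · intro u hu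
        by_cases hum : u = m
        · have hum' : u ≠ m' := fun h => hmm (hum.symm.trans h)
          have h4 : ζ m' ≤ 0 := h1 m' (hM' σ (hum ▸ hu) (hm' σ hσ))
          simp only [hum, if_true, if_neg hmm, hζm]
          have := div_nonpos_of_nonpos_of_nonneg h4 hκ.le
          linarith
        · by_cases hum' : u = m'
          · simp only [hum', if_true, if_neg (Ne.symm hmm)]
            linarith
          · simp only [if_neg hum, if_neg hum']
            have := h1 u (hU σ u hum' hu)
            linarith
      · intro u hu
        by_cases hum : u = m
        · have hum' : u ≠ m' := fun h => hmm (hum.symm.trans h)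
          have h4 : 0 ≤ ζ m' := h2 m' (hM' τ (hum ▸ hu) (hm' τ hτ))
          simp only [hum, if_true, if_neg hmm, hζm]
          have := div_nonneg h4 hκ.le
          linarith
        · by_cases hum' : u = m'
          · simp only [hum', if_true, if_neg (Ne.symm hmm)]
            linarith
          · simp only [if_neg hum, if_neg hum']
            have := h2 u (hU τ u hum' hu)
            linarith
      · simp only [sub_smul, add_smul]
        rw [Finset.sum_sub_distrib, Finset.sum_add_distrib, sum_single, sum_single, h3, hd,
          smul_smul, div_mul_cancel₀ _ hκ.ne']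
        simp
    have h5 : ζ m' = 0 := by
      have h6 := congrFun key m
      simp only [if_true, if_neg hmm, hζm, Pi.zero_apply] at h6
      have h7 : ζ m' / κ = 0 := by linarith
      rcases div_eq_zero_iff.1 h7 with h | h
      · exact h
      · exact absurd h hκ.ne'
    funext u
    by_cases hum : u = m
    · rw [hum, hζm]; rfl
    · by_cases hum' : u = m'
      · rw [hum', h5]; rfl
      · have h6 := congrFun key u
        simp only [if_neg hum, if_neg hum', Pi.zero_apply] at h6
        show ζ u = 0
        linarith

end

end CRN_

open CRN_ in
theorem crn_proof : Stmt_Crn := by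
  intro V _ _ A d hA
  refine ⟨fun m m' κ h1 h2 h3 => rename A d hA m m' κ h1 h2 h3, ?_, ?_, ?_⟩
  · intro x y m α β hxy hα hβ hd hmx hmy s hs hms
    have key := hA s hs {x, y} hxy (fun u => (if u = m then 1 else 0) - (if u = x then α else 0) -
        (if u = y then β else 0)) ?_ ?_ ?_
    · have h := congrFun key m
      simp [hmx, hmy] at h
    · intro u hu
      have hum : u ≠ m := fun h => hu (h ▸ hms)
      have h1 : (0 : ℝ) ≤ if u = x then α else 0 := by split_ifs <;> simp [hα]
      have h2 : (0 : ℝ) ≤ if u = y then β else 0 := by split_ifs <;> simp [hβ]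
      simp only [if_neg hum]
      linarith
    · intro u hu
      have hux : u ≠ x := fun h => hu (by simp [h])
      have huy : u ≠ y := fun h => hu (by simp [h])
      have h1 : (0 : ℝ) ≤ if u = m then 1 else 0 := by split_ifs <;> simp
      simp only [if_neg hux, if_neg huy]
      linarith
    · simp only [sub_smul]
      rw [Finset.sum_sub_distrib, Finset.sum_sub_distrib, sum_single, sum_single, sum_single, hd]
      simp
  · intro x y hne hxy a b hab
    have key := hA {x, y} hxy {x, y} hxy (fun u => (if u = x then a else 0) +
        (if u = y then b else 0)) ?_ ?_ ?_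
    · have h1 := congrFun key x
      have h2 := congrFun key y
      simp only [if_true, if_neg hne, if_neg (Ne.symm hne), Pi.zero_apply] at h1 h2
      exact ⟨by linarith, by linarith⟩
    · intro u hu
      have hux : u ≠ x := fun h => hu (by simp [h])
      have huy : u ≠ y := fun h => hu (by simp [h])
      simp [hux, huy]
    · intro u hu
      have hux : u ≠ x := fun h => hu (by simp [h])
      have huy : u ≠ y := fun h => hu (by simp [h])
      simp [hux, huy]
    · simp only [add_smul]
      rw [Finset.sum_add_distrib, sum_single, sum_single, hab]
  · intro x m y hxy hxm hmy h1 h2 a b hd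
    by_contra hb
    have hb' : 0 ≤ b := not_lt.1 hb
    have key := hA {m, y} h2 {x, m} h1 (fun u => (if u = y then 1 else 0) -
        (if u = m then a else 0) - (if u = x then b else 0)) ?_ ?_ ?_
    · have h := congrFun key y
      simp [Ne.symm hxy, Ne.symm hmy] at h
    · intro u hu
      have hum : u ≠ m := fun h => hu (by simp [h])
      have huy : u ≠ y := fun h => hu (by simp [h])
      have h4 : (0 : ℝ) ≤ if u = x then b else 0 := by split_ifs <;> simp [hb']
      simp only [if_neg hum, if_neg huy]
      linarith
    · intro u hu
      have hum : u ≠ m := fun h => hu (by simp [h])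
      have hux : u ≠ x := fun h => hu (by simp [h])
      have h4 : (0 : ℝ) ≤ if u = y then 1 else 0 := by split_ifs <;> simp
      simp only [if_neg hum, if_neg hux]
      linarith
    · simp only [sub_smul]
      rw [Finset.sum_sub_distrib, Finset.sum_sub_distrib, sum_single, sum_single, sum_single, hd]
      simp

end Pool.Agent.TSP
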