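import Pool.Agent.TSM.Glue

/-!
# TSP: definitions for Part P (preprocessing) of MP_89ee87_gt

Link lists, arcs, cone injectivity (= embedded stars), tight vertex condition, the state `Pre`
(all inner vertices strictly balanced, everything on the boundary of the hull still untouched),
corners in list form, vertex splits.
-/

set_option autoImplicit false

open scoped RealInnerProductSpace

namespace Pool.Agent.TSP

open Pool.Agent.TSM

/-- Consecutive pairs of a list. -/
def conseq {α : Type} : List α → List (α × α)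
  | a :: b :: l => (a, b) :: conseq (b :: l)
  | _ => []

/-- Cyclically consecutive pairs of a list. -/
def cyc {α : Type} (l : List α) : List (α × α) :=
  match l with
  | [] => []
  | a :: l' => conseq (a :: l' ++ [a])

section
variable {V : Type} [DecidableEq V]

/-- `l` is the link of `v` in the family `T`, listed cyclically. -/
def IsLink (T : Finset (Finset V)) (v : V) (l : List V) : Prop :=
  3 ≤ l.length ∧ l.Nodup ∧ v ∉ l ∧
    ∀ t : Finset V, (t ∈ T ∧ v ∈ t) ↔ ∃ x y, (x, y) ∈ cyc l ∧ t = {v, x, y}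

/-- `v` and `w` are joined by an edge of the family `T`. -/
def AdjT (T : Finset (Finset V)) (v w : V) : Prop := v ≠ w ∧ ∃ t ∈ T, v ∈ t ∧ w ∈ t

/-- The arcs of the link of `v` (the triangles at `v` with `v` removed). -/
def arcs (T : Finset (Finset V)) (v : V) : Finset (Finset V) :=
  (T.filter fun t => v ∈ t).image fun t => t.erase v
end

section
variable {V : Type} [Fintype V] [DecidableEq V]

/-- The cones spanned by the arcs `A` in the directions `d` meet only in common faces:
`ζ = (coefficients of a point of the cone of σ) - (coefficients of a point of the cone of τ)`. -/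
def ConeInj (A : Finset (Finset V)) (d : V → E3) : Prop :=
  ∀ σ ∈ A, ∀ τ ∈ A, ∀ ζ : V → ℝ, (∀ u, u ∉ σ → ζ u ≤ 0) → (∀ u, u ∉ τ → 0 ≤ ζ u) →
    ∑ u, ζ u • d u = 0 → ζ = 0

/-- All stars of the family `T` are embedded (cone form). -/
def Emb (T : Finset (Finset V)) (p : V → E3) : Prop :=
  ∀ v, ConeInj (arcs T v) (fun u => p u - p v)

/-- The vertex form of the two-piece property: if the affine function `a` is `≤ 0` on all
vertices and vanishes at `z` and at another vertex which is not below `z` in direction `u`, then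
it vanishes at a neighbour of `z` which is not below `z` in direction `u`. -/
def VT (K : Surf V) (p : V → E3) : Prop :=
  ∀ a : E3 × ℝ, (∀ v, ev a (p v) ≤ 0) → ∀ (z : V) (u : E3), ev a (p z) = 0 →
    (∃ y, y ≠ z ∧ ev a (p y) = 0 ∧ ⟪u, p z⟫ ≤ ⟪u, p y⟫) →
    ∃ y, K.Adj z y ∧ ev a (p y) = 0 ∧ ⟪u, p z⟫ ≤ ⟪u, p y⟫

/-- `z` lies in the interior of the hull. -/
def Int (Φ : Finset (E3 × ℝ)) (p : V → E3) (z : V) : Prop := ∀ φ ∈ Φ, ev φ (p z) < 0

/-- `z` and `y` lie in a common facet plane. -/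
def TE (Φ : Finset (E3 × ℝ)) (p : V → E3) (z y : V) : Prop :=
  ∃ φ ∈ Φ, ev φ (p z) = 0 ∧ ev φ (p y) = 0

/-- Strictly balanced vertex. -/
def Bal (K : Surf V) (p : V → E3) (v : V) : Prop :=
  ∀ ν : E3, ν ≠ 0 → ∃ w, K.Adj v w ∧ 0 < ⟪ν, p w - p v⟫

/-- The facet planes `Φ` of the convex hull of the vertices. -/
structure Hull (p : V → E3) (Φ : Finset (E3 × ℝ)) : Prop where
  unit : ∀ φ ∈ Φ, ‖φ.1‖ = 1
  normals : ∀ φ ∈ Φ, ∀ ψ ∈ Φ, φ.1 = ψ.1 → φ = ψ
  bdd : Bornology.IsBounded (hull Φ)
  int : (interior (hull Φ)).Nonempty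
  facet : ∀ φ ∈ Φ, ∃ a b c : V, ev φ (p a) = 0 ∧ ev φ (p b) = 0 ∧ ev φ (p c) = 0 ∧
    AffineIndependent ℝ ![p a, p b, p c]
  mem : ∀ v, p v ∈ hull Φ
  eq : hull Φ = convexHull ℝ (Set.range p)

/-- The state during the treatment of the boundary of the hull. -/
structure Pre (K : Surf V) (p : V → E3) (Φ : Finset (E3 × ℝ)) : Prop where
  emb : Emb K.tri p
  hull : Hull p Φ
  ext : ∀ e ∈ Set.extremePoints ℝ (TSM.hull Φ), ∃! v, p v = e
  /-- the tight vertex condition inside facets and inside hull edges -/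
  t1 : ∀ φ ∈ Φ, ∀ ψ ∈ Φ, ∀ (z : V) (u : E3), ev φ (p z) = 0 → ev ψ (p z) = 0 →
    (∃ y, y ≠ z ∧ ev φ (p y) = 0 ∧ ev ψ (p y) = 0 ∧ ⟪u, p z⟫ ≤ ⟪u, p y⟫) →
    ∃ y, K.Adj z y ∧ ev φ (p y) = 0 ∧ ev ψ (p y) = 0 ∧ ⟪u, p z⟫ ≤ ⟪u, p y⟫
  bal : ∀ v, Int Φ p v → Bal K p v

/-- `v` is a corner (list form): its link is `F ++ P` with a flat fan `F` and one inner path `P`
strictly below the facet, and the directions of the fan are strictly balanced in the plane. -/
def Crn (K : Surf V) (p : V → E3) (Φ : Finset (E3 × ℝ)) (v : V) : Prop :=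
  ∃ φ ∈ Φ, ev φ (p v) = 0 ∧ (∀ ψ ∈ Φ, ψ ≠ φ → ev ψ (p v) < 0) ∧
    ∃ F P : List V, 3 ≤ F.length ∧ P ≠ [] ∧ IsLink K.tri v (F ++ P) ∧
      (∀ x ∈ F, ev φ (p x) = 0) ∧ (∀ x ∈ P, ev φ (p x) < 0) ∧
      (∀ u : E3, (∀ t : ℝ, u ≠ t • φ.1) → ∃ x ∈ F, 0 < ⟪u, p x - p v⟫)

/-- Output of the treatment of the boundary (before the final generic perturbation). -/
structure Semi (K : Surf V) (p : V → E3) (Φ : Finset (E3 × ℝ)) : Prop where
  emb : Emb K.tri p
  hull : Hull p Φ
  ext : ∀ e ∈ Set.extremePoints ℝ (TSM.hull Φ), ∃! v, p v = e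
  kinds : ∀ v, K.Outer p Φ v ∨ (Int Φ p v ∧ Bal K p v) ∨ Crn K p Φ v

/-- The family of triangles after splitting the vertex `z` along the part `a, mid, c` of its
link: the new vertex `none` takes over the triangles `{z, x, y}`, `(x, y)` consecutive in
`a :: mid ++ [c]`, and the triangles `{z, a, none}`, `{z, none, c}` are added. -/
def splitTri (T : Finset (Finset V)) (z a c : V) (mid : List V) : Finset (Finset (Option V)) :=
  ((T \ ((conseq (a :: mid ++ [c])).toFinset.image fun q => {z, q.1, q.2})).image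
      fun t => t.image some) ∪
    ((conseq (a :: mid ++ [c])).toFinset.image fun q => {none, some q.1, some q.2}) ∪
    {{some z, some a, none}, {some z, none, some c}}

/-- Linear independence of two vectors. -/
def Indep2 (x y : E3) : Prop := ∀ a b : ℝ, a • x + b • y = 0 → a = 0 ∧ b = 0

/-- The part `x, mid, y` of the link of `z` is an inner path: `z x` and `z y` are boundary edges
(contained in facets), the edges `z u`, `u ∈ mid`, are not. -/
def Path (K : Surf V) (p : V → E3) (Φ : Finset (E3 × ℝ)) (z x y : V) (mid rest : List V) : Prop :=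
  IsLink K.tri z (x :: (mid ++ y :: rest)) ∧ TE Φ p z x ∧ TE Φ p z y ∧ ∀ u ∈ mid, ¬ TE Φ p z u

/-- The free sector and left-right conclusions of the pocket lemma. -/
structure Pocket (K : Surf V) (p : V → E3) (Φ : Finset (E3 × ℝ)) (z x y : V)
    (mid rest : List V) (φ : E3 × ℝ) : Prop where
  mem : φ ∈ Φ
  ez : ev φ (p z) = 0
  ex : ev φ (p x) = 0
  ey : ev φ (p y) = 0
  emid : ∀ u ∈ mid, ev φ (p u) < 0
  rest_ne : rest ≠ []
  /-- the open sector between `x` and `y` is free -/
  free : ∀ σ ∈ arcs K.tri z, ∀ α : V → ℝ, (∀ u, 0 ≤ α u) → (∀ u, u ∉ σ → α u = 0) →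
    ∀ l m : ℝ, 0 < l → 0 < m →
      ∑ u, α u • (p u - p z) ≠ l • (p x - p z) + m • (p y - p z)
  lrx : ∀ m1 b : V, mid.head? = some m1 → rest.getLast? = some b → ∀ l m k r : ℝ, 0 < m → 0 ≤ k →
    0 ≤ r → l • (p x - p z) + m • (p y - p z) + k • (p m1 - p z) ≠ r • (p b - p z)
  lry : ∀ m1 b : V, mid.getLast? = some m1 → rest.head? = some b → ∀ l m k r : ℝ, 0 < m → 0 ≤ k →
    0 ≤ r → l • (p y - p z) + m • (p x - p z) + k • (p m1 - p z) ≠ r • (p b - p z)

/-- `W` is a set of new corners: they are corners, and if `w ∈ W` is an end of an inner path at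
the old boundary vertex `z ∉ W`, then its direction is independent of the direction of every
other end `u` of an inner path at `z`. -/
def WGood (K : Surf V) (p : V → E3) (Φ : Finset (E3 × ℝ)) (W : Finset V) : Prop :=
  (∀ w ∈ W, Crn K p Φ w) ∧
    ∀ z w u m m' : V, z ∉ W → w ∈ W → u ≠ w → TE Φ p z w → TE Φ p z u → ¬ TE Φ p z m →
      ¬ TE Φ p z m' → {z, w, m} ∈ K.tri → {z, u, m'} ∈ K.tri →
      Indep2 (p w - p z) (p u - p z)

open Classical in
/-- The number of inner edges at old boundary vertices. -/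
noncomputable def mu (K : Surf V) (p : V → E3) (Φ : Finset (E3 × ℝ)) (W : Finset V) : ℕ :=
  ((Finset.univ : Finset (V × V)).filter fun q =>
    q.1 ∉ W ∧ (∃ φ ∈ Φ, ev φ (p q.1) = 0) ∧ K.Adj q.1 q.2 ∧ ¬ TE Φ p q.1 q.2).card

/-- The positions after a split. -/
noncomputable def splitPos (p : V → E3) (w : E3) : Option V → E3 := fun o => o.elim w p

/-- The collapse `none ↦ z` on barycentric coordinates. -/
def collapse (z : V) (w : Option V → ℝ) : V → ℝ := fun u => w (some u) + if u = z then w none else 0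

end

end Pool.Agent.TSP
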