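import Pool.Agent.TSP.Defs

/-!
# TSP, blocks P3 (removal of flat vertices) and HSP (vertex split homeomorphism):
definitions and exact statements of the modules
-/

set_option autoImplicit false

open scoped RealInnerProductSpace

namespace Pool.Agent.TSP

open Pool.Agent.TSM

section
variable {V : Type} [DecidableEq V]

/-- `v` is a vertex of the family `T`. -/
def Used (T : Finset (Finset V)) (v : V) : Prop := ∃ t ∈ T, v ∈ t

/-- A closed surface whose vertices are the used elements of `V`. -/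
structure Fam (T : Finset (Finset V)) : Prop where
  card3 : ∀ t ∈ T, t.card = 3
  link : ∀ v, Used T v → ∃ l, IsLink T v l

/-- All neighbours of `v` lie in a plane through `v`. -/
def Flat (T : Finset (Finset V)) (p : V → E3) (v : V) : Prop :=
  ∃ ν : E3, ν ≠ 0 ∧ ∀ w, AdjT T v w → ⟪ν, p w - p v⟫ = 0

/-- Flip of the edge `AC` of the quadrilateral `ABCD`. -/
def flipT (T : Finset (Finset V)) (A B C D : V) : Finset (Finset V) :=
  (T \ {{A, B, C}, {A, C, D}}) ∪ {{A, B, D}, {B, C, D}}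

/-- Removal of a vertex `v` with link `a, b, c`. -/
def rm3T (T : Finset (Finset V)) (v a b c : V) : Finset (Finset V) :=
  (T \ {{v, a, b}, {v, b, c}, {v, c, a}}) ∪ {{a, b, c}}

/-- Removal of a vertex `v` with link `a, b, c, d`. -/
def rm4T (T : Finset (Finset V)) (v a b c d : V) : Finset (Finset V) :=
  (T \ {{v, a, b}, {v, b, c}, {v, c, d}, {v, d, a}}) ∪ {{a, b, c}, {a, c, d}}

/-- `u` sees the same triangles in `T` and `T'`, except that those in `R` (removed) are replaced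
by those in `S` (added). -/
def Local (T T' R S : Finset (Finset V)) (u : V) : Prop :=
  ∀ t : Finset V, u ∈ t → (t ∈ T' ↔ (t ∈ T ∧ t ∉ R) ∨ t ∈ S)

end

/-! ### lists and links -/

/-- CYC: link cycles and link lists are the same thing. -/
def Stmt_Cyc : Prop :=
  ∀ (V : Type) [DecidableEq V] (T : Finset (Finset V)) (v : V),
    (∃ (n : ℕ) (c : ZMod n → V), IsLinkCycle T v n c) ↔ ∃ l, IsLink T v l

/-- LSA: rotation, reversal, consecutive vertices, basic facts. -/
def Stmt_Lsa : Prop :=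
  ∀ (V : Type) [DecidableEq V] (T : Finset (Finset V)) (u : V) (l : List V), IsLink T u l →
    -- the list may start at any vertex of the link
    (∀ x ∈ l, ∃ l', IsLink T u (x :: l') ∧ l'.length + 1 = l.length) ∧
    -- reversal
    IsLink T u l.reverse ∧
    -- the vertices of the link are the neighbours
    (∀ x, x ∈ l ↔ AdjT T u x) ∧
    -- an edge of the link
    (∀ x y, x ≠ y → u ≠ x → u ≠ y → {u, x, y} ∈ T →
      ∃ r, IsLink T u (x :: y :: r) ∧ r.length + 2 = l.length) ∧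
    -- two consecutive edges of the link
    (∀ x m y, x ≠ y → x ≠ m → m ≠ y → u ≠ x → u ≠ m → u ≠ y → {u, x, m} ∈ T → {u, m, y} ∈ T →
      ∃ r, IsLink T u (x :: m :: y :: r) ∧ r.length + 3 = l.length) ∧
    -- the triangles at `u` and `m`
    (∀ x m y r, IsLink T u (x :: m :: y :: r) → {u, x, m} ∈ T ∧ {u, m, y} ∈ T ∧
      ∀ t ∈ T, u ∈ t → m ∈ t → t = {u, x, m} ∨ t = {u, m, y}) ∧
    -- arcs
    (∀ s : Finset V, s ∈ arcs T u ↔ ∃ x y, (x, y) ∈ cyc l ∧ s = {x, y}) ∧
    (∀ s ∈ arcs T u, s.card = 2 ∧ ∀ x ∈ s, x ∈ l)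

/-- LSB: the four local changes of a link. -/
def Stmt_Lsb : Prop :=
  ∀ (V : Type) [DecidableEq V] (T T' : Finset (Finset V)) (u : V),
    -- nothing changes
    (∀ l, IsLink T u l → Local T T' ∅ ∅ u → IsLink T' u l ∧ arcs T' u = arcs T u) ∧
    -- deletion of `m`
    (∀ x m y r, IsLink T u (x :: m :: y :: r) → r ≠ [] →
      Local T T' {{u, x, m}, {u, m, y}} {{u, x, y}} u → IsLink T' u (x :: y :: r) ∧
      arcs T u = ((arcs T' u).erase {x, y}) ∪ {{x, m}, {m, y}} ∧ {x, y} ∈ arcs T' u ∧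
      ∀ s ∈ arcs T' u, m ∉ s) ∧
    -- insertion of `m`
    (∀ x m y r, IsLink T u (x :: y :: r) → m ∉ (x :: y :: r) → m ≠ u →
      Local T T' {{u, x, y}} {{u, x, m}, {u, m, y}} u → IsLink T' u (x :: m :: y :: r) ∧
      arcs T' u = ((arcs T u).erase {x, y}) ∪ {{x, m}, {m, y}} ∧ {x, y} ∈ arcs T u ∧
      ∀ s ∈ arcs T u, m ∉ s) ∧
    -- renaming `m` to `m'`
    (∀ x m y m' r, IsLink T u (x :: m :: y :: r) → m' ∉ (x :: m :: y :: r) → m' ≠ u →
      Local T T' {{u, x, m}, {u, m, y}} {{u, x, m'}, {u, m', y}} u →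
      IsLink T' u (x :: m' :: y :: r) ∧
      arcs T' u = (arcs T u).image (fun s => s.image fun w => if w = m then m' else w) ∧
      ∀ s ∈ arcs T u, m' ∉ s)

/-! ### cones -/

/-- CSD: subdividing an arc does not change the injectivity of the cone complex. -/
def Stmt_Csd : Prop :=
  ∀ (V : Type) [Fintype V] [DecidableEq V] (A : Finset (Finset V)) (d : V → E3) (x y m : V)
    (α β : ℝ), x ≠ y → (∀ s ∈ A, s.card = 2) → {x, y} ∈ A → (∀ s ∈ A, m ∉ s) → 0 < α → 0 < β →
    d m = α • d x + β • d y →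
    (ConeInj A d ↔ ConeInj ((A.erase {x, y}) ∪ {{x, m}, {m, y}}) d)

/-- CRN: renaming a vertex with a positively proportional direction; and elementary
consequences of cone injectivity. -/
def Stmt_Crn : Prop :=
  ∀ (V : Type) [Fintype V] [DecidableEq V] (A : Finset (Finset V)) (d : V → E3), ConeInj A d →
    (∀ (m m' : V) (κ : ℝ), (∀ s ∈ A, m' ∉ s) → 0 < κ → d m = κ • d m' →
      ConeInj (A.image (fun s => s.image fun w => if w = m then m' else w)) d) ∧
    -- a direction in the open cone of an arc belongs to no other arc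
    (∀ (x y m : V) (α β : ℝ), {x, y} ∈ A → 0 ≤ α → 0 ≤ β → d m = α • d x + β • d y → m ≠ x →
      m ≠ y → ∀ s ∈ A, m ∉ s) ∧
    -- independence
    (∀ x y : V, x ≠ y → {x, y} ∈ A → ∀ a b : ℝ, a • d x + b • d y = 0 → a = 0 ∧ b = 0) ∧
    -- consecutive arcs do not overlap
    (∀ x m y : V, x ≠ y → x ≠ m → m ≠ y → {x, m} ∈ A → {m, y} ∈ A →
      ∀ a b : ℝ, d y = a • d m + b • d x → b < 0)

/-! ### planar geometry -/

/-- GE3: planar vertex of degree 3. -/
def Stmt_Ge3 : Prop :=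
  ∀ (V : Type) [Fintype V] [DecidableEq V] (T : Finset (Finset V)) (p : V → E3) (v a b c : V),
    IsLink T v [a, b, c] → ConeInj (arcs T v) (fun u => p u - p v) → Flat T p v →
    ∃ la lb lc : ℝ, 0 < la ∧ 0 < lb ∧ 0 < lc ∧ la + lb + lc = 1 ∧
      p v = la • p a + lb • p b + lc • p c

/-- GEO: planar vertex of degree at least 4: an edge can be flipped, or the degree is 4 and `v`
lies on a diagonal. -/
def Stmt_Geo : Prop :=
  ∀ (V : Type) [Fintype V] [DecidableEq V] (T : Finset (Finset V)) (p : V → E3) (v : V)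
    (l : List V), IsLink T v l → 4 ≤ l.length →
    ConeInj (arcs T v) (fun u => p u - p v) → Flat T p v →
    (∃ B C D r, IsLink T v (B :: C :: D :: r) ∧ r.length + 3 = l.length ∧ ∃ α β : ℝ, 0 < α ∧
      0 < β ∧ 1 < α + β ∧ p C - p v = α • (p B - p v) + β • (p D - p v)) ∨
    (∃ a b c d, IsLink T v [a, b, c, d] ∧ ∃ κ : ℝ, 0 < κ ∧ p a - p v = -(κ • (p c - p v)))

/-! ### homeomorphisms -/

/-- EXH: the general exchange homeomorphism (flip, subdivision, removal). -/
def Stmt_Exh : Prop :=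
  ∀ (V : Type) [Fintype V] [DecidableEq V] (T T' : Finset (Finset V)) (P N : Finset V)
    (c : V → ℝ), P.Nonempty → N.Nonempty → Disjoint P N → (∀ i ∈ P, 0 < c i) →
    (∀ j ∈ N, 0 < c j) → ∑ i ∈ P, c i = ∑ j ∈ N, c j →
    (∀ t ∈ T, ¬ N ⊆ t) → (∀ t ∈ T', ¬ P ⊆ t) →
    (∀ t ∈ T, P ⊆ t → ∀ i ∈ P, ∃ t' ∈ T', (t ∪ N).erase i ⊆ t') →
    (∀ t ∈ T, ¬ P ⊆ t → ∃ t' ∈ T', t ⊆ t') →
    (∀ t ∈ T', N ⊆ t → ∀ j ∈ N, ∃ t' ∈ T, (t ∪ P).erase j ⊆ t') →
    (∀ t ∈ T', ¬ N ⊆ t → ∃ t' ∈ T, t ⊆ t') →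
    ∃ h : bodyOf T ≃ₜ bodyOf T', ∀ x, ∃ τ : ℝ, 0 ≤ τ ∧ (∀ i ∈ P, τ * c i ≤ x.1 i) ∧
      ∀ u, (h x).1 u = x.1 u - τ * ((if u ∈ P then c u else 0) - (if u ∈ N then c u else 0))

/-! ### the three moves -/

/-- FLP (uses LSA, LSB, CSD, CRN, EXH): the flip. -/
def Stmt_Flp : Prop :=
  ∀ (V : Type) [Fintype V] [DecidableEq V] (T : Finset (Finset V)) (p : V → E3) (A B C D : V)
    (r : List V) (la lb lc ld : ℝ), Fam T → Emb T p → IsLink T A (B :: C :: D :: r) →
    0 < la → 0 < lb → 0 < lc → 0 < ld → la + lc = 1 → lb + ld = 1 →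
    la • p A + lc • p C = lb • p B + ld • p D →
    Fam (flipT T A B C D) ∧ Emb (flipT T A B C D) p ∧
      (∀ v, Used (flipT T A B C D) v ↔ Used T v) ∧ IsLink (flipT T A B C D) A (B :: D :: r) ∧
      ∃ h : bodyOf T ≃ₜ bodyOf (flipT T A B C D), ∀ x, lin p (h x).1 = lin p x.1

/-- RMA (uses LSA, LSB, CSD, CRN, EXH): removal of a vertex of degree 3. -/
def Stmt_Rma : Prop :=
  ∀ (V : Type) [Fintype V] [DecidableEq V] (T : Finset (Finset V)) (p : V → E3) (v a b c : V)
    (la lb lc : ℝ), Fam T → Emb T p → IsLink T v [a, b, c] → 0 < la → 0 < lb → 0 < lc →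
    la + lb + lc = 1 → p v = la • p a + lb • p b + lc • p c →
    Fam (rm3T T v a b c) ∧ Emb (rm3T T v a b c) p ∧
      (∀ u, Used (rm3T T v a b c) u ↔ (Used T u ∧ u ≠ v)) ∧
      ∃ h : bodyOf T ≃ₜ bodyOf (rm3T T v a b c), ∀ x, lin p (h x).1 = lin p x.1

/-- RMB (uses LSA, LSB, CSD, CRN, EXH): removal of a vertex of degree 4 on a diagonal. -/
def Stmt_Rmb : Prop :=
  ∀ (V : Type) [Fintype V] [DecidableEq V] (T : Finset (Finset V)) (p : V → E3) (v a b c d : V)
    (la lc : ℝ), Fam T → Emb T p → IsLink T v [a, b, c, d] → 0 < la → 0 < lc →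
    la + lc = 1 → p v = la • p a + lc • p c →
    Fam (rm4T T v a b c d) ∧ Emb (rm4T T v a b c d) p ∧
      (∀ u, Used (rm4T T v a b c d) u ↔ (Used T u ∧ u ≠ v)) ∧
      ∃ h : bodyOf T ≃ₜ bodyOf (rm4T T v a b c d), ∀ x, lin p (h x).1 = lin p x.1

/-- LPP (uses GE3, GEO, FLP, RMA, RMB): all flat vertices can be removed. -/
def Stmt_Lpp : Prop :=
  ∀ (V : Type) [Fintype V] [DecidableEq V] (T : Finset (Finset V)) (p : V → E3),
    Fam T → Emb T p → T.Nonempty →
    ∃ T' : Finset (Finset V), Fam T' ∧ Emb T' p ∧ T'.Nonempty ∧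
      (∀ v, Used T' v → ¬ Flat T' p v) ∧
      ∃ h : bodyOf T ≃ₜ bodyOf T', ∀ x, lin p (h x).1 = lin p x.1

/-- RES (uses CYC): restriction to the used vertices. -/
def Stmt_Res : Prop :=
  ∀ (V : Type) [Fintype V] [DecidableEq V] (T : Finset (Finset V)) (p : V → E3),
    Fam T → Emb T p → T.Nonempty →
    ∃ (V' : Type) (_ : Fintype V') (_ : DecidableEq V') (_ : Nonempty V') (K' : Surf V')
      (i : V' → V), Function.Injective i ∧ K'.tri.image (Finset.image i) = T ∧
      Emb K'.tri (fun v => p (i v)) ∧ (∀ v w, K'.Adj v w ↔ AdjT T (i v) (i w)) ∧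
      (∀ v, Used T (i v)) ∧
      ∃ h : bodyOf T ≃ₜ K'.body, ∀ x, K'.map (fun v => p (i v)) (h x) = lin p x.1

/-- P3 (uses CYC, LPP, RES): removal of the flat vertices of a surface. -/
def Stmt_P3 : Prop :=
  ∀ (V : Type) [Fintype V] [DecidableEq V] [Nonempty V] (K : Surf V) (p : V → E3),
    Emb K.tri p →
    ∃ (V' : Type) (_ : Fintype V') (_ : DecidableEq V') (_ : Nonempty V') (K' : Surf V')
      (p' : V' → E3), Emb K'.tri p' ∧ Set.range p' ⊆ Set.range p ∧
      (∀ v, ¬ ∃ ν : E3, ν ≠ 0 ∧ ∀ w, K'.Adj v w → ⟪ν, p' w - p' v⟫ = 0) ∧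
      ∃ h : K.body ≃ₜ K'.body, ∀ x, K'.map p' (h x) = K.map p x

/-! ### vertex split -/

/-- SPT: the triangles of a vertex split, by induction on the length of the middle part. -/
def Stmt_Spt : Prop :=
  ∀ (V : Type) [Fintype V] [DecidableEq V] (T : Finset (Finset V)) (z a c : V)
    (mid rest : List V), (∀ t ∈ T, t.card = 3) → IsLink T z (a :: (mid ++ c :: rest)) →
    (∀ m, mid = [m] → splitTri T z a c mid =
      ((T.image fun t => t.image some) \ {{some z, some a, some m}, {some z, some m, some c}}) ∪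
        {{none, some a, some m}, {none, some m, some c}, {some z, some a, none},
          {some z, none, some c}}) ∧
    (∀ mid' m, mid' ≠ [] → mid = mid' ++ [m] → splitTri T z a c mid =
      flipT (splitTri T z a m mid') (some z) none (some m) (some c) ∧
      {some z, none, some m} ∈ splitTri T z a m mid' ∧
      {some z, some m, some c} ∈ splitTri T z a m mid' ∧
      (∀ t ∈ splitTri T z a m mid', some z ∈ t → some m ∈ t →
        t = {some z, none, some m} ∨ t = {some z, some m, some c}) ∧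
      (∀ t ∈ splitTri T z a m mid', ¬ (none ∈ t ∧ some c ∈ t)) ∧
      ∀ t ∈ splitTri T z a m mid', t.card = 3)

/-- HSP (uses EXH, SPT): the homeomorphism of a vertex split. -/
def Stmt_Hsp : Prop :=
  ∀ (V : Type) [Fintype V] [DecidableEq V] (T : Finset (Finset V)) (z a c : V)
    (mid rest : List V), (∀ t ∈ T, t.card = 3) → IsLink T z (a :: (mid ++ c :: rest)) →
    mid ≠ [] → ∀ ε : ℝ, 0 < ε →
    ∃ h : bodyOf T ≃ₜ bodyOf (splitTri T z a c mid), ∀ x u, |collapse z (h x).1 u - x.1 u| ≤ ε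

end Pool.Agent.TSP
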